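import Mathlib

/-!
# Brauer characters, blocks and decomposition matrices

Definitions of the basic objects of the modular character theory of finite groups, following the
set-up of Navarro's book: `ℓ` is a prime, `F` is a field of characteristic `ℓ` together with a
surjective ring homomorphism `red` from the ring of all algebraic integers onto `F` (that is,
`F = R / M` with `R` the ring of algebraic integers and `M` a maximal ideal of `R` over `ℓ`).
-/

open Module

namespace Pool.Agent.Helper31.Brauer

/-- The ring of all algebraic integers. -/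
abbrev AlgInt : Type := ↥(integralClosure ℤ ℂ)

section

variable {F : Type} [Field F] (ℓ : ℕ) (red : AlgInt →+* F)

/-- `z` is a root of unity of order prime to `ℓ`. -/
def IsRegularRoot (ℓ : ℕ) (z : AlgInt) : Prop := ∃ m : ℕ, ¬ ℓ ∣ m ∧ z ^ m = 1

open Classical in
/-- The complex lift of `x`: the root of unity of order prime to `ℓ` in `ℂ` which reduces to `x`. -/
noncomputable def lift (x : F) : ℂ :=
  if h : ∃ z : AlgInt, IsRegularRoot ℓ z ∧ red z = x then ((h.choose : AlgInt) : ℂ) else 0

variable {G : Type} [Group G]

/-- The value at `g` of the Brauer character of the `F`-representation `ρ`: the sum of the complex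
lifts of the eigenvalues of `ρ g`, with multiplicities. -/
noncomputable def brauerValue {V : Type} [AddCommGroup V] [Module F V] [FiniteDimensional F V]
    (ρ : Representation F G V) (g : G) : ℂ :=
  ((ρ g).charpoly.roots.map (lift ℓ red)).sum

/-- The `ℓ`-regular elements of `G`. -/
abbrev Reg (ℓ : ℕ) (G : Type) [Group G] : Type := {g : G // ¬ ℓ ∣ orderOf g}

/-- The set of irreducible complex characters of `G`. -/
def Irr (G : Type) [Group G] : Set (G → ℂ) :=
  {χ | ∃ (n : ℕ) (ρ : Representation ℂ G (Fin n → ℂ)), ρ.IsIrreducible ∧ ρ.character = χ}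

/-- `φ` is the Brauer character of the `F`-representation `ρ`. -/
def Affords {V : Type} [AddCommGroup V] [Module F V] [FiniteDimensional F V]
    (ρ : Representation F G V) (φ : Reg ℓ G → ℂ) : Prop :=
  ∀ g : Reg ℓ G, φ g = brauerValue ℓ red ρ g.1

open Classical in
/-- The class sum of `g` acting on a representation. -/
noncomputable def classSum [Fintype G] {V : Type} [AddCommGroup V] [Module F V]
    (ρ : Representation F G V) (g : G) : V →ₗ[F] V :=
  ∑ x ∈ Finset.univ.filter (fun x => IsConj g x), ρ x

/-- `lam : G → F` is the central character of a block of `G`: some irreducible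
`F`-representation of `G` has the class sum of every `g` acting as the scalar `lam g`. -/
def IsBlock [Fintype G] (lam : G → F) : Prop :=
  ∃ (n : ℕ) (ρ : Representation F G (Fin n → F)), ρ.IsIrreducible ∧
    ∀ g, classSum ρ g = lam g • (LinearMap.id : (Fin n → F) →ₗ[F] (Fin n → F))

/-- The irreducible Brauer characters in the block with central character `lam`. -/
def IBrB [Fintype G] (lam : G → F) : Set (Reg ℓ G → ℂ) :=
  {φ | ∃ (n : ℕ) (ρ : Representation F G (Fin n → F)), ρ.IsIrreducible ∧ Affords ℓ red ρ φ ∧
    ∀ g, classSum ρ g = lam g • (LinearMap.id : (Fin n → F) →ₗ[F] (Fin n → F))}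

/-- The ordinary irreducible characters in the block with central character `lam`: those `χ` for
which the algebraic integer `|g^G| χ(g) / χ(1)` reduces to `lam g` for all `g`. -/
def IrrB (lam : G → F) : Set (G → ℂ) :=
  {χ | χ ∈ Irr G ∧ ∀ g, ∃ z : AlgInt, (z : ℂ) * χ 1 = (Nat.card {x : G // IsConj g x} : ℂ) * χ g ∧
    red z = lam g}

/-- `d` is the decomposition matrix of the block with central character `lam`: the restriction of
every `χ ∈ Irr(B)` to the `ℓ`-regular elements is `∑_φ d χ φ • φ`, the sum over `IBr(B)`. -/
def IsDecompositionMatrix [Fintype G] (lam : G → F)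
    (d : ↥(IrrB red lam) → ↥(IBrB (G := G) ℓ red lam) →₀ ℕ) : Prop :=
  ∀ (χ : ↥(IrrB red lam)) (g : Reg ℓ G),
    χ.1 g.1 = (d χ).sum (fun φ m => (m : ℂ) * φ.1 g)

/-- A matrix (rows indexed by `I`, columns by `J`) is unitriangular: there are `n`, pairwise
distinct rows `χ_1, ..., χ_n` and an enumeration `φ_1, ..., φ_n` of all the columns such that the
`n × n` matrix `(d χ_i φ_j)` is lower unitriangular. -/
def Unitriangular {I J : Type} (d : I → J →₀ ℕ) : Prop :=
  ∃ (n : ℕ) (χ : Fin n → I) (φ : Fin n ≃ J), Function.Injective χ ∧
    (∀ i, d (χ i) (φ i) = 1) ∧ ∀ i j, i < j → d (χ i) (φ j) = 0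

end

/-- `G` is quasi-simple: perfect, and simple modulo its centre. -/
def IsQuasisimple (G : Type) [Group G] : Prop :=
  commutator G = ⊤ ∧ IsSimpleGroup (G ⧸ Subgroup.center G)

end Pool.Agent.Helper31.Brauer
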