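import Pool.Agent.Helper31.BrauerDefs

/-!
# Lifting roots of unity, basic facts on Brauer values
-/

set_option linter.unusedSectionVars false

open Module Polynomial

namespace Pool.Agent.Helper31.Brauer

variable {F : Type} [Field F] {ℓ : ℕ} (hℓ : ℓ.Prime) [CharP F ℓ] (red : AlgInt →+* F)

include hℓ in
lemma regular_inj {z z' : AlgInt} (hz : IsRegularRoot ℓ z) (hz' : IsRegularRoot ℓ z')
    (h : red z = red z') : z = z' := by
  obtain ⟨m, hm, hzm⟩ := hz
  obtain ⟨m', hm', hzm'⟩ := hz'
  set n := m * m' with hn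
  have hnl : ¬ ℓ ∣ n := by
    rw [hn, hℓ.dvd_mul]; tauto
  have hn0 : n ≠ 0 := fun h0 => hnl (h0 ▸ dvd_zero ℓ)
  have h1 : z ^ n = 1 := by rw [hn, pow_mul, hzm, one_pow]
  have h2 : z' ^ n = 1 := by rw [hn, mul_comm, pow_mul, hzm', one_pow]
  obtain ⟨k, hk⟩ : ∃ k, n = k + 1 := ⟨n - 1, by omega⟩
  have h3 : z' * z' ^ k = 1 := by rw [← pow_succ', ← hk, h2]
  set y := z * z' ^ k with hy
  have hyn : y ^ n = 1 := by
    rw [hy, mul_pow, h1, one_mul, ← pow_mul, mul_comm, pow_mul, h2, one_pow]
  have hry : red y = 1 := by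
    rw [hy, map_mul, h, ← map_mul, h3, map_one]
  have hy1 : y = 1 := by
    by_contra hne
    have hg : (∑ i ∈ Finset.range n, y ^ i) * (y - 1) = 0 := by
      rw [geom_sum_mul, hyn, sub_self]
    have hs := (mul_eq_zero.1 hg).resolve_right (sub_ne_zero.2 hne)
    have := congrArg red hs
    rw [map_sum, map_zero] at this
    simp only [map_pow, hry, one_pow, Finset.sum_const, Finset.card_range, nsmul_eq_mul,
      mul_one] at this
    exact hnl ((CharP.cast_eq_zero_iff F ℓ n).1 this)
  calc z = z * (z' * z' ^ k) := by rw [h3, mul_one]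
    _ = z' * y := by rw [hy]; ring
    _ = z' := by rw [hy1, mul_one]

include hℓ in
lemma lift_red {z : AlgInt} (hz : IsRegularRoot ℓ z) : lift ℓ red (red z) = (z : ℂ) := by
  have hex : ∃ y : AlgInt, IsRegularRoot ℓ y ∧ red y = red z := ⟨z, hz, rfl⟩
  unfold lift
  rw [dif_pos hex]
  congr 1
  exact regular_inj hℓ red hex.choose_spec.1 hz hex.choose_spec.2

include hℓ in
lemma lift_one : lift ℓ red 1 = 1 := by
  have h1 : IsRegularRoot ℓ (1 : AlgInt) := ⟨1, by
    intro h; exact hℓ.one_lt.ne' (Nat.dvd_one.1 h), one_pow 1⟩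
  have := lift_red hℓ red h1
  rw [map_one] at this
  rw [this]; rfl

/-- roots of unity lift -/
lemma exists_root {n : ℕ} (hn : n ≠ 0) {x : F} (hx : x ^ n = 1) :
    ∃ z : AlgInt, z ^ n = 1 ∧ red z = x := by
  have hprim := Complex.isPrimitiveRoot_exp n hn
  have hint : IsIntegral ℤ (Complex.exp (2 * Real.pi * Complex.I / n)) :=
    hprim.isIntegral (Nat.pos_of_ne_zero hn)
  set ω : AlgInt := ⟨_, hint⟩ with hω
  have hω' : IsPrimitiveRoot ω n := by
    refine IsPrimitiveRoot.of_map_of_injective (f := (integralClosure ℤ ℂ).val) ?_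
      Subtype.val_injective
    exact hprim
  have h := X_pow_sub_one_eq_prod (R := AlgInt) (Nat.pos_of_ne_zero hn) hω'
  have h2 := congrArg (fun p => Polynomial.eval x (p.map red)) h
  simp only [Polynomial.map_sub, Polynomial.map_pow, Polynomial.map_X, Polynomial.map_one,
    Polynomial.map_prod, Polynomial.map_C, Polynomial.eval_sub, Polynomial.eval_pow,
    Polynomial.eval_X, Polynomial.eval_one, Polynomial.eval_prod, Polynomial.eval_C, hx,
    sub_self] at h2
  obtain ⟨z, hz, hz0⟩ := Finset.prod_eq_zero_iff.1 h2.symm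
  refine ⟨z, ?_, (sub_eq_zero.1 hz0).symm⟩
  exact (Polynomial.mem_nthRootsFinset (Nat.pos_of_ne_zero hn) _).1 hz

/-- `F` is algebraically closed. -/
lemma isAlgClosed (hred : Function.Surjective red) : IsAlgClosed F := by
  apply IsAlgClosed.of_exists_root
  intro p hp hirr
  obtain ⟨q, hq, hdeg, hqm⟩ := Polynomial.lifts_and_degree_eq_and_monic
    (f := red) (p := p) (by
      rw [Polynomial.lifts_iff_coeff_lifts]
      intro n
      exact hred _) hp
  have hdp : p.degree ≠ 0 := by
    have := hirr.natDegree_pos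
    intro h0
    rw [Polynomial.natDegree_eq_of_degree_eq_some h0] at this
    exact lt_irrefl _ this
  have hqdeg : (q.map (algebraMap AlgInt ℂ)).degree ≠ 0 := by
    rw [Polynomial.degree_map_eq_of_injective Subtype.val_injective, hdeg]
    exact hdp
  obtain ⟨z, hz⟩ := IsAlgClosed.exists_root _ hqdeg
  have hzint : IsIntegral AlgInt z := ⟨q, hqm, by
    rw [Polynomial.IsRoot.def, Polynomial.eval_map] at hz
    exact hz⟩
  have hzZ : IsIntegral ℤ z := isIntegral_trans (A := AlgInt) z hzint
  refine ⟨red ⟨z, hzZ⟩, ?_⟩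
  have h1 : Polynomial.eval (⟨z, hzZ⟩ : AlgInt) q = 0 := by
    apply Subtype.val_injective
    rw [Polynomial.IsRoot.def, Polynomial.eval_map] at hz
    have h2 : Polynomial.eval₂ (algebraMap AlgInt ℂ) ((algebraMap AlgInt ℂ) (⟨z, hzZ⟩ : AlgInt)) q =
      (algebraMap AlgInt ℂ) (Polynomial.eval (⟨z, hzZ⟩ : AlgInt) q) := by
      rw [Polynomial.eval₂_at_apply]
    have h3 : (algebraMap AlgInt ℂ) (⟨z, hzZ⟩ : AlgInt) = z := rfl
    rw [h3, hz] at h2
    exact h2.symm
  rw [← hq, Polynomial.eval_map, Polynomial.eval₂_at_apply, h1, map_zero]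

variable {G : Type} [Group G] {V : Type} [AddCommGroup V] [Module F V] [FiniteDimensional F V]
  (ρ : Representation F G V)

lemma brauerValue_of_basis {I : Type} [Fintype I] [DecidableEq I] (b : Basis I F V) (g : G)
    (d : I → F) (hd : ∀ i, ρ g (b i) = d i • b i) :
    brauerValue ℓ red ρ g = ∑ i, lift ℓ red (d i) := by
  unfold brauerValue
  have h1 : LinearMap.toMatrix b b (ρ g) = Matrix.diagonal d := by
    ext i j
    rw [LinearMap.toMatrix_apply, hd, map_smul, Finsupp.smul_apply, Basis.repr_self,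
      Finsupp.single_apply, Matrix.diagonal_apply]
    by_cases h : i = j
    · subst h; simp
    · simp [h, Ne.symm h]
  rw [← LinearMap.charpoly_toMatrix (ρ g) b, h1, Matrix.charpoly_diagonal]
  have h2 : (∏ i, (X - C (d i))) = ((Finset.univ.val.map d).map (fun a => X - C a)).prod := by
    rw [Multiset.map_map]; rfl
  rw [h2, Polynomial.roots_multiset_prod_X_sub_C, Multiset.map_map]
  rfl

include hℓ in
lemma brauerValue_one : brauerValue ℓ red ρ 1 = finrank F V := by
  rw [brauerValue_of_basis red ρ (finBasis F V) 1 (fun _ => 1) (fun i => by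
    rw [map_one, one_smul]; rfl)]
  rw [lift_one hℓ red]
  simp

end Pool.Agent.Helper31.Brauer
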