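import Pool.Agent.Helper31.GSFree

/-!
# Golod-Shafarevich, part 2: dimension count
-/

open Polynomial

namespace Pool.Agent.Helper31.GS

/-- index set of relations in each degree -/
abbrev Idx : Type := Fin 3 × Fin 3

/-- homogeneous part of degree `n` of the ideal generated by the relations `ρ k j` (of degree `k`) -/
noncomputable def Jn (ρ : ℕ → Idx → T) : ℕ → Submodule F T
  | 0 => ⊥
  | n + 1 => ((Jn ρ n).prod (Jn ρ n)).map Λ ⊔
      (Finset.range (n + 1)).sup fun m => (Finset.univ : Finset Idx).sup fun j =>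
        (Tn m).map (LinearMap.mulLeft F (ρ (n + 1 - m) j))

section
variable {ρ : ℕ → Idx → T}

lemma x_mul_mem_Jn (i : Fin 2) {n : ℕ} {t : T} (ht : t ∈ Jn ρ n) : x i * t ∈ Jn ρ (n + 1) :=
  Submodule.mem_sup_left (x_mul_mem_map i ht)

lemma rel_mul_mem_Jn (n m : ℕ) (hm : m < n + 1) (j : Idx) {t : T} (ht : t ∈ Tn m) :
    ρ (n + 1 - m) j * t ∈ Jn ρ (n + 1) := by
  refine Submodule.mem_sup_right ?_
  have h1 : (Finset.univ : Finset Idx).sup (fun j =>
        (Tn m).map (LinearMap.mulLeft F (ρ (n + 1 - m) j))) ≤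
      (Finset.range (n + 1)).sup fun m => (Finset.univ : Finset Idx).sup fun j =>
        (Tn m).map (LinearMap.mulLeft F (ρ (n + 1 - m) j)) :=
    Finset.le_sup (f := fun m => (Finset.univ : Finset Idx).sup fun j =>
        (Tn m).map (LinearMap.mulLeft F (ρ (n + 1 - m) j))) (Finset.mem_range.mpr hm)
  have h2 : (Tn m).map (LinearMap.mulLeft F (ρ (n + 1 - m) j)) ≤ (Finset.univ : Finset Idx).sup
      (fun j => (Tn m).map (LinearMap.mulLeft F (ρ (n + 1 - m) j))) :=
    Finset.le_sup (f := fun j => (Tn m).map (LinearMap.mulLeft F (ρ (n + 1 - m) j)))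
      (Finset.mem_univ j)
  exact h1 (h2 ⟨t, ht, rfl⟩)

lemma Jn_le (hρ : ∀ k j, ρ k j ∈ Tn k) (n : ℕ) : Jn ρ n ≤ Tn n := by
  induction n with
  | zero => exact bot_le
  | succ n ih =>
    refine sup_le (Submodule.map_mono (Submodule.prod_mono ih ih)) ?_
    refine Finset.sup_le fun m hm => Finset.sup_le fun j _ => ?_
    rintro _ ⟨t, ht, rfl⟩
    have := mul_mem_Tn (n + 1 - m) m _ _ (hρ (n + 1 - m) j) ht
    rw [Nat.sub_add_cancel (Finset.mem_range.mp hm).le] at this
    exact this

lemma Tn_mul_mem_Jn (a : ℕ) : ∀ (m : ℕ) (s t : T), s ∈ Tn a → t ∈ Jn ρ m → s * t ∈ Jn ρ (a + m) := by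
  induction a with
  | zero =>
    intro m s t hs ht
    obtain ⟨c, rfl⟩ := Submodule.mem_span_singleton.mp hs
    rw [smul_mul_assoc, one_mul, zero_add]
    exact Submodule.smul_mem _ _ ht
  | succ a ih =>
    rintro m s t ⟨⟨u, v⟩, ⟨hu, hv⟩, rfl⟩ ht
    rw [Λ_apply, add_mul, mul_assoc, mul_assoc]
    have e : a + 1 + m = (a + m) + 1 := by omega
    rw [e]
    exact Submodule.add_mem _ (x_mul_mem_Jn 0 (ih _ _ _ hu ht)) (x_mul_mem_Jn 1 (ih _ _ _ hv ht))

lemma mul_x_mem_Jn (i : Fin 2) (n : ℕ) : ∀ t : T, t ∈ Jn ρ n → t * x i ∈ Jn ρ (n + 1) := by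
  induction n with
  | zero =>
    intro t ht
    have : t = 0 := ht
    rw [this, zero_mul]; exact Submodule.zero_mem _
  | succ n ih =>
    -- the preimage of `Jn (n+2)` under right multiplication
    have key : Jn ρ (n + 1) ≤ (Jn ρ (n + 1 + 1)).comap (LinearMap.mulRight F (x i)) := by
      refine sup_le ?_ ?_
      · rintro _ ⟨⟨u, v⟩, ⟨hu, hv⟩, rfl⟩
        change Λ (u, v) * x i ∈ Jn ρ (n + 1 + 1)
        rw [Λ_apply, add_mul, mul_assoc, mul_assoc]
        exact Submodule.add_mem _ (x_mul_mem_Jn 0 (ih _ hu)) (x_mul_mem_Jn 1 (ih _ hv))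
      · refine Finset.sup_le fun m hm => Finset.sup_le fun j _ => ?_
        rintro _ ⟨t, ht, rfl⟩
        change (ρ (n + 1 - m) j * t) * x i ∈ Jn ρ (n + 1 + 1)
        rw [mul_assoc]
        have hm' := Finset.mem_range.mp hm
        have h := rel_mul_mem_Jn (ρ := ρ) (n + 1) (m + 1) (by omega) j (mul_x_mem_Tn i ht)
        have e : n + 1 + 1 - (m + 1) = n + 1 - m := by omega
        rw [e] at h
        exact h
    intro t ht
    exact key ht

lemma rel_mem_Jn (n : ℕ) (j : Idx) : ρ (n + 1) j ∈ Jn ρ (n + 1) := by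
  have := rel_mul_mem_Jn (ρ := ρ) n 0 (Nat.succ_pos n) j one_mem_Tn
  rwa [mul_one, Nat.sub_zero] at this

end

/-! ### dimension count -/

instance finite_Tn (n : ℕ) : Module.Finite F (Tn n) := by
  induction n with
  | zero => exact Module.Finite.of_fg ⟨{1}, by simp [Tn]⟩
  | succ n ih =>
    have h1 : (Tn n).FG := Module.Finite.iff_fg.mp ih
    exact Module.Finite.of_fg ((h1.prod h1).map Λ)

/-- `p.prod q ≃ p × q` -/
def prodEquiv (p q : Submodule F T) : (p.prod q) ≃ₗ[F] (p × q) where
  toFun z := (⟨z.1.1, z.2.1⟩, ⟨z.1.2, z.2.2⟩)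
  invFun z := ⟨(z.1.1, z.2.1), ⟨z.1.2, z.2.2⟩⟩
  left_inv _ := rfl
  right_inv _ := rfl
  map_add' _ _ := rfl
  map_smul' _ _ := rfl

lemma finrank_map_Λ (p : Submodule F T) [Module.Finite F p] :
    Module.finrank F ((p.prod p).map Λ) = 2 * Module.finrank F p := by
  rw [← (Submodule.equivMapOfInjective Λ Λ_injective (p.prod p)).finrank_eq,
    (prodEquiv p p).finrank_eq, Module.finrank_prod, two_mul]

lemma finrank_Tn_succ (n : ℕ) : Module.finrank F (Tn (n + 1)) = 2 * Module.finrank F (Tn n) :=
  finrank_map_Λ (Tn n)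

lemma finrank_Tn_zero : Module.finrank F (Tn 0) = 1 :=
  finrank_span_singleton one_ne_zero

lemma finrank_sup_le' (p q : Submodule F T) [Module.Finite F p] [Module.Finite F q] :
    Module.finrank F (p ⊔ q : Submodule F T) ≤ Module.finrank F p + Module.finrank F q :=
  Submodule.finrank_add_le_finrank_add_finrank p q

lemma fg_finset_sup {ι : Type*} (s : Finset ι) (U : ι → Submodule F T)
    (hU : ∀ i, (U i).FG) : (s.sup U).FG := by
  classical
  induction s using Finset.induction_on with
  | empty => rw [Finset.sup_empty]; exact Submodule.fg_bot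
  | insert a s _ ih => rw [Finset.sup_insert]; exact (hU a).sup ih

lemma finrank_finset_sup_le {ι : Type*} (s : Finset ι) (U : ι → Submodule F T)
    (hU : ∀ i, (U i).FG) :
    Module.finrank F (s.sup U : Submodule F T) ≤ ∑ i ∈ s, Module.finrank F (U i) := by
  classical
  induction s using Finset.induction_on with
  | empty => rw [Finset.sup_empty, Finset.sum_empty, finrank_bot]
  | insert a s ha ih =>
    rw [Finset.sup_insert, Finset.sum_insert ha]
    have : Module.Finite F (U a) := Module.Finite.of_fg (hU a)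
    have : Module.Finite F (s.sup U : Submodule F T) := Module.Finite.of_fg (fg_finset_sup s U hU)
    exact (finrank_sup_le' _ _).trans (Nat.add_le_add_left ih _)

/-- relative complement -/
lemma exists_compl (p q : Submodule F T) (h : p ≤ q) [Module.Finite F q] :
    ∃ r : Submodule F T, p ⊔ r = q ∧ r.FG ∧
      Module.finrank F r + Module.finrank F p = Module.finrank F q := by
  obtain ⟨c, hc⟩ := Submodule.exists_isCompl p
  refine ⟨c ⊓ q, ?_, ?_, ?_⟩
  · rw [← sup_inf_assoc_of_le c h, hc.sup_eq_top, top_inf_eq]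
  · have : Module.Finite F (c ⊓ q : Submodule F T) :=
      Submodule.finiteDimensional_of_le (inf_le_right : c ⊓ q ≤ q)
    exact Module.Finite.iff_fg.mp this
  · have : Module.Finite F p := Submodule.finiteDimensional_of_le h
    have : Module.Finite F (c ⊓ q : Submodule F T) :=
      Submodule.finiteDimensional_of_le (inf_le_right : c ⊓ q ≤ q)
    have h1 := Submodule.finrank_sup_add_finrank_inf_eq p (c ⊓ q)
    have h2 : p ⊔ (c ⊓ q) = q := by
      rw [← sup_inf_assoc_of_le c h, hc.sup_eq_top, top_inf_eq]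
    have h3 : p ⊓ (c ⊓ q) = ⊥ := by
      rw [← inf_assoc, hc.inf_eq_bot, bot_inf_eq]
    rw [h2, h3, finrank_bot] at h1
    omega

section
variable {ρ : ℕ → Idx → T}

/-- codimension of `Jn` in `Tn` -/
noncomputable def cod (ρ : ℕ → Idx → T) (n : ℕ) : ℕ :=
  Module.finrank F (Tn n) - Module.finrank F (Jn ρ n)

lemma finrank_Jn_le (hρ : ∀ k j, ρ k j ∈ Tn k) (n : ℕ) :
    Module.finrank F (Jn ρ n) ≤ Module.finrank F (Tn n) :=
  Submodule.finrank_mono (Jn_le hρ n)

lemma key_ineq (hρ : ∀ k j, ρ k j ∈ Tn k) (hρ0 : ∀ k j, k < 11 → ρ k j = 0) (n : ℕ) :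
    Module.finrank F (Jn ρ (n + 1)) ≤ 2 * Module.finrank F (Jn ρ n)
      + 9 * ∑ m ∈ Finset.range (n - 9), cod ρ m := by
  classical
  have hfin : ∀ m, Module.Finite F (Jn ρ m) := fun m =>
    Submodule.finiteDimensional_of_le (Jn_le hρ m)
  choose S hS hSfg hSdim using fun m => exists_compl (Jn ρ m) (Tn m) (Jn_le hρ m)
  have hScod : ∀ m, Module.finrank F (S m) = cod ρ m := by
    intro m
    have := hSdim m
    rw [cod]; omega
  set A : Submodule F T := ((Jn ρ n).prod (Jn ρ n)).map Λ with hA
  set B : Submodule F T := (Finset.range (n - 9)).sup fun m =>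
    (Finset.univ : Finset Idx).sup fun j => (S m).map (LinearMap.mulLeft F (ρ (n + 1 - m) j)) with hB
  have hle : Jn ρ (n + 1) ≤ A ⊔ B := by
    refine sup_le le_sup_left ?_
    refine Finset.sup_le fun m hm => Finset.sup_le fun j _ => ?_
    have hm' := Finset.mem_range.mp hm
    rw [← hS m, Submodule.map_sup]
    by_cases hlt : m < n - 9
    · refine sup_le ?_ ?_
      · refine le_trans ?_ le_sup_left
        rintro _ ⟨t, ht, rfl⟩
        change ρ (n + 1 - m) j * t ∈ A
        have h1 := hρ (n + 1 - m) j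
        have e : n + 1 - m = (n - m) + 1 := by omega
        rw [e] at h1 ⊢
        obtain ⟨⟨u, v⟩, ⟨hu, hv⟩, huv⟩ := h1
        rw [← huv, Λ_apply, add_mul, mul_assoc, mul_assoc]
        have e2 : (n - m) + m = n := by omega
        refine Submodule.add_mem _ (x_mul_mem_map 0 ?_) (x_mul_mem_map 1 ?_)
        · have := Tn_mul_mem_Jn (ρ := ρ) (n - m) m _ _ hu ht
          rwa [e2] at this
        · have := Tn_mul_mem_Jn (ρ := ρ) (n - m) m _ _ hv ht
          rwa [e2] at this
      · refine le_trans ?_ le_sup_right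
        have h1 : (Finset.univ : Finset Idx).sup (fun j =>
              (S m).map (LinearMap.mulLeft F (ρ (n + 1 - m) j))) ≤ B :=
          Finset.le_sup (f := fun m => (Finset.univ : Finset Idx).sup fun j =>
              (S m).map (LinearMap.mulLeft F (ρ (n + 1 - m) j))) (Finset.mem_range.mpr hlt)
        have h2 : (S m).map (LinearMap.mulLeft F (ρ (n + 1 - m) j)) ≤ (Finset.univ : Finset Idx).sup
            (fun j => (S m).map (LinearMap.mulLeft F (ρ (n + 1 - m) j))) :=
          Finset.le_sup (f := fun j => (S m).map (LinearMap.mulLeft F (ρ (n + 1 - m) j)))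
            (Finset.mem_univ j)
        exact h2.trans h1
    · have h0 : ρ (n + 1 - m) j = 0 := hρ0 _ _ (by omega)
      rw [h0]
      refine sup_le ?_ ?_ <;>
      · rintro _ ⟨t, ht, rfl⟩
        change 0 * t ∈ A ⊔ B
        rw [zero_mul]; exact Submodule.zero_mem _
  have hSmap : ∀ m j, ((S m).map (LinearMap.mulLeft F (ρ (n + 1 - m) j))).FG :=
    fun m j => (hSfg m).map _
  have hBfg : B.FG := fg_finset_sup _ _ fun m => fg_finset_sup _ _ fun j => hSmap m j
  have : Module.Finite F A := by
    have h1 : (Jn ρ n).FG := Module.Finite.iff_fg.mp (hfin n)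
    exact Module.Finite.of_fg ((h1.prod h1).map Λ)
  have : Module.Finite F B := Module.Finite.of_fg hBfg
  have := hfin n
  have hAB : Module.finrank F (Jn ρ (n + 1)) ≤ Module.finrank F A + Module.finrank F B := by
    have : Module.Finite F (A ⊔ B : Submodule F T) :=
      Module.Finite.of_fg ((Module.Finite.iff_fg.mp ‹Module.Finite F A›).sup hBfg)
    exact (Submodule.finrank_mono hle).trans (finrank_sup_le' A B)
  have hAr : Module.finrank F A = 2 * Module.finrank F (Jn ρ n) := finrank_map_Λ _
  have hBr : Module.finrank F B ≤ 9 * ∑ m ∈ Finset.range (n - 9), cod ρ m := by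
    refine (finrank_finset_sup_le _ _ fun m => fg_finset_sup _ _ fun j => hSmap m j).trans ?_
    rw [Finset.mul_sum]
    refine Finset.sum_le_sum fun m _ => ?_
    refine (finrank_finset_sup_le _ _ fun j => hSmap m j).trans ?_
    have h9 : ∀ j ∈ (Finset.univ : Finset Idx),
        Module.finrank F ((S m).map (LinearMap.mulLeft F (ρ (n + 1 - m) j))) ≤ cod ρ m := by
      intro j _
      have : Module.Finite F (S m) := Module.Finite.of_fg (hSfg m)
      rw [← hScod m]
      exact Submodule.finrank_map_le _ _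
    refine (Finset.sum_le_sum h9).trans ?_
    simp
  omega

lemma cod_step (hρ : ∀ k j, ρ k j ∈ Tn k) (hρ0 : ∀ k j, k < 11 → ρ k j = 0) (n : ℕ) :
    2 * cod ρ n ≤ cod ρ (n + 1) + 9 * ∑ m ∈ Finset.range (n - 9), cod ρ m := by
  have h1 := key_ineq hρ hρ0 n
  have h2 := finrank_Jn_le hρ n
  have h3 := finrank_Jn_le hρ (n + 1)
  have h4 := finrank_Tn_succ n
  simp only [cod] at h1 ⊢
  omega

/-- pure arithmetic: the Golod-Shafarevich recursion forces growth -/
lemma growth (a : ℕ → ℕ) (ha : ∀ n, 2 * a n ≤ a (n + 1) + 9 * ∑ m ∈ Finset.range (n - 9), a m) :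
    ∀ n, 3 * a n ≤ 2 * a (n + 1) := by
  intro n
  induction n using Nat.strong_induction_on with
  | _ n ih =>
    -- partial sums
    have hsum : ∀ m, m ≤ n → ∑ i ∈ Finset.range (m + 1), a i ≤ 3 * a m := by
      intro m
      induction m with
      | zero => intro _; simp; omega
      | succ m ihm =>
        intro hm
        rw [Finset.sum_range_succ]
        have h1 := ihm (by omega)
        have h2 := ih m (by omega)
        omega
    have hn := ha n
    by_cases h10 : 10 ≤ n
    · obtain ⟨m, rfl⟩ : ∃ m, n = m + 10 := ⟨n - 10, by omega⟩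
      have e : m + 10 - 9 = m + 1 := by omega
      rw [e] at hn
      have hs := hsum m (by omega)
      have g0 := ih m (by omega)
      have g1 := ih (m + 1) (by omega)
      have g2 := ih (m + 2) (by omega)
      have g3 := ih (m + 3) (by omega)
      have g4 := ih (m + 4) (by omega)
      have g5 := ih (m + 5) (by omega)
      have g6 := ih (m + 6) (by omega)
      have g7 := ih (m + 7) (by omega)
      have g8 := ih (m + 8) (by omega)
      have g9 := ih (m + 9) (by omega)
      simp only [add_assoc] at *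
      norm_num at *
      omega
    · have e : n - 9 = 0 := by omega
      rw [e] at hn
      simp at hn
      omega

lemma cod_pos (hρ : ∀ k j, ρ k j ∈ Tn k) (hρ0 : ∀ k j, k < 11 → ρ k j = 0) (n : ℕ) :
    0 < cod ρ n := by
  induction n with
  | zero =>
    rw [cod, finrank_Tn_zero]
    have : Module.finrank F (Jn ρ 0) = 0 := by
      rw [Jn]; exact finrank_bot F T
    omega
  | succ n ih =>
    have := growth (cod ρ) (cod_step hρ hρ0) n
    omega

/-- the word attached to a list of letters -/
noncomputable def word (l : List (Fin 2)) : T := (l.map x).prod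

lemma word_mem (l : List (Fin 2)) : word l ∈ Tn l.length := by
  induction l with
  | nil => exact one_mem_Tn
  | cons a l ih =>
    rw [word, List.map_cons, List.prod_cons]
    exact x_mul_mem_Tn a ih

lemma exists_word_notMem (hρ : ∀ k j, ρ k j ∈ Tn k) (hρ0 : ∀ k j, k < 11 → ρ k j = 0) (n : ℕ) :
    ∃ l : List (Fin 2), l.length = n ∧ word l ∉ Jn ρ n := by
  by_contra hcon
  push Not at hcon
  have hspan : ∀ n, Tn n ≤ Submodule.span F {t | ∃ l : List (Fin 2), l.length = n ∧ word l = t} := by
    intro n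
    induction n with
    | zero =>
      refine Submodule.span_mono ?_
      rintro _ rfl
      exact ⟨[], rfl, rfl⟩
    | succ n ih =>
      rintro _ ⟨⟨u, v⟩, ⟨hu, hv⟩, rfl⟩
      have hx : ∀ (i : Fin 2) (t : T), t ∈ Tn n → x i * t ∈
          Submodule.span F {t | ∃ l : List (Fin 2), l.length = n + 1 ∧ word l = t} := by
        intro i t ht
        have h1 := ih ht
        have h2 : Submodule.span F {t | ∃ l : List (Fin 2), l.length = n ∧ word l = t} ≤
            (Submodule.span F {t | ∃ l : List (Fin 2), l.length = n + 1 ∧ word l = t}).comap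
              (LinearMap.mulLeft F (x i)) := by
          refine Submodule.span_le.mpr ?_
          rintro _ ⟨l, hl, rfl⟩
          refine Submodule.subset_span ⟨i :: l, by simp [hl], ?_⟩
          rw [word, List.map_cons, List.prod_cons]; rfl
        exact h2 h1
      rw [Λ_apply]
      exact Submodule.add_mem _ (hx 0 u hu) (hx 1 v hv)
  have hle : Tn n ≤ Jn ρ n := by
    refine (hspan n).trans (Submodule.span_le.mpr ?_)
    rintro _ ⟨l, hl, rfl⟩
    exact hcon l hl
  have h1 := cod_pos hρ hρ0 n
  rw [cod] at h1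
  have h2 : Jn ρ n = Tn n := le_antisymm (Jn_le hρ n) hle
  rw [h2] at h1
  omega

end

end Pool.Agent.Helper31.GS
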