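import Mathlib

/-!
# Golod-Shafarevich, part 1: the free algebra on two letters over `ZMod 11` and its grading
-/

open Polynomial

namespace Pool.Agent.Helper31.GS

instance fact11 : Fact (Nat.Prime 11) := ⟨by norm_num⟩

/-- the ground field -/
abbrev F : Type := ZMod 11

/-- the free algebra on two letters -/
abbrev T : Type := FreeAlgebra F (Fin 2)

/-- the two letters -/
noncomputable def x (i : Fin 2) : T := FreeAlgebra.ι F i

/-- the grading homomorphism `x_i ↦ x_i z` -/
noncomputable def θ : T →ₐ[F] Polynomial T := FreeAlgebra.lift F (fun i => C (x i) * X)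

/-- the homogeneous component of degree `n` -/
noncomputable def π (n : ℕ) : T →ₗ[F] T where
  toFun t := (θ t).coeff n
  map_add' a b := by rw [map_add, coeff_add]
  map_smul' c a := by rw [map_smul, coeff_smul, RingHom.id_apply]

lemma π_apply (n : ℕ) (t : T) : π n t = (θ t).coeff n := rfl

lemma θ_x (i : Fin 2) : θ (x i) = C (x i) * X := by
  rw [θ, x, FreeAlgebra.lift_ι_apply]
  rfl

lemma π_x_mul_succ (i : Fin 2) (t : T) (n : ℕ) : π (n + 1) (x i * t) = x i * π n t := by
  rw [π_apply, π_apply, map_mul, θ_x, mul_assoc, coeff_C_mul, coeff_X_mul]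

lemma π_x_mul_zero (i : Fin 2) (t : T) : π 0 (x i * t) = 0 := by
  rw [π_apply, map_mul, θ_x, mul_assoc, coeff_C_mul, coeff_X_mul_zero, mul_zero]

lemma π_mul_x_succ (i : Fin 2) (t : T) (n : ℕ) : π (n + 1) (t * x i) = π n t * x i := by
  rw [π_apply, π_apply, map_mul, θ_x, ← mul_assoc, coeff_mul_X, coeff_mul_C]

lemma π_mul_x_zero (i : Fin 2) (t : T) : π 0 (t * x i) = 0 := by
  rw [π_apply, map_mul, θ_x, ← mul_assoc, coeff_mul_X_zero]

lemma π_one (n : ℕ) : π n 1 = if n = 0 then 1 else 0 := by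
  rw [π_apply, map_one, coeff_one]

/-- Fox derivative matrix -/
noncomputable def fox (i : Fin 2) : T →ₐ[F] Matrix (Fin 2) (Fin 2) T :=
  FreeAlgebra.lift F (fun j => !![0, if i = j then 1 else 0; 0, x j])

lemma fox_x (i j : Fin 2) : fox i (x j) = !![0, if i = j then 1 else 0; 0, x j] := by
  rw [fox, x, FreeAlgebra.lift_ι_apply]
  rfl

lemma fox_11 (i : Fin 2) (t : T) : fox i t 1 1 = t ∧ fox i t 1 0 = 0 := by
  induction t using FreeAlgebra.induction with
  | grade0 r =>
    rw [AlgHom.commutes, Matrix.algebraMap_matrix_apply, Matrix.algebraMap_matrix_apply]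
    simp
  | grade1 j =>
    have := fox_x i j
    rw [x] at this
    rw [this]
    simp
  | mul a b ha hb =>
    rw [map_mul, Matrix.mul_apply, Matrix.mul_apply, Fin.sum_univ_two, Fin.sum_univ_two, ha.1, ha.2,
      hb.1, hb.2]
    simp
  | add a b ha hb =>
    rw [map_add, Matrix.add_apply, Matrix.add_apply, ha.1, ha.2, hb.1, hb.2]
    simp

lemma fox_x_mul (i j : Fin 2) (t : T) : fox i (x j * t) 0 1 = if i = j then t else 0 := by
  rw [map_mul, fox_x, Matrix.mul_apply, Fin.sum_univ_two, (fox_11 i t).1]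
  split_ifs <;> simp

/-- `Λ (a, b) = x_0 a + x_1 b` -/
noncomputable def Λ : (T × T) →ₗ[F] T :=
  (LinearMap.mulLeft F (x 0)).coprod (LinearMap.mulLeft F (x 1))

lemma Λ_apply (a b : T) : Λ (a, b) = x 0 * a + x 1 * b := rfl

lemma Λ_injective : Function.Injective Λ := by
  rw [← LinearMap.ker_eq_bot, LinearMap.ker_eq_bot']
  rintro ⟨a, b⟩ h
  rw [Λ_apply] at h
  have h0 := congrArg (fun t => fox 0 t 0 1) h
  have h1 := congrArg (fun t => fox 1 t 0 1) h
  simp only [map_add, Matrix.add_apply, fox_x_mul, map_zero, Matrix.zero_apply] at h0 h1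
  simp at h0 h1
  rw [h0, h1]; rfl

/-- homogeneous part of degree `n` of the free algebra -/
noncomputable def Tn : ℕ → Submodule F T
  | 0 => Submodule.span F {1}
  | n + 1 => ((Tn n).prod (Tn n)).map Λ

lemma x_mul_mem_map {U : Submodule F T} (i : Fin 2) {t : T} (ht : t ∈ U) :
    x i * t ∈ (U.prod U).map Λ := by
  fin_cases i
  · refine ⟨(t, 0), ⟨ht, U.zero_mem⟩, ?_⟩
    rw [Λ_apply]; simp
  · refine ⟨(0, t), ⟨U.zero_mem, ht⟩, ?_⟩
    rw [Λ_apply]; simp

lemma x_mul_mem_Tn (i : Fin 2) {n : ℕ} {t : T} (ht : t ∈ Tn n) : x i * t ∈ Tn (n + 1) :=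
  x_mul_mem_map i ht

lemma one_mem_Tn : (1 : T) ∈ Tn 0 := Submodule.mem_span_singleton_self 1

lemma mul_x_mem_Tn (i : Fin 2) {n : ℕ} : ∀ {t : T}, t ∈ Tn n → t * x i ∈ Tn (n + 1) := by
  induction n with
  | zero =>
    intro t ht
    obtain ⟨c, rfl⟩ := Submodule.mem_span_singleton.mp ht
    rw [smul_mul_assoc, one_mul]
    refine Submodule.smul_mem _ _ ?_
    have := x_mul_mem_Tn i one_mem_Tn
    rwa [mul_one] at this
  | succ n ih =>
    rintro t ⟨⟨a, b⟩, ⟨ha, hb⟩, rfl⟩
    rw [Λ_apply, add_mul, mul_assoc, mul_assoc]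
    exact Submodule.add_mem _ (x_mul_mem_Tn 0 (ih ha)) (x_mul_mem_Tn 1 (ih hb))

lemma π_mem_Tn (t : T) : ∀ n, π n t ∈ Tn n := by
  induction t using FreeAlgebra.induction with
  | grade0 r =>
    intro n
    have : (algebraMap F T r) = r • (1 : T) := Algebra.algebraMap_eq_smul_one r
    rw [this, map_smul, π_one]
    split_ifs with h
    · subst h; exact Submodule.smul_mem _ _ one_mem_Tn
    · rw [smul_zero]; exact Submodule.zero_mem _
  | grade1 j =>
    intro n
    have : FreeAlgebra.ι F j = x j * 1 := by rw [mul_one]; rfl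
    rw [this]
    cases n with
    | zero => rw [π_x_mul_zero]; exact Submodule.zero_mem _
    | succ n =>
      rw [π_x_mul_succ, π_one]
      split_ifs with h
      · subst h; exact x_mul_mem_Tn j one_mem_Tn
      · rw [mul_zero]; exact Submodule.zero_mem _
  | mul a b ha hb =>
    intro n
    rw [π_apply, map_mul, coeff_mul]
    refine Submodule.sum_mem _ fun p hp => ?_
    have hmul : ∀ (k l : ℕ) (s t : T), s ∈ Tn k → t ∈ Tn l → s * t ∈ Tn (k + l) := by
      intro k
      induction k with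
      | zero =>
        intro l s t hs ht
        obtain ⟨c, rfl⟩ := Submodule.mem_span_singleton.mp hs
        rw [smul_mul_assoc, one_mul, zero_add]
        exact Submodule.smul_mem _ _ ht
      | succ k ih =>
        rintro l s t ⟨⟨a, b⟩, ⟨ha, hb⟩, rfl⟩ ht
        rw [Λ_apply, add_mul, mul_assoc, mul_assoc]
        have e : k + 1 + l = (k + l) + 1 := by omega
        rw [e]
        exact Submodule.add_mem _ (x_mul_mem_Tn 0 (ih l _ _ ha ht)) (x_mul_mem_Tn 1 (ih l _ _ hb ht))
    rw [← Finset.HasAntidiagonal.mem_antidiagonal.mp hp]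
    exact hmul _ _ _ _ (ha p.1) (hb p.2)
  | add a b ha hb =>
    intro n
    rw [map_add]; exact Submodule.add_mem _ (ha n) (hb n)

lemma mul_mem_Tn (k l : ℕ) (s t : T) (hs : s ∈ Tn k) (ht : t ∈ Tn l) : s * t ∈ Tn (k + l) := by
  induction k generalizing s with
  | zero =>
    obtain ⟨c, rfl⟩ := Submodule.mem_span_singleton.mp hs
    rw [smul_mul_assoc, one_mul, zero_add]
    exact Submodule.smul_mem _ _ ht
  | succ k ih =>
    obtain ⟨⟨a, b⟩, ⟨ha, hb⟩, rfl⟩ := hs
    rw [Λ_apply, add_mul, mul_assoc, mul_assoc]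
    have e : k + 1 + l = (k + l) + 1 := by omega
    rw [e]
    exact Submodule.add_mem _ (x_mul_mem_Tn 0 (ih _ ha)) (x_mul_mem_Tn 1 (ih _ hb))

/-- elements of `Tn n` are homogeneous of degree `n` -/
lemma θ_of_mem_Tn : ∀ (n : ℕ) (t : T), t ∈ Tn n → θ t = C t * X ^ n := by
  intro n
  induction n with
  | zero =>
    intro t ht
    obtain ⟨c, rfl⟩ := Submodule.mem_span_singleton.mp ht
    rw [map_smul, map_one, pow_zero, mul_one, ← smul_C, C_1]
  | succ n ih =>
    rintro t ⟨⟨a, b⟩, ⟨ha, hb⟩, rfl⟩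
    rw [Λ_apply, map_add, map_mul, map_mul, θ_x, θ_x, ih a ha, ih b hb, C_add, C_mul, C_mul,
      add_mul, pow_succ]
    congr 1
    · rw [mul_assoc, ← mul_assoc X, X_mul, mul_assoc, mul_assoc, ← pow_succ', ← pow_succ]
    · rw [mul_assoc, ← mul_assoc X, X_mul, mul_assoc, mul_assoc, ← pow_succ', ← pow_succ]

lemma π_of_mem_Tn {n : ℕ} {t : T} (ht : t ∈ Tn n) (k : ℕ) :
    π k t = if k = n then t else 0 := by
  rw [π_apply, θ_of_mem_Tn n t ht, coeff_C_mul, coeff_X_pow]
  split_ifs <;> simp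

end Pool.Agent.Helper31.GS
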