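import Pool.Agent.Helper31.GSNil

/-!
# Golod-Shafarevich, part 4: an infinite periodic group generated by two conjugates of a diagonal
matrix of order 5
-/

open Polynomial

namespace Pool.Agent.Helper31.GS

/-- matrices over the prime field -/
abbrev MF : Type := Matrix (Fin 3) (Fin 3) F

/-- the diagonal matrix with entries `w, w^2, w^3`, `w = 3` of order `5` mod `11` -/
def D₀ : MF := Matrix.diagonal ![3, 9, 5]

lemma D₀_pow : D₀ * D₀ ^ 4 = 1 := by decide +kernel
lemma D₀_pow' : D₀ ^ 4 * D₀ = 1 := by decide +kernel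
lemma D₀_sub : (Matrix.diagonal ![6, 7, 3] : MF) * (D₀ - 1) = 1 := by decide +kernel

lemma E0 : (Matrix.single 0 0 1 : MF) = (1 : F) • ((D₀ - 9) * (D₀ - 5)) := by decide +kernel
lemma E1 : (Matrix.single 1 1 1 : MF) = (6 : F) • ((D₀ - 3) * (D₀ - 5)) := by decide +kernel
lemma E2 : (Matrix.single 2 2 1 : MF) = (4 : F) • ((D₀ - 3) * (D₀ - 9)) := by decide +kernel

lemma E_mem_adjoin (i : Fin 3) : (Matrix.single i i 1 : MF) ∈ Algebra.adjoin F {D₀} := by
  have hD : D₀ ∈ Algebra.adjoin F {D₀} := Algebra.subset_adjoin rfl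
  have hn : ∀ n : ℕ, (n : MF) ∈ Algebra.adjoin F {D₀} := fun n => Subalgebra.natCast_mem _ n
  have h3 := hn 3
  have h5 := hn 5
  have h9 := hn 9
  fin_cases i
  · change (Matrix.single 0 0 1 : MF) ∈ _
    rw [E0]
    exact Subalgebra.smul_mem _ (mul_mem (sub_mem hD h9) (sub_mem hD h5)) _
  · change (Matrix.single 1 1 1 : MF) ∈ _
    rw [E1]
    exact Subalgebra.smul_mem _ (mul_mem (sub_mem hD h3) (sub_mem hD h5)) _
  · change (Matrix.single 2 2 1 : MF) ∈ _
    rw [E2]
    exact Subalgebra.smul_mem _ (mul_mem (sub_mem hD h3) (sub_mem hD h9)) _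

/-- the constant term, as an algebra homomorphism -/
noncomputable def ε : T →ₐ[F] F := FreeAlgebra.lift F (fun _ => 0)

lemma π_zero_eq (t : T) : π 0 t = algebraMap F T (ε t) := by
  induction t using FreeAlgebra.induction with
  | grade0 r =>
    rw [Algebra.algebraMap_eq_smul_one r, map_smul, π_one, if_pos rfl, map_smul, map_one,
      smul_eq_mul, mul_one, Algebra.algebraMap_eq_smul_one r]
  | grade1 j =>
    have : FreeAlgebra.ι F j = x j * 1 := by rw [mul_one]; rfl
    rw [this, π_x_mul_zero, map_mul, x, ε, FreeAlgebra.lift_ι_apply, zero_mul, map_zero]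
  | mul a b ha hb =>
    rw [π_mul, Finset.HasAntidiagonal.antidiagonal_zero, Finset.sum_singleton, ha, hb, map_mul,
      map_mul]
  | add a b ha hb => rw [map_add, ha, hb, map_add, map_add]

/-- the successor vertex along the letter `a` -/
def nxt (i : Fin 3) (a : Fin 2) : Fin 3 := if a = 0 then i + 1 else i + 2

lemma nxt_ne (i : Fin 3) (a : Fin 2) : i ≠ nxt i a := by
  revert i a; decide

/-- the matrix `x P + y P^2` over the free algebra -/
noncomputable def νT : M3 := fun i j => if j = nxt i 0 then x 0 else if j = nxt i 1 then x 1 else 0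

lemma νT_nxt (i : Fin 3) (a : Fin 2) : νT i (nxt i a) = x a := by
  fin_cases a
  · simp [νT]
  · have : nxt i 1 ≠ nxt i 0 := by revert i; decide
    simp [νT, this]

lemma aug_νT : Aug νT := by
  intro i j
  have hx : ∀ a, π 0 (x a) = 0 := by
    intro a
    have := π_x_mul_zero a 1
    rwa [mul_one] at this
  rw [νT]
  split_ifs
  · exact hx 0
  · exact hx 1
  · exact map_zero _

/-- leading-term path products -/
noncomputable def path (v : Fin 3 → T) : Fin 3 → List (Fin 2) → T
  | _, [] => 1
  | i, a :: l => v i * (x a * path v (nxt i a) l)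

lemma path_lead (v : Fin 3 → T) (hv : ∀ i, π 0 (v i) = 1) (l : List (Fin 2)) :
    ∀ i, (∀ k, k < l.length → π k (path v i l) = 0) ∧ π l.length (path v i l) = word l := by
  induction l with
  | nil =>
    intro i
    refine ⟨fun k hk => absurd hk (Nat.not_lt_zero k), ?_⟩
    rw [path, List.length_nil, π_one, if_pos rfl]; rfl
  | cons a l ih =>
    intro i
    obtain ⟨h1, h2⟩ := ih (nxt i a)
    have hq : ∀ k, k < l.length + 1 → π k (x a * path v (nxt i a) l) = 0 := by
      intro k hk
      cases k with
      | zero => exact π_x_mul_zero _ _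
      | succ k => rw [π_x_mul_succ, h1 k (by omega), mul_zero]
    constructor
    · intro k hk
      rw [List.length_cons] at hk
      rw [path, π_mul]
      refine Finset.sum_eq_zero fun p hp => ?_
      have hp' := Finset.HasAntidiagonal.mem_antidiagonal.mp hp
      rw [hq p.2 (by omega), mul_zero]
    · rw [path, π_mul, List.length_cons]
      rw [Finset.sum_eq_single (0, l.length + 1)]
      · rw [hv, one_mul, π_x_mul_succ, h2]
        rw [word, word, List.map_cons, List.prod_cons]
      · intro p hp hne
        have hp' := Finset.HasAntidiagonal.mem_antidiagonal.mp hp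
        have : p.2 < l.length + 1 := by
          by_contra hcon
          apply hne
          have h1 : p.1 = 0 := by omega
          have h2 : p.2 = l.length + 1 := by omega
          exact Prod.ext h1 h2
        rw [hq p.2 this, mul_zero]
      · intro h
        exact absurd (Finset.HasAntidiagonal.mem_antidiagonal.mpr (by simp)) h

/-- **Main construction**: a ring `M` of characteristic `11` and two units of order `5`,
fixed-point-free under left multiplication, generating an infinite periodic group. -/
theorem exists_units : ∃ (M : Type) (_ : Ring M) (a b : Mˣ),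
    (∀ m : M, (a : M) * m = m → m = 0) ∧ (∀ m : M, (b : M) * m = m → m = 0) ∧
    a ^ 5 = 1 ∧ b ^ 5 = 1 ∧ (1 : M) ≠ 0 ∧ (∀ g ∈ Subgroup.closure ({a, b} : Set Mˣ), IsOfFinOrder g) ∧
    Infinite (Subgroup.closure ({a, b} : Set Mˣ)) := by
  classical
  obtain ⟨ρ, hρ, hρ0, hnil⟩ := exists_relations
  let K : Type := T ⧸ JI ρ
  let mk : T →ₐ[F] K := Ideal.Quotient.mkₐ F (JI ρ)
  have hmk : ∀ t, mk t = 0 ↔ t ∈ JI ρ := fun t => Ideal.Quotient.eq_zero_iff_mem
  have hmks : Function.Surjective mk := Ideal.Quotient.mk_surjective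
  have hone : (1 : T) ∉ JI ρ := by
    intro h
    have h0 : π 0 (1 : T) ∈ Jn ρ 0 := h 0
    rw [π_one, if_pos rfl] at h0
    have h1 : (1 : T) = 0 := h0
    exact one_ne_zero h1
  have hK : Nontrivial K := by
    refine ⟨⟨1, 0, ?_⟩⟩
    intro h
    apply hone
    rw [← hmk, map_one]; exact h
  have hchar : CharP K 11 := charP_of_injective_algebraMap (algebraMap F K).injective 11
  -- the augmentation of K
  have hεJ : ∀ t ∈ JI ρ, ε t = 0 := by
    intro t ht
    have h0 : π 0 t = 0 := ht 0
    rw [π_zero_eq] at h0
    exact (map_eq_zero_iff _ (FreeAlgebra.algebraMap_leftInverse (R := F) (X := Fin 2)).injective).mp h0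
  let εK : K →ₐ[F] F := Ideal.Quotient.liftₐ (JI ρ) ε hεJ
  have hεK : ∀ t, εK (mk t) = ε t := fun t => rfl
  let M : Type := Matrix (Fin 3) (Fin 3) K
  let φ : MF →ₐ[F] M := (Algebra.ofId F K).mapMatrix
  let εM : M →ₐ[F] MF := εK.mapMatrix
  have hεφ : ∀ A : MF, εM (φ A) = A := by
    intro A
    ext i j
    change εK (algebraMap F K (A i j)) = A i j
    rw [AlgHom.commutes]; rfl
  let mkM : M3 →ₐ[F] M := mk.mapMatrix
  -- nilpotency
  have hnilM : ∀ n : M, εM n = 0 → IsNilpotent n := by
    intro n hn
    obtain ⟨f, hf⟩ : ∃ f : M3, ∀ i j, mk (f i j) = n i j := by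
      choose f hf using fun i j => hmks (n i j)
      exact ⟨f, hf⟩
    have hfn : mkM f = n := by
      ext i j; exact hf i j
    have haug : Aug f := by
      intro i j
      rw [π_zero_eq, ← hεK, hf]
      have : εK (n i j) = 0 := congrFun (congrFun hn i) j
      rw [this, map_zero]
    obtain ⟨N, hN⟩ := hnil f haug
    refine ⟨N, ?_⟩
    rw [← hfn, ← map_pow]
    ext i j
    change mk ((f ^ N) i j) = 0
    rw [hmk]; exact hN i j
  -- the units
  let d₀ : MFˣ := ⟨D₀, D₀ ^ 4, D₀_pow, D₀_pow'⟩
  have hd₀ : d₀ ^ 5 = 1 := by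
    ext1
    rw [Units.val_pow_eq_pow_val]
    exact (pow_succ D₀ 4).trans D₀_pow'
  let ν : M := mkM νT
  have hεν : εM ν = 0 := by
    ext i j
    change εK (mk (νT i j)) = 0
    rw [hεK]
    have h0 := aug_νT i j
    rw [π_zero_eq] at h0
    exact (map_eq_zero_iff _ (FreeAlgebra.algebraMap_leftInverse (R := F) (X := Fin 2)).injective).mp h0
  obtain ⟨u, hu⟩ : IsUnit (1 + ν) := (hnilM ν hεν).isUnit_one_add
  have hεu : εM (u : M) = 1 := by rw [hu, map_add, map_one, hεν, add_zero]
  let a : Mˣ := Units.map (φ : MF →* M) d₀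
  let b : Mˣ := u⁻¹ * a * u
  have ha5 : a ^ 5 = 1 := by
    rw [← map_pow, hd₀, map_one]
  have hb5 : b ^ 5 = 1 := by
    have : b = MulAut.conj u⁻¹ a := by simp [b]
    rw [this, ← map_pow, ha5, map_one]
  have hafix : ∀ m : M, (a : M) * m = m → m = 0 := by
    intro m hm
    have h1 : (φ (D₀ - 1)) * m = 0 := by
      rw [map_sub, map_one, sub_mul, one_mul]
      exact sub_eq_zero.mpr hm
    have h2 : φ ((Matrix.diagonal ![6, 7, 3] : MF) * (D₀ - 1)) * m = 0 := by
      rw [map_mul, mul_assoc, h1, mul_zero]
    rwa [D₀_sub, map_one, one_mul] at h2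
  have hbfix : ∀ m : M, (b : M) * m = m → m = 0 := by
    intro m hm
    have h1 : (a : M) * ((u : M) * m) = (u : M) * m := by
      have h2 : (u : M) * ((b : M) * m) = (a : M) * ((u : M) * m) := by
        simp only [b, Units.val_mul, mul_assoc]
        rw [← mul_assoc (u : M) ((u⁻¹ : Mˣ) : M), Units.mul_inv, one_mul]
      rw [← h2, hm]
    have h3 := hafix _ h1
    have h4 : ((u⁻¹ : Mˣ) : M) * ((u : M) * m) = 0 := by rw [h3, mul_zero]
    rwa [← mul_assoc, Units.inv_mul, one_mul] at h4
  have hMone : (1 : M) ≠ 0 := one_ne_zero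
  refine ⟨M, inferInstance, a, b, hafix, hbfix, ha5, hb5, hMone, ?_, ?_⟩
  · -- periodicity
    intro g hg
    have hle : Subgroup.closure ({a, b} : Set Mˣ) ≤
        (Subgroup.zpowers d₀).comap (Units.map (εM : M →* MF)) := by
      rw [Subgroup.closure_le]
      have haim : Units.map (εM : M →* MF) a = d₀ := by
        ext1
        exact hεφ D₀
      rintro y (rfl | rfl)
      · change Units.map (εM : M →* MF) a ∈ Subgroup.zpowers d₀
        rw [haim]; exact Subgroup.mem_zpowers d₀
      · change Units.map (εM : M →* MF) (u⁻¹ * a * u) ∈ Subgroup.zpowers d₀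
        have huim : Units.map (εM : M →* MF) u = 1 := by
          ext1
          exact hεu
        rw [map_mul, map_mul, map_inv, huim, haim, inv_one, one_mul, mul_one]
        exact Subgroup.mem_zpowers d₀
    obtain ⟨k, hk⟩ := hle hg
    have hk : d₀ ^ k = Units.map (εM : M →* MF) g := hk
    have hg5 : Units.map (εM : M →* MF) (g ^ 5) = 1 := by
      rw [map_pow, ← hk, ← zpow_natCast, ← zpow_mul, mul_comm, zpow_mul, zpow_natCast, hd₀, one_zpow]
    have hg5' : εM ((g ^ 5 : Mˣ) : M) = 1 := congrArg Units.val hg5
    have hn0 : εM (((g ^ 5 : Mˣ) : M) - 1) = 0 := by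
      rw [map_sub, hg5', map_one, sub_self]
    obtain ⟨N, hN⟩ := hnilM _ hn0
    have hpow : ((g ^ 5 : Mˣ) : M) ^ (11 ^ N) = 1 := by
      have h1 : ((g ^ 5 : Mˣ) : M) = 1 + (((g ^ 5 : Mˣ) : M) - 1) := by abel
      have hMchar : CharP M 11 := Matrix.charP 11
      rw [h1, add_pow_char_pow_of_commute 11 N (Commute.one_left _), one_pow]
      have h2 : (((g ^ 5 : Mˣ) : M) - 1) ^ (11 ^ N) = 0 := by
        apply pow_eq_zero_of_le _ hN
        exact (Nat.lt_pow_self (by norm_num)).le
      rw [h2, add_zero]
    rw [isOfFinOrder_iff_pow_eq_one]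
    refine ⟨5 * 11 ^ N, by positivity, ?_⟩
    ext1
    rw [pow_mul, Units.val_pow_eq_pow_val, hpow, Units.val_one]
  · -- infinite
    by_contra hfin
    rw [not_infinite_iff_finite] at hfin
    set G : Subgroup Mˣ := Subgroup.closure ({a, b} : Set Mˣ) with hG
    let GM : Submonoid M := G.toSubmonoid.map (Units.coeHom M)
    have hGMfin : (GM : Set M).Finite := by
      have : (G : Set Mˣ).Finite := Set.toFinite _
      exact this.image _
    let S : Subalgebra F M := Algebra.adjoin F (GM : Set M)
    have hSfin : (S : Set M).Finite := by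
      have h1 : Subalgebra.toSubmodule S = Submodule.span F (GM : Set M) := by
        rw [Algebra.adjoin_eq_span, Submonoid.closure_eq]
      have h2 : Module.Finite F (Submodule.span F (GM : Set M)) :=
        Module.Finite.span_of_finite F hGMfin
      have h3 : Finite (Submodule.span F (GM : Set M)) := Module.finite_of_finite F
      have h4 : (S : Set M) = (Submodule.span F (GM : Set M) : Set M) := by
        rw [← h1]; rfl
      rw [h4]
      exact Set.toFinite _
    have haS : (a : M) ∈ S := Algebra.subset_adjoin ⟨a, Subgroup.subset_closure (by simp), rfl⟩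
    have hbS : (b : M) ∈ S := Algebra.subset_adjoin ⟨b, Subgroup.subset_closure (by simp), rfl⟩
    -- diagonal idempotents
    have hE : ∀ i, φ (Matrix.single i i 1) ∈ S := by
      intro i
      have h1 : Algebra.adjoin F {D₀} ≤ S.comap φ := by
        refine Algebra.adjoin_le ?_
        rintro _ rfl
        exact haS
      exact h1 (E_mem_adjoin i)
    -- conjugated idempotents
    let S' : Subalgebra F M :=
      { carrier := {m | ((u⁻¹ : Mˣ) : M) * m * (u : M) ∈ S}
        mul_mem' := by
          intro p q hp hq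
          change ((u⁻¹ : Mˣ) : M) * (p * q) * (u : M) ∈ S
          have : ((u⁻¹ : Mˣ) : M) * (p * q) * (u : M) =
              (((u⁻¹ : Mˣ) : M) * p * (u : M)) * (((u⁻¹ : Mˣ) : M) * q * (u : M)) := by
            simp only [mul_assoc]
            rw [← mul_assoc (u : M) ((u⁻¹ : Mˣ) : M), Units.mul_inv, one_mul]
          rw [this]
          exact mul_mem hp hq
        add_mem' := by
          intro p q hp hq
          change ((u⁻¹ : Mˣ) : M) * (p + q) * (u : M) ∈ S
          rw [mul_add, add_mul]
          exact add_mem hp hq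
        algebraMap_mem' := by
          intro r
          change ((u⁻¹ : Mˣ) : M) * (algebraMap F M r) * (u : M) ∈ S
          rw [← Algebra.commutes, mul_assoc, Units.inv_mul, mul_one]
          exact S.algebraMap_mem r }
    have hE' : ∀ i, ((u⁻¹ : Mˣ) : M) * φ (Matrix.single i i 1) * (u : M) ∈ S := by
      intro i
      have h1 : Algebra.adjoin F {D₀} ≤ S'.comap φ := by
        refine Algebra.adjoin_le ?_
        rintro _ rfl
        exact hbS
      exact h1 (E_mem_adjoin i)
    have hφE : ∀ i, φ (Matrix.single i i 1) = Matrix.single i i (1 : K) := by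
      intro i
      ext k l
      change algebraMap F K (Matrix.single i i (1 : F) k l) = _
      rw [Matrix.single_apply, Matrix.single_apply]
      split_ifs
      · exact map_one _
      · exact map_zero _
    -- lifts of the diagonal entries of the inverse
    choose v hv using fun i => hmks (((u⁻¹ : Mˣ) : M) i i)
    have hv1 : ∀ i, π 0 (v i) = 1 := by
      intro i
      have h1 : εM ((u⁻¹ : Mˣ) : M) = 1 := by
        have h2 : εM (((u⁻¹ : Mˣ) : M) * (u : M)) = 1 := by rw [Units.inv_mul, map_one]
        rwa [map_mul, hεu, mul_one] at h2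
      have h3 : εK (((u⁻¹ : Mˣ) : M) i i) = 1 := by
        have := congrFun (congrFun h1 i) i
        rw [Matrix.one_apply_eq] at this
        exact this
      rw [π_zero_eq, ← hεK, hv, h3, map_one]
    have hstep : ∀ i c, Matrix.single i (nxt i c) (mk (v i * x c)) ∈ S := by
      intro i c
      have h1 : φ (Matrix.single i i 1) *
          (((u⁻¹ : Mˣ) : M) * φ (Matrix.single i i 1) * (u : M)) *
          φ (Matrix.single (nxt i c) (nxt i c) 1) ∈ S := mul_mem (mul_mem (hE i) (hE' i)) (hE _)
      have h2 : φ (Matrix.single i i 1) *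
          (((u⁻¹ : Mˣ) : M) * φ (Matrix.single i i 1) * (u : M)) *
          φ (Matrix.single (nxt i c) (nxt i c) 1) = Matrix.single i (nxt i c) (mk (v i * x c)) := by
        rw [hφE, hφE]
        have hui : (u : M) i (nxt i c) = mk (x c) := by
          rw [hu, Matrix.add_apply, Matrix.one_apply_ne (nxt_ne i c), zero_add]
          change mk (νT i (nxt i c)) = _
          rw [νT_nxt]
        ext k l
        simp only [mul_assoc]
        rw [Matrix.single_apply]
        split_ifs with hkl
        · obtain ⟨rfl, rfl⟩ := hkl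
          rw [Matrix.single_mul_apply_same, one_mul]
          rw [← mul_assoc, ← mul_assoc, Matrix.mul_single_apply_same, mul_one]
          rw [Matrix.mul_apply, Finset.sum_eq_single i]
          · rw [Matrix.mul_single_apply_same, mul_one, hui, ← hv, map_mul]
          · intro j _ hj
            rw [Matrix.mul_single_apply_of_ne _ _ _ _ _ (by tauto), zero_mul]
          · intro h; exact absurd (Finset.mem_univ i) h
        · by_cases hk : i = k
          · subst hk
            have hl : nxt i c ≠ l := fun h => hkl ⟨rfl, h⟩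
            rw [Matrix.single_mul_apply_same, one_mul]
            rw [← mul_assoc, ← mul_assoc, Matrix.mul_single_apply_of_ne _ _ _ _ _ (by tauto)]
          · rw [Matrix.single_mul_apply_of_ne _ _ _ _ _ (by tauto)]
      rw [← h2]; exact h1
    have hpath : ∀ (l : List (Fin 2)) (i : Fin 3), ∃ k, Matrix.single i k (mk (path v i l)) ∈ S := by
      intro l
      induction l with
      | nil =>
        intro i
        refine ⟨i, ?_⟩
        rw [path, map_one, ← hφE]
        exact hE i
      | cons c l ih =>
        intro i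
        obtain ⟨k, hk⟩ := ih (nxt i c)
        refine ⟨k, ?_⟩
        have h1 := mul_mem (hstep i c) hk
        rw [Matrix.single_mul_single_same, ← map_mul, mul_assoc] at h1
        exact h1
    choose w hwlen hw using fun n => exists_word_notMem hρ hρ0 n
    have hinj : Function.Injective (fun n => mk (path v 0 (w n))) := by
      apply Function.Injective.of_lt_imp_ne
      intro n m hnm heq
      have h1 : mk (path v 0 (w n) - path v 0 (w m)) = 0 := by
        rw [map_sub]; exact sub_eq_zero.mpr heq
      rw [hmk] at h1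
      have h2 := h1 n
      rw [map_sub] at h2
      have hn := (path_lead v hv1 (w n) 0).2
      rw [hwlen] at hn
      have hm := (path_lead v hv1 (w m) 0).1 n (by rw [hwlen]; exact hnm)
      rw [hn, hm, sub_zero] at h2
      exact hw n h2
    have hrow : ∀ n, mk (path v 0 (w n)) ∈ (fun A : M => ∑ k, A 0 k) '' (S : Set M) := by
      intro n
      obtain ⟨k, hk⟩ := hpath (w n) 0
      refine ⟨_, hk, ?_⟩
      change ∑ l, Matrix.single 0 k (mk (path v 0 (w n))) 0 l = _
      rw [Finset.sum_eq_single k]
      · rw [Matrix.single_apply_same]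
      · intro l _ hl
        rw [Matrix.single_apply_of_col_ne _ _ (Ne.symm hl)]
      · intro h; exact absurd (Finset.mem_univ k) h
    exact Set.infinite_of_injective_forall_mem hinj hrow (hSfin.image _)

end Pool.Agent.Helper31.GS
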