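import Pool.Agent.Helper31.GSCount

/-!
# Golod-Shafarevich, part 3: the ideal, and nilpotency of all augmentation matrices
-/

open Polynomial

namespace Pool.Agent.Helper31.GS

/-- matrices over the free algebra -/
abbrev M3 : Type := Matrix (Fin 3) (Fin 3) T

lemma π_mul (n : ℕ) (s t : T) :
    π n (s * t) = ∑ p ∈ Finset.HasAntidiagonal.antidiagonal n, π p.1 s * π p.2 t := by
  rw [π_apply, map_mul, coeff_mul]; rfl

/-- the two-sided ideal generated by the relations -/
noncomputable def JI (ρ : ℕ → Idx → T) : Ideal T where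
  carrier := {t | ∀ n, π n t ∈ Jn ρ n}
  add_mem' := by
    intro a b ha hb n
    rw [map_add]; exact Submodule.add_mem _ (ha n) (hb n)
  zero_mem' := by
    intro n; rw [map_zero]; exact Submodule.zero_mem _
  smul_mem' := by
    intro c t ht n
    rw [smul_eq_mul, π_mul]
    refine Submodule.sum_mem _ fun p hp => ?_
    rw [← Finset.HasAntidiagonal.mem_antidiagonal.mp hp]
    exact Tn_mul_mem_Jn _ _ _ _ (π_mem_Tn c p.1) (ht p.2)

lemma mem_JI {ρ : ℕ → Idx → T} {t : T} : t ∈ JI ρ ↔ ∀ n, π n t ∈ Jn ρ n := Iff.rfl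

lemma Jn_mul_Tn {ρ : ℕ → Idx → T} (b : ℕ) :
    ∀ (a : ℕ) (s t : T), s ∈ Jn ρ a → t ∈ Tn b → s * t ∈ Jn ρ (a + b) := by
  induction b with
  | zero =>
    intro a s t hs ht
    obtain ⟨c, rfl⟩ := Submodule.mem_span_singleton.mp ht
    rw [mul_smul_comm, mul_one, add_zero]
    exact Submodule.smul_mem _ _ hs
  | succ b ih =>
    rintro a s t hs ⟨⟨u, v⟩, ⟨hu, hv⟩, rfl⟩
    rw [Λ_apply, mul_add, ← mul_assoc, ← mul_assoc]
    have e : a + (b + 1) = (a + 1) + b := by omega
    rw [e]
    exact Submodule.add_mem _ (ih _ _ _ (mul_x_mem_Jn 0 a s hs) hu)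
      (ih _ _ _ (mul_x_mem_Jn 1 a s hs) hv)

instance twoSided_JI (ρ : ℕ → Idx → T) : (JI ρ).IsTwoSided := by
  constructor
  intro a b ha n
  rw [π_mul]
  refine Submodule.sum_mem _ fun p hp => ?_
  rw [← Finset.HasAntidiagonal.mem_antidiagonal.mp hp]
  exact Jn_mul_Tn _ _ _ _ (ha p.1) (π_mem_Tn b p.2)

/-- entries have zero constant term -/
def Aug (f : M3) : Prop := ∀ i j, π 0 (f i j) = 0

lemma pow_low {f : M3} (hf : Aug f) (N : ℕ) : ∀ i j k, k < N → π k ((f ^ N) i j) = 0 := by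
  induction N with
  | zero => intro i j k hk; omega
  | succ N ih =>
    intro i j k hk
    rw [pow_succ, Matrix.mul_apply, map_sum]
    refine Finset.sum_eq_zero fun l _ => ?_
    rw [π_mul]
    refine Finset.sum_eq_zero fun p hp => ?_
    have hp' := Finset.HasAntidiagonal.mem_antidiagonal.mp hp
    rcases Nat.eq_zero_or_pos p.2 with h0 | h0
    · rw [h0, hf, mul_zero]
    · rw [ih i l p.1 (by omega), zero_mul]

lemma pow_high {f : M3} {s : ℕ} (hf : ∀ i j k, s < k → π k (f i j) = 0) (N : ℕ) :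
    ∀ i j k, s * N < k → π k ((f ^ N) i j) = 0 := by
  induction N with
  | zero =>
    intro i j k hk
    rw [pow_zero, Matrix.one_apply]
    split_ifs
    · rw [π_one, if_neg (by omega)]
    · rw [map_zero]
  | succ N ih =>
    intro i j k hk
    rw [pow_succ, Matrix.mul_apply, map_sum]
    refine Finset.sum_eq_zero fun l _ => ?_
    rw [π_mul]
    refine Finset.sum_eq_zero fun p hp => ?_
    have hp' := Finset.HasAntidiagonal.mem_antidiagonal.mp hp
    by_cases h1 : s * N < p.1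
    · rw [ih i l p.1 h1, zero_mul]
    · rw [hf l j p.2 (by rw [Nat.mul_succ] at hk; omega), mul_zero]

lemma exists_bound (f : M3) : ∃ s : ℕ, 1 ≤ s ∧ ∀ i j k, s < k → π k (f i j) = 0 := by
  refine ⟨(∑ i, ∑ j, (θ (f i j)).natDegree) + 1, Nat.succ_le_succ (Nat.zero_le _), ?_⟩
  intro i j k hk
  rw [π_apply]
  apply coeff_eq_zero_of_natDegree_lt
  have h1 : (θ (f i j)).natDegree ≤ ∑ j, (θ (f i j)).natDegree :=
    Finset.single_le_sum (f := fun j => (θ (f i j)).natDegree) (fun _ _ => Nat.zero_le _)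
      (Finset.mem_univ j)
  have h2 : ∑ j, (θ (f i j)).natDegree ≤ ∑ i, ∑ j, (θ (f i j)).natDegree :=
    Finset.single_le_sum (f := fun i => ∑ j, (θ (f i j)).natDegree) (fun _ _ => Nat.zero_le _)
      (Finset.mem_univ i)
  omega

instance countable_T : Countable T := by
  rw [← Cardinal.mk_le_aleph0_iff]
  refine (FreeAlgebra.cardinalMk_le_max F (Fin 2)).trans ?_
  simp

/-- There is a family of relations, at most `9` in each degree and none below degree `11`, such
that every augmentation matrix has a power with all entries in the ideal. -/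
theorem exists_relations : ∃ ρ : ℕ → Idx → T, (∀ k j, ρ k j ∈ Tn k) ∧
    (∀ k j, k < 11 → ρ k j = 0) ∧
    ∀ f : M3, Aug f → ∃ N, ∀ i j, (f ^ N) i j ∈ JI ρ := by
  classical
  have : Nonempty {f : M3 // Aug f} := ⟨⟨0, fun i j => by simp⟩⟩
  have : Countable M3 := inferInstanceAs (Countable (Fin 3 → Fin 3 → T))
  obtain ⟨e, he⟩ := exists_surjective_nat {f : M3 // Aug f}
  choose s hs1 hs using fun m => exists_bound (e m).1
  -- the starting degrees
  obtain ⟨N, hN0, hNs⟩ : ∃ N : ℕ → ℕ, N 0 = 11 ∧ ∀ m, N (m + 1) = s m * N m + 1 :=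
    ⟨fun m => Nat.rec 11 (fun m r => s m * r + 1) m, rfl, fun m => rfl⟩
  have hNlt : ∀ m, N m < N (m + 1) := by
    intro m
    rw [hNs]
    have := Nat.mul_le_mul_right (N m) (hs1 m)
    omega
  have hNmono : StrictMono N := strictMono_nat_of_lt_succ hNlt
  let ρ : ℕ → Idx → T := fun k j =>
    if h : ∃ m : ℕ, N m ≤ k ∧ k < N (m + 1) then
      π k (((e h.choose).1 ^ (N h.choose)) j.1 j.2) else 0
  have hρT : ∀ k j, ρ k j ∈ Tn k := by
    intro k j
    simp only [ρ]
    split_ifs with h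
    · exact π_mem_Tn _ k
    · exact Submodule.zero_mem _
  have hρ0 : ∀ k j, k < 11 → ρ k j = 0 := by
    intro k j hk
    simp only [ρ]
    rw [dif_neg]
    rintro ⟨m, hm, -⟩
    have := hNmono.monotone (Nat.zero_le m)
    omega
  have huniq : ∀ k m m', N m ≤ k → k < N (m + 1) → N m' ≤ k → k < N (m' + 1) → m = m' := by
    intro k m m' h1 h2 h3 h4
    have a1 : m < m' + 1 := hNmono.lt_iff_lt.mp (lt_of_le_of_lt h1 h4)
    have a2 : m' < m + 1 := hNmono.lt_iff_lt.mp (lt_of_le_of_lt h3 h2)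
    omega
  refine ⟨ρ, hρT, hρ0, ?_⟩
  intro f hf
  obtain ⟨m, hm⟩ := he ⟨f, hf⟩
  have hm' : (e m).1 = f := congrArg Subtype.val hm
  refine ⟨N m, fun i j k => ?_⟩
  rw [← hm']
  by_cases h1 : N m ≤ k
  · by_cases h2 : k < N (m + 1)
    · have hex : ∃ m, N m ≤ k ∧ k < N (m + 1) := ⟨m, h1, h2⟩
      have hc : hex.choose = m :=
        huniq k _ _ hex.choose_spec.1 hex.choose_spec.2 h1 h2
      have hr : ρ k (i, j) = π k (((e m).1 ^ (N m)) i j) := by
        simp only [ρ]
        rw [dif_pos hex, hc]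
      rw [← hr]
      have hk : 0 < k := by
        have := hNmono.monotone (Nat.zero_le m)
        omega
      obtain ⟨k', rfl⟩ : ∃ k', k = k' + 1 := ⟨k - 1, by omega⟩
      exact rel_mem_Jn k' (i, j)
    · rw [pow_high (hs m) (N m) i j k (by rw [hNs] at h2; omega)]
      exact Submodule.zero_mem _
  · rw [pow_low (e m).2 (N m) i j k (by omega)]
    exact Submodule.zero_mem _

end Pool.Agent.Helper31.GS
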