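import Mathlib

/-!
# Highest weight functionals: the Banach algebra case
-/

open NormedSpace

namespace Pool.Agent.Helper31.HW

section conj

variable {L : Type*} [NormedRing L] [NormedAlgebra ℂ L] [CompleteSpace L]

lemma exp_add_comm' {x y : L} (h : Commute x y) : exp (x + y) = exp x * exp y := by
  let _ : NormedAlgebra ℚ L := NormedAlgebra.restrictScalars ℚ ℂ L
  exact exp_add_of_commute h

lemma exp_neg_mul (x : L) : exp (-x) * exp x = 1 := by
  rw [← exp_add_comm' (Commute.refl x).neg_left, neg_add_cancel, exp_zero]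

lemma exp_mul_neg (x : L) : exp x * exp (-x) = 1 := by
  rw [← exp_add_comm' (Commute.refl x).neg_right, add_neg_cancel, exp_zero]

lemma exp_differentiable : Differentiable ℂ (exp : L → L) :=
  fun x => (exp_analytic (𝕂 := ℂ) x).differentiableAt

lemma exp_continuous' : Continuous (exp : L → L) := exp_differentiable.continuous

lemma commute_exp {x y : L} (h : Commute x y) : Commute (exp x) y := h.exp_left

/-- conjugation formula when the third commutator vanishes -/
lemma exp_conj (X B B1 B2 : L) (h1 : X * B - B * X = B1) (h2 : X * B1 - B1 * X = B2)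
    (h3 : X * B2 - B2 * X = 0) :
    exp X * B = (B + B1 + (1 / 2 : ℂ) • B2) * exp X := by
  -- `g t = exp (-t X) (B + t B1 + t^2/2 B2) exp (t X)` is constant
  let P : ℂ → L := fun t => B + t • B1 + (t ^ 2 / 2 : ℂ) • B2
  let g : ℂ → L := fun t => exp (t • (-X)) * P t * exp (t • X)
  have hP : ∀ t, HasDerivAt P (B1 + t • B2) t := by
    intro t
    have e1 : HasDerivAt (fun t : ℂ => t • B1) ((1 : ℂ) • B1) t := (hasDerivAt_id t).smul_const B1
    have e2 : HasDerivAt (fun t : ℂ => (t ^ 2 / 2 : ℂ) • B2) (((2 * t) / 2 : ℂ) • B2) t := by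
      have := ((hasDerivAt_pow 2 t).div_const 2).smul_const B2
      simpa using this
    have e3 : HasDerivAt P (0 + (1 : ℂ) • B1 + ((2 * t) / 2 : ℂ) • B2) t :=
      ((hasDerivAt_const t B).add e1).add e2
    refine e3.congr_deriv ?_
    rw [zero_add, one_smul, mul_div_cancel_left₀ t (two_ne_zero)]
  have hg : ∀ t, HasDerivAt g 0 t := by
    intro t
    have a1 : HasDerivAt (fun u : ℂ => exp (u • (-X))) (exp (t • (-X)) * (-X)) t :=
      hasDerivAt_exp_smul_const (-X) t
    have a2 : HasDerivAt (fun u : ℂ => exp (u • X)) (X * exp (t • X)) t :=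
      hasDerivAt_exp_smul_const' X t
    have a3 : HasDerivAt g ((exp (t • (-X)) * (-X) * P t + exp (t • (-X)) * (B1 + t • B2))
        * exp (t • X) + exp (t • (-X)) * P t * (X * exp (t • X))) t := (a1.mul (hP t)).mul a2
    refine a3.congr_deriv ?_
    have h4 : X * P t - P t * X = B1 + t • B2 := by
      simp only [P]
      have : X * (B + t • B1 + (t ^ 2 / 2 : ℂ) • B2) - (B + t • B1 + (t ^ 2 / 2 : ℂ) • B2) * X
          = (X * B - B * X) + t • (X * B1 - B1 * X) + (t ^ 2 / 2 : ℂ) • (X * B2 - B2 * X) := by
        simp only [mul_add, add_mul, mul_smul_comm, smul_mul_assoc, smul_sub]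
        abel
      rw [this, h1, h2, h3, smul_zero, add_zero]
    rw [← h4]
    noncomm_ring
  have hconst : g 1 = g 0 :=
    is_const_of_deriv_eq_zero (fun t => (hg t).differentiableAt) (fun t => (hg t).deriv) 1 0
  have hg1 : exp (-X) * (B + B1 + (1 / 2 : ℂ) • B2) * exp X = B := by
    have e1 : g 1 = exp (-X) * (B + B1 + (1 / 2 : ℂ) • B2) * exp X := by
      simp [g, P]
    have e0 : g 0 = B := by
      simp [g, P]
    rw [← e1, hconst, e0]
  calc exp X * B = exp X * (exp (-X) * (B + B1 + (1 / 2 : ℂ) • B2) * exp X) := by rw [hg1]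
    _ = (exp X * exp (-X)) * (B + B1 + (1 / 2 : ℂ) • B2) * exp X := by
        simp only [mul_assoc]
    _ = (B + B1 + (1 / 2 : ℂ) • B2) * exp X := by rw [exp_mul_neg, one_mul]

/-- derivative of the exponential along a commuting curve -/
lemma hasDerivAt_exp_comm {X : ℂ → L} {X' : L} {z : ℂ} (hX : HasDerivAt X X' z)
    (hc : ∀ w, Commute (X z) (X w)) : HasDerivAt (fun w => exp (X w)) (exp (X z) * X') z := by
  have h1 : ∀ w, exp (X w) = exp (X z) * exp (X w - X z) := by
    intro w
    have : Commute (X z) (X w - X z) := (hc w).sub_right (Commute.refl _)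
    rw [← exp_add_comm' this]
    congr 1; abel
  have h2 : HasDerivAt (fun w => exp (X w - X z)) X' z := by
    have h3 : HasDerivAt (fun w => X w - X z) X' z := hX.sub_const _
    have h4 : HasFDerivAt (exp : L → L) (1 : L →L[ℂ] L) (X z - X z) := by
      rw [sub_self]; exact hasFDerivAt_exp_zero
    have h5 : HasDerivAt (fun w => exp (X w - X z)) ((1 : L →L[ℂ] L) X') z :=
      h4.comp_hasDerivAt z h3
    exact h5
  have h3 := h2.const_mul (exp (X z))
  refine h3.congr_of_eventuallyEq (Filter.Eventually.of_forall fun w => ?_)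
  exact h1 w

end conj

section phi

variable {C : Type*} [NormedCommRing C] [NormedAlgebra ℂ C] [CompleteSpace C]

/-- coefficients of `(e^t - 1)/t` -/
noncomputable def phiCoeff (n : ℕ) : ℂ := ((n + 1).factorial : ℂ)⁻¹

/-- the entire function `(e^t - 1)/t` on a Banach algebra -/
noncomputable def phi (b : C) : C := FormalMultilinearSeries.ofScalarsSum phiCoeff b

lemma phi_radius : (FormalMultilinearSeries.ofScalars C phiCoeff).radius = ⊤ := by
  apply FormalMultilinearSeries.ofScalars_radius_eq_top_of_tendsto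
  · refine Filter.Eventually.of_forall fun n => ?_
    rw [phiCoeff]
    exact inv_ne_zero (Nat.cast_ne_zero.mpr (Nat.factorial_ne_zero _))
  · have : (fun n : ℕ => ‖phiCoeff n.succ‖ / ‖phiCoeff n‖) = fun n : ℕ => ((n : ℝ) + 2)⁻¹ := by
      funext n
      rw [phiCoeff, phiCoeff, norm_inv, norm_inv, Complex.norm_natCast, Complex.norm_natCast,
        Nat.succ_eq_add_one, Nat.factorial_succ (n + 1)]
      have : ((n + 1).factorial : ℝ) ≠ 0 := Nat.cast_ne_zero.mpr (Nat.factorial_ne_zero _)
      push_cast
      field_simp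
      ring
    rw [this]
    apply Filter.Tendsto.inv_tendsto_atTop
    exact Filter.tendsto_atTop_add_const_right _ _ tendsto_natCast_atTop_atTop

lemma phi_differentiable : Differentiable ℂ (phi : C → C) := by
  intro x
  have hr : 0 < (FormalMultilinearSeries.ofScalars C phiCoeff).radius := by
    rw [phi_radius]; exact ENNReal.zero_lt_top
  have h := (FormalMultilinearSeries.ofScalars C phiCoeff).hasFPowerSeriesOnBall hr
  have h2 : AnalyticAt ℂ (FormalMultilinearSeries.ofScalars C phiCoeff).sum x := by
    apply h.analyticAt_of_mem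
    rw [phi_radius]
    simp
  exact h2.differentiableAt

lemma phi_hasSum (b : C) : HasSum (fun n => phiCoeff n • b ^ n) (phi b) := by
  have hr : 0 < (FormalMultilinearSeries.ofScalars C phiCoeff).radius := by
    rw [phi_radius]; exact ENNReal.zero_lt_top
  have h := (FormalMultilinearSeries.ofScalars C phiCoeff).hasFPowerSeriesOnBall hr
  have h2 := h.hasSum (y := b) (by rw [phi_radius]; simp)
  simp only [zero_add, FormalMultilinearSeries.ofScalars_apply_eq] at h2
  exact h2

lemma mul_phi (b : C) : b * phi b = exp b - 1 := by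
  have h1 : HasSum (fun n : ℕ => ((n.factorial : ℂ)⁻¹) • b ^ n) (exp b) := exp_series_hasSum_exp' b
  have h2 := (hasSum_nat_add_iff' 1).mpr h1
  simp only [Finset.range_one, Finset.sum_singleton, Nat.factorial_zero, Nat.cast_one, inv_one,
    pow_zero, one_smul] at h2
  have h3 : HasSum (fun n : ℕ => b * (phiCoeff n • b ^ n)) (b * phi b) := (phi_hasSum b).mul_left b
  have h4 : (fun n : ℕ => b * (phiCoeff n • b ^ n)) =
      fun n : ℕ => (((n + 1).factorial : ℂ)⁻¹) • b ^ (n + 1) := by
    funext n
    rw [mul_smul_comm, ← pow_succ', phiCoeff]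
  rw [h4] at h3
  exact h3.unique h2

lemma phi_zero : phi (0 : C) = 1 := by
  rw [phi, FormalMultilinearSeries.ofScalarsSum_zero]
  simp [phiCoeff]

end phi

end Pool.Agent.Helper31.HW
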