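import Pool.Agent.Helper31.HWData

/-!
# Highest weight functionals: from a topological algebra to a Banach algebra
-/

open UniformSpace

namespace Pool.Agent.Helper31.HW

variable {𝒜 : Type*} [NonUnitalCommRing 𝒜] [Module ℂ 𝒜] [IsScalarTower ℂ 𝒜 𝒜]
  [SMulCommClass ℂ 𝒜 𝒜]
variable {L : Type*} [NormedRing L] [NormedAlgebra ℂ L] [CompleteSpace L]

/-- Algebraic data on `𝒜` (no topology on `𝒜` is used here). -/
structure PreData (𝒜 : Type*) [NonUnitalCommRing 𝒜] [Module ℂ 𝒜] (L : Type*) [NormedRing L]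
    [NormedAlgebra ℂ L] where
  E : 𝒜 →ₗ[ℂ] L
  H : 𝒜 →ₗ[ℂ] L
  Y : 𝒜 →ₗ[ℂ] L
  ω : L →L[ℂ] ℂ
  EE : ∀ a b, Commute (E a) (E b)
  YY : ∀ a b, Commute (Y a) (Y b)
  HE : ∀ a b, H a * E b - E b * H a = (2 : ℂ) • E (a * b)
  HY : ∀ a b, H a * Y b - Y b * H a = -((2 : ℂ) • Y (a * b))
  EY : ∀ a b, E a * Y b - Y b * E a = H (a * b)
  ωE : ∀ T a, ω (T * E a) = 0
  ωY : ∀ T a, ω (Y a * T) = 0
  ωH : ∀ T a, ω (H a * T) = ω (H a) * ω T
  ω1 : ω 1 = 1

variable (P : PreData 𝒜 L)

/-- the seminorm on the unitization -/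
noncomputable def nrm (x : Unitization ℂ 𝒜) : ℝ :=
  ‖x.fst‖ + 2 * (‖P.E x.snd‖ + ‖P.H x.snd‖ + ‖P.Y x.snd‖)

/-- the group seminorm on the unitization -/
noncomputable def grpSeminorm : AddGroupSeminorm (Unitization ℂ 𝒜) where
  toFun := nrm P
  map_zero' := by simp [nrm]
  add_le' x y := by
    simp only [nrm, Unitization.fst_add, Unitization.snd_add, map_add]
    have h1 := norm_add_le x.fst y.fst
    have h2 := norm_add_le (P.E x.snd) (P.E y.snd)
    have h3 := norm_add_le (P.H x.snd) (P.H y.snd)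
    have h4 := norm_add_le (P.Y x.snd) (P.Y y.snd)
    linarith
  neg' x := by simp [nrm]

omit [IsScalarTower ℂ 𝒜 𝒜] [SMulCommClass ℂ 𝒜 𝒜] [CompleteSpace L] in
lemma norm_two_smul_le (T : L) : ‖T‖ = ‖(2 : ℂ) • T‖ / 2 := by
  rw [norm_smul]; simp

omit [IsScalarTower ℂ 𝒜 𝒜] [SMulCommClass ℂ 𝒜 𝒜] [CompleteSpace L] in
lemma norm_E_mul (a b : 𝒜) : ‖P.E (a * b)‖ ≤ ‖P.H a‖ * ‖P.E b‖ := by
  rw [norm_two_smul_le, ← P.HE]
  have h1 := norm_sub_le (P.H a * P.E b) (P.E b * P.H a)
  have h2 := norm_mul_le (P.H a) (P.E b)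
  have h3 := norm_mul_le (P.E b) (P.H a)
  rw [mul_comm ‖P.E b‖] at h3
  linarith

omit [IsScalarTower ℂ 𝒜 𝒜] [SMulCommClass ℂ 𝒜 𝒜] [CompleteSpace L] in
lemma norm_Y_mul (a b : 𝒜) : ‖P.Y (a * b)‖ ≤ ‖P.H a‖ * ‖P.Y b‖ := by
  rw [norm_two_smul_le, ← norm_neg, ← P.HY]
  have h1 := norm_sub_le (P.H a * P.Y b) (P.Y b * P.H a)
  have h2 := norm_mul_le (P.H a) (P.Y b)
  have h3 := norm_mul_le (P.Y b) (P.H a)
  rw [mul_comm ‖P.Y b‖] at h3
  linarith

omit [IsScalarTower ℂ 𝒜 𝒜] [SMulCommClass ℂ 𝒜 𝒜] [CompleteSpace L] in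
lemma norm_H_mul (a b : 𝒜) : ‖P.H (a * b)‖ ≤ 2 * (‖P.E a‖ * ‖P.Y b‖) := by
  rw [← P.EY]
  have h1 := norm_sub_le (P.E a * P.Y b) (P.Y b * P.E a)
  have h2 := norm_mul_le (P.E a) (P.Y b)
  have h3 := norm_mul_le (P.Y b) (P.E a)
  rw [mul_comm ‖P.Y b‖] at h3
  linarith

lemma nrm_mul_le (x y : Unitization ℂ 𝒜) : nrm P (x * y) ≤ nrm P x * nrm P y := by
  simp only [nrm, Unitization.fst_mul, Unitization.snd_mul, map_add, map_smul, norm_mul]
  set p := ‖x.fst‖
  set q := ‖y.fst‖
  have e1 : ‖x.fst • P.E y.snd + y.fst • P.E x.snd + P.E (x.snd * y.snd)‖ ≤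
      p * ‖P.E y.snd‖ + q * ‖P.E x.snd‖ + ‖P.H x.snd‖ * ‖P.E y.snd‖ := by
    refine (norm_add_le _ _).trans (add_le_add ((norm_add_le _ _).trans ?_) (norm_E_mul P _ _))
    rw [norm_smul, norm_smul]
  have e2 : ‖x.fst • P.H y.snd + y.fst • P.H x.snd + P.H (x.snd * y.snd)‖ ≤
      p * ‖P.H y.snd‖ + q * ‖P.H x.snd‖ + 2 * (‖P.E x.snd‖ * ‖P.Y y.snd‖) := by
    refine (norm_add_le _ _).trans (add_le_add ((norm_add_le _ _).trans ?_) (norm_H_mul P _ _))
    rw [norm_smul, norm_smul]
  have e3 : ‖x.fst • P.Y y.snd + y.fst • P.Y x.snd + P.Y (x.snd * y.snd)‖ ≤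
      p * ‖P.Y y.snd‖ + q * ‖P.Y x.snd‖ + ‖P.H x.snd‖ * ‖P.Y y.snd‖ := by
    refine (norm_add_le _ _).trans (add_le_add ((norm_add_le _ _).trans ?_) (norm_Y_mul P _ _))
    rw [norm_smul, norm_smul]
  have hp : 0 ≤ p := norm_nonneg _
  have hq : 0 ≤ q := norm_nonneg _
  have n1 := norm_nonneg (P.E x.snd)
  have n2 := norm_nonneg (P.H x.snd)
  have n3 := norm_nonneg (P.Y x.snd)
  have m1 := norm_nonneg (P.E y.snd)
  have m2 := norm_nonneg (P.H y.snd)
  have m3 := norm_nonneg (P.Y y.snd)
  nlinarith [mul_nonneg n1 m1, mul_nonneg n1 m2, mul_nonneg n1 m3, mul_nonneg n2 m1,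
    mul_nonneg n2 m2, mul_nonneg n2 m3, mul_nonneg n3 m1, mul_nonneg n3 m2, mul_nonneg n3 m3]


/-- the unitization, with the seminorm attached to `P` -/
@[nolint unusedArguments]
def AU (_P : PreData 𝒜 L) : Type _ := Unitization ℂ 𝒜

noncomputable instance instSemiAU : SeminormedCommRing (AU P) :=
  { (grpSeminorm P).toSeminormedAddCommGroup, (inferInstance : CommRing (Unitization ℂ 𝒜)) with
    norm_mul_le := nrm_mul_le P }

lemma norm_AU (x : AU P) : ‖x‖ = nrm P x := rfl

lemma nrm_smul (c : ℂ) (x : Unitization ℂ 𝒜) : nrm P (c • x) = ‖c‖ * nrm P x := by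
  simp only [nrm, Unitization.fst_smul, Unitization.snd_smul, map_smul, norm_smul]
  ring

noncomputable instance instAlgAU : NormedAlgebra ℂ (AU P) :=
  { (inferInstance : Algebra ℂ (Unitization ℂ 𝒜)) with
    norm_smul_le := fun c x => (nrm_smul P c x).le }

/-- first coordinate -/
def ufst (x : AU P) : ℂ := (show Unitization ℂ 𝒜 from x).fst

/-- second coordinate -/
def usnd (x : AU P) : 𝒜 := (show Unitization ℂ 𝒜 from x).snd

lemma norm_eq (x : AU P) :
    ‖x‖ = ‖ufst P x‖ + 2 * (‖P.E (usnd P x)‖ + ‖P.H (usnd P x)‖ + ‖P.Y (usnd P x)‖) := rfl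

/-- `fst` as a continuous linear map -/
noncomputable def fstA : AU P →L[ℂ] ℂ :=
  LinearMap.mkContinuous
    { toFun := fun x => ufst P x
      map_add' := fun _ _ => rfl
      map_smul' := fun _ _ => rfl } 1 (by
    intro x
    rw [one_mul, norm_eq]
    have n1 := norm_nonneg (P.E (usnd P x))
    have n2 := norm_nonneg (P.H (usnd P x))
    have n3 := norm_nonneg (P.Y (usnd P x))
    change ‖ufst P x‖ ≤ _
    linarith)

/-- `E ∘ snd` -/
noncomputable def EA : AU P →L[ℂ] L :=
  LinearMap.mkContinuous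
    { toFun := fun x => P.E (usnd P x)
      map_add' := fun _ _ => P.E.map_add _ _
      map_smul' := fun _ _ => P.E.map_smul _ _ } 1 (by
    intro x
    rw [one_mul, norm_eq]
    have n0 := norm_nonneg (ufst P x)
    have n1 := norm_nonneg (P.E (usnd P x))
    have n2 := norm_nonneg (P.H (usnd P x))
    have n3 := norm_nonneg (P.Y (usnd P x))
    change ‖P.E (usnd P x)‖ ≤ _
    linarith)

/-- `H ∘ snd` -/
noncomputable def HA : AU P →L[ℂ] L :=
  LinearMap.mkContinuous
    { toFun := fun x => P.H (usnd P x)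
      map_add' := fun _ _ => P.H.map_add _ _
      map_smul' := fun _ _ => P.H.map_smul _ _ } 1 (by
    intro x
    rw [one_mul, norm_eq]
    have n0 := norm_nonneg (ufst P x)
    have n1 := norm_nonneg (P.E (usnd P x))
    have n2 := norm_nonneg (P.H (usnd P x))
    have n3 := norm_nonneg (P.Y (usnd P x))
    change ‖P.H (usnd P x)‖ ≤ _
    linarith)

/-- `Y ∘ snd` -/
noncomputable def YA : AU P →L[ℂ] L :=
  LinearMap.mkContinuous
    { toFun := fun x => P.Y (usnd P x)
      map_add' := fun _ _ => P.Y.map_add _ _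
      map_smul' := fun _ _ => P.Y.map_smul _ _ } 1 (by
    intro x
    rw [one_mul, norm_eq]
    have n0 := norm_nonneg (ufst P x)
    have n1 := norm_nonneg (P.E (usnd P x))
    have n2 := norm_nonneg (P.H (usnd P x))
    have n3 := norm_nonneg (P.Y (usnd P x))
    change ‖P.Y (usnd P x)‖ ≤ _
    linarith)

/-- the Banach algebra -/
abbrev CP : Type _ := Completion (AU P)

/-- extension of a continuous linear map to the completion -/
noncomputable def ext {W : Type*} [NormedAddCommGroup W] [NormedSpace ℂ W] [CompleteSpace W]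
    (g : AU P →L[ℂ] W) : CP P →L[ℂ] W :=
  g.extend (Completion.toComplL : AU P →L[ℂ] Completion (AU P))

lemma ext_coe {W : Type*} [NormedAddCommGroup W] [NormedSpace ℂ W] [CompleteSpace W]
    (g : AU P →L[ℂ] W) (x : AU P) : ext P g (x : CP P) = g x :=
  ContinuousLinearMap.extend_eq (e := (Completion.toComplL : AU P →L[ℂ] Completion (AU P)))
    g Completion.denseRange_coe (Completion.isUniformInducing_coe _) x

/-- the inclusion of the algebra in the unitization -/
def inA (a : 𝒜) : AU P := (Unitization.inr a : Unitization ℂ 𝒜)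

lemma decomp_unitization (x : Unitization ℂ 𝒜) :
    x - x.fst • (1 : Unitization ℂ 𝒜) = (Unitization.inr x.snd : Unitization ℂ 𝒜) := by
  rw [sub_eq_iff_eq_add]
  apply Unitization.ext
  · simp
  · simp

lemma decomp (x : AU P) : x - fstA P x • (1 : AU P) = inA P (usnd P x) :=
  decomp_unitization (show Unitization ℂ 𝒜 from x)

lemma usnd_mul_inA (a b : 𝒜) : usnd P (inA P a * inA P b) = a * b := by
  change ((Unitization.inr a : Unitization ℂ 𝒜) * (Unitization.inr b : Unitization ℂ 𝒜)).snd = a * b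
  rw [← Unitization.inr_mul]
  rfl

/-- augmentation of the completion -/
noncomputable def chiC : CP P →L[ℂ] ℂ := ext P (fstA P)
/-- `E` on the completion -/
noncomputable def EC : CP P →L[ℂ] L := ext P (EA P)
/-- `H` on the completion -/
noncomputable def HC : CP P →L[ℂ] L := ext P (HA P)
/-- `Y` on the completion -/
noncomputable def YC : CP P →L[ℂ] L := ext P (YA P)

lemma chiC_coe (x : AU P) : chiC P (x : CP P) = ufst P x := ext_coe P _ x
lemma EC_coe (x : AU P) : EC P (x : CP P) = P.E (usnd P x) := ext_coe P _ x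
lemma HC_coe (x : AU P) : HC P (x : CP P) = P.H (usnd P x) := ext_coe P _ x
lemma YC_coe (x : AU P) : YC P (x : CP P) = P.Y (usnd P x) := ext_coe P _ x

/-- projection to the augmentation ideal -/
noncomputable def prC (c : CP P) : CP P := c - chiC P c • (1 : CP P)

lemma prC_continuous : Continuous (prC P) := by
  unfold prC
  fun_prop

lemma prC_coe (x : AU P) : prC P (x : CP P) = ((inA P (usnd P x) : AU P) : CP P) := by
  rw [prC, chiC_coe, ← decomp, Completion.coe_sub, Completion.coe_smul, Completion.coe_one]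
  rfl

lemma prC_of_chi {c : CP P} (h : chiC P c = 0) : prC P c = c := by
  rw [prC, h, zero_smul, sub_zero]

/-- the Banach algebra data attached to `P` -/
noncomputable def toData : Data (CP P) L where
  χ := chiC P
  χ_mul a b := by
    induction a, b using Completion.induction_on₂ with
    | hp => exact isClosed_eq (by fun_prop) (by fun_prop)
    | ih x y =>
      rw [← Completion.coe_mul, chiC_coe, chiC_coe, chiC_coe]
      rfl
  χ_one := by
    rw [← Completion.coe_one, chiC_coe]; rfl
  E := EC P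
  H := HC P
  Y := YC P
  ω := P.ω
  lam := P.ω.comp (HC P)
  EE a b := by
    have : ∀ a b, EC P a * EC P b = EC P b * EC P a := by
      intro a b
      induction a, b using Completion.induction_on₂ with
      | hp => exact isClosed_eq (by fun_prop) (by fun_prop)
      | ih x y => rw [EC_coe, EC_coe]; exact (P.EE _ _).eq
    exact this a b
  YY a b := by
    have : ∀ a b, YC P a * YC P b = YC P b * YC P a := by
      intro a b
      induction a, b using Completion.induction_on₂ with
      | hp => exact isClosed_eq (by fun_prop) (by fun_prop)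
      | ih x y => rw [YC_coe, YC_coe]; exact (P.YY _ _).eq
    exact this a b
  HE a b ha hb := by
    have : ∀ a b, HC P a * EC P b - EC P b * HC P a = (2 : ℂ) • EC P (prC P a * prC P b) := by
      intro a b
      induction a, b using Completion.induction_on₂ with
      | hp =>
        have := prC_continuous P
        exact isClosed_eq (by fun_prop) (by fun_prop)
      | ih x y =>
        rw [prC_coe, prC_coe, ← Completion.coe_mul, HC_coe, EC_coe, EC_coe, usnd_mul_inA]
        exact P.HE _ _
    rw [this, prC_of_chi P ha, prC_of_chi P hb]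
  HY a b ha hb := by
    have : ∀ a b, HC P a * YC P b - YC P b * HC P a = -((2 : ℂ) • YC P (prC P a * prC P b)) := by
      intro a b
      induction a, b using Completion.induction_on₂ with
      | hp =>
        have := prC_continuous P
        exact isClosed_eq (by fun_prop) (by fun_prop)
      | ih x y =>
        rw [prC_coe, prC_coe, ← Completion.coe_mul, HC_coe, YC_coe, YC_coe, usnd_mul_inA]
        exact P.HY _ _
    rw [this, prC_of_chi P ha, prC_of_chi P hb]
  EY a b ha hb := by
    have : ∀ a b, EC P a * YC P b - YC P b * EC P a = HC P (prC P a * prC P b) := by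
      intro a b
      induction a, b using Completion.induction_on₂ with
      | hp =>
        have := prC_continuous P
        exact isClosed_eq (by fun_prop) (by fun_prop)
      | ih x y =>
        rw [prC_coe, prC_coe, ← Completion.coe_mul, HC_coe, YC_coe, EC_coe, usnd_mul_inA]
        exact P.EY _ _
    rw [this, prC_of_chi P ha, prC_of_chi P hb]
  ωE T a _ := by
    have h1 : Continuous fun a => P.ω (T * EC P a) := by fun_prop
    have : ∀ a, P.ω (T * EC P a) = 0 := by
      intro a
      induction a using Completion.induction_on with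
      | hp => exact isClosed_eq h1 continuous_const
      | ih x => rw [EC_coe]; exact P.ωE _ _
    exact this a
  ωY T a _ := by
    have h1 : Continuous fun a => P.ω (YC P a * T) := by fun_prop
    have : ∀ a, P.ω (YC P a * T) = 0 := by
      intro a
      induction a using Completion.induction_on with
      | hp => exact isClosed_eq h1 continuous_const
      | ih x => rw [YC_coe]; exact P.ωY _ _
    exact this a
  ωH T a _ := by
    have h1 : Continuous fun a => P.ω (HC P a * T) := by fun_prop
    have h2 : Continuous fun a => P.ω (HC P a) * P.ω T := by fun_prop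
    have : ∀ a, P.ω (HC P a * T) = P.ω (HC P a) * P.ω T := by
      intro a
      induction a using Completion.induction_on with
      | hp => exact isClosed_eq h1 h2
      | ih x => rw [HC_coe]; exact P.ωH _ _
    exact this a
  ω1 := P.ω1

/-- the map of the algebra to the Banach algebra -/
noncomputable def toC (a : 𝒜) : CP P := (inA P a : AU P)

lemma toC_chi (a : 𝒜) : (toData P).χ (toC P a) = 0 := chiC_coe P _

lemma toC_lam (a : 𝒜) : (toData P).lam (toC P a) = P.ω (P.H a) := by
  change P.ω (HC P (toC P a)) = _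
  rw [toC, HC_coe]; rfl

lemma inA_add (a b : 𝒜) : inA P (a + b) = inA P a + inA P b :=
  Unitization.inr_add ℂ a b

lemma inA_sub (a b : 𝒜) : inA P (a - b) = inA P a - inA P b :=
  Unitization.inr_sub ℂ a b

lemma inA_smul (z : ℂ) (a : 𝒜) : inA P (z • a) = z • inA P a :=
  Unitization.inr_smul ℂ z a

lemma inA_mul (a b : 𝒜) : inA P (a * b) = inA P a * inA P b :=
  Unitization.inr_mul ℂ a b

lemma toC_add (a b : 𝒜) : toC P (a + b) = toC P a + toC P b := by
  rw [toC, inA_add, Completion.coe_add]; rfl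

lemma toC_sub (a b : 𝒜) : toC P (a - b) = toC P a - toC P b := by
  rw [toC, inA_sub, Completion.coe_sub]; rfl

lemma toC_smul (z : ℂ) (a : 𝒜) : toC P (z • a) = z • toC P a := by
  rw [toC, inA_smul, Completion.coe_smul]; rfl

lemma toC_mul (a b : 𝒜) : toC P (a * b) = toC P a * toC P b := by
  rw [toC, inA_mul, Completion.coe_mul]; rfl

lemma norm_toC (a : 𝒜) : ‖toC P a‖ = 2 * (‖P.E a‖ + ‖P.H a‖ + ‖P.Y a‖) := by
  rw [toC, Completion.norm_coe, norm_eq]
  have h1 : ufst P (inA P a) = 0 := rfl
  have h2 : usnd P (inA P a) = a := rfl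
  rw [h1, h2, norm_zero, zero_add]

lemma toC_continuous [TopologicalSpace 𝒜] (hE : Continuous P.E) (hH : Continuous P.H)
    (hY : Continuous P.Y) : Continuous (toC P) := by
  rw [continuous_iff_continuousAt]
  intro a
  rw [ContinuousAt, tendsto_iff_norm_sub_tendsto_zero]
  have h1 : (fun x => ‖toC P x - toC P a‖) =
      fun x => 2 * (‖P.E x - P.E a‖ + ‖P.H x - P.H a‖ + ‖P.Y x - P.Y a‖) := by
    funext x
    rw [← toC_sub, norm_toC, map_sub, map_sub, map_sub]
  rw [h1]
  have h2 : Continuous (fun x => 2 * (‖P.E x - P.E a‖ + ‖P.H x - P.H a‖ + ‖P.Y x - P.Y a‖)) := by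
    fun_prop
  have h3 := h2.tendsto a
  simpa using h3

/-- **General theorem.** -/
theorem exists_F [TopologicalSpace 𝒜] (hE : Continuous P.E) (hH : Continuous P.H)
    (hY : Continuous P.Y) : ∃ F : 𝒜 → ℂ,
      (∀ a b c : 𝒜, (1 + (a : Unitization ℂ 𝒜)) * (1 + (b : Unitization ℂ 𝒜)) =
        1 + (c : Unitization ℂ 𝒜) → F c = F a * F b) ∧
      (Continuous F ∧ ∀ a b : 𝒜, Differentiable ℂ fun z : ℂ => F (a + z • b)) ∧
      (∀ a c : 𝒜, HasSum (fun n : ℕ =>
        (((n.factorial : ℂ)⁻¹) • (a : Unitization ℂ 𝒜) ^ n).toProd) ((1 : ℂ), c) →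
        F c = Complex.exp (P.ω (P.H a))) := by
  refine ⟨fun a => (toData P).f (toC P a), ?_, ⟨?_, ?_⟩, ?_⟩
  · intro a b c h
    have h1 : (c : Unitization ℂ 𝒜) = ((a + b + a * b : 𝒜) : Unitization ℂ 𝒜) := by
      have h2 : (1 + (a : Unitization ℂ 𝒜)) * (1 + (b : Unitization ℂ 𝒜)) =
          1 + ((a + b + a * b : 𝒜) : Unitization ℂ 𝒜) := by
        rw [Unitization.inr_add, Unitization.inr_add, Unitization.inr_mul]; ring
      rw [h2] at h
      exact (add_left_cancel h).symm
    have h2 : c = a + b + a * b := Unitization.inr_injective h1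
    change (toData P).f (toC P c) = (toData P).f (toC P a) * (toData P).f (toC P b)
    rw [h2, toC_add, toC_add, toC_mul]
    exact (toData P).f_mul (toC_chi P a) (toC_chi P b)
  · exact (toData P).f_differentiable.continuous.comp (toC_continuous P hE hH hY)
  · intro a b
    have h1 : (fun z : ℂ => (toData P).f (toC P (a + z • b))) =
        fun z : ℂ => (toData P).f (toC P a + z • toC P b) := by
      funext z
      rw [toC_add, toC_smul]
    change Differentiable ℂ (fun z : ℂ => (toData P).f (toC P (a + z • b)))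
    rw [h1]
    exact (toData P).f_differentiable.comp
      ((differentiable_const _).add (differentiable_id.smul_const _))
  · intro a c h
    have hcont := toC_continuous P hE hH hY
    let Φ : ℂ × 𝒜 → CP P := fun p => p.1 • (1 : CP P) + toC P p.2
    have hΦc : Continuous Φ := by
      have : Continuous fun p : ℂ × 𝒜 => toC P p.2 := hcont.comp continuous_snd
      exact (continuous_fst.smul continuous_const).add this
    let ΦH : (ℂ × 𝒜) →+ CP P :=
      { toFun := Φ
        map_zero' := by
          have : toC P (0 : 𝒜) = 0 := by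
            have h0 := toC_smul P (0 : ℂ) (0 : 𝒜)
            rwa [zero_smul, zero_smul] at h0
          simp [Φ, this]
        map_add' := by
          intro p q
          simp only [Φ, Prod.fst_add, Prod.snd_add]
          rw [toC_add, add_smul]; abel }
    have hmap := h.map ΦH hΦc
    have hΦ : ∀ x : Unitization ℂ 𝒜, ΦH x.toProd = ((show AU P from x : AU P) : CP P) := by
      intro x
      have key : ∀ y : AU P, (y : CP P) = ufst P y • (1 : CP P) + toC P (usnd P y) := by
        intro y
        have h2 := decomp P y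
        rw [sub_eq_iff_eq_add] at h2
        have h3 : fstA P y = ufst P y := rfl
        rw [h3] at h2
        have h4 : ((y : AU P) : CP P) =
            ((inA P (usnd P y) + ufst P y • (1 : AU P) : AU P) : CP P) :=
          congrArg _ h2
        rw [h4, Completion.coe_add, Completion.coe_smul, Completion.coe_one, add_comm]
        rfl
      exact (key x).symm
    have hfun : (⇑ΦH ∘ fun n : ℕ =>
        (((n.factorial : ℂ)⁻¹) • (a : Unitization ℂ 𝒜) ^ n).toProd) =
        fun n : ℕ => ((n.factorial : ℂ)⁻¹) • (toC P a) ^ n := by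
      funext n
      rw [Function.comp_apply, hΦ]
      have h1 : (show AU P from ((n.factorial : ℂ)⁻¹) • (a : Unitization ℂ 𝒜) ^ n) =
          ((n.factorial : ℂ)⁻¹) • (inA P a) ^ n := rfl
      rw [h1, Completion.coe_smul]
      congr 1
      have hpow : ∀ m : ℕ, (((inA P a) ^ m : AU P) : CP P) = (toC P a) ^ m := by
        intro m
        induction m with
        | zero => rw [pow_zero, pow_zero, Completion.coe_one]
        | succ m ih => rw [pow_succ, pow_succ, Completion.coe_mul, ih]; rfl
      exact hpow n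
    rw [hfun] at hmap
    have hexp : HasSum (fun n : ℕ => ((n.factorial : ℂ)⁻¹) • (toC P a) ^ n)
        (NormedSpace.exp (toC P a)) := NormedSpace.exp_series_hasSum_exp' (toC P a)
    have heq : ΦH ((1 : ℂ), c) = NormedSpace.exp (toC P a) := hmap.unique hexp
    have h1 : (1 : CP P) + toC P c = NormedSpace.exp (toC P a) := by
      rw [← heq]
      change _ = (1 : ℂ) • (1 : CP P) + toC P c
      rw [one_smul]
    have h2 : toC P c = NormedSpace.exp (toC P a) - 1 := by rw [← h1]; abel
    change (toData P).f (toC P c) = _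
    rw [h2, (toData P).f_exp (toC_chi P a), toC_lam]

end Pool.Agent.Helper31.HW
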