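import Pool.Agent.Helper31.HWBanach

/-!
# Highest weight functionals: the Banach algebra case, main argument
-/

open NormedSpace

namespace Pool.Agent.Helper31.HW

/-- A commutative Banach algebra `C` with augmentation `χ`, operators `E, H, Y` with values in a
Banach algebra `L`, satisfying the `sl_2` current relations on the augmentation ideal, and a
functional `ω` on `L` which behaves like a highest weight vector state. -/
structure Data (C L : Type*) [NormedCommRing C] [NormedAlgebra ℂ C]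
    [NormedRing L] [NormedAlgebra ℂ L] where
  χ : C →L[ℂ] ℂ
  χ_mul : ∀ a b, χ (a * b) = χ a * χ b
  χ_one : χ 1 = 1
  E : C →L[ℂ] L
  H : C →L[ℂ] L
  Y : C →L[ℂ] L
  ω : L →L[ℂ] ℂ
  lam : C →L[ℂ] ℂ
  EE : ∀ a b, Commute (E a) (E b)
  YY : ∀ a b, Commute (Y a) (Y b)
  HE : ∀ a b, χ a = 0 → χ b = 0 → H a * E b - E b * H a = (2 : ℂ) • E (a * b)
  HY : ∀ a b, χ a = 0 → χ b = 0 → H a * Y b - Y b * H a = -((2 : ℂ) • Y (a * b))
  EY : ∀ a b, χ a = 0 → χ b = 0 → E a * Y b - Y b * E a = H (a * b)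
  ωE : ∀ T a, χ a = 0 → ω (T * E a) = 0
  ωY : ∀ T a, χ a = 0 → ω (Y a * T) = 0
  ωH : ∀ T a, χ a = 0 → ω (H a * T) = lam a * ω T
  ω1 : ω 1 = 1

variable {C L : Type*} [NormedCommRing C] [NormedAlgebra ℂ C] [CompleteSpace C]
  [NormedRing L] [NormedAlgebra ℂ L] [CompleteSpace L]

namespace Data

variable (D : Data C L)

lemma χ_mul_left {a : C} (b : C) (h : D.χ a = 0) : D.χ (a * b) = 0 := by
  rw [D.χ_mul, h, zero_mul]

lemma χ_mul_right {a : C} (b : C) (h : D.χ a = 0) : D.χ (b * a) = 0 := by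
  rw [D.χ_mul, h, mul_zero]

lemma R1 {x b : C} (hx : D.χ x = 0) (hb : D.χ b = 0) :
    exp (D.E x) * D.Y b = (D.Y b + D.H (x * b) - D.E (x * x * b)) * exp (D.E x) := by
  have h := exp_conj (D.E x) (D.Y b) (D.H (x * b)) (-((2 : ℂ) • D.E (x * x * b))) (D.EY x b hx hb)
    (by
      have := D.HE (x * b) x (D.χ_mul_left b hx) hx
      have e : x * b * x = x * x * b := by ring
      rw [e] at this
      rw [← this]; abel)
    (by
      rw [mul_neg, neg_mul, mul_smul_comm, smul_mul_assoc, (D.EE x (x * x * b)).eq]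
      simp)
  rw [h]
  congr 1
  rw [smul_neg, smul_smul]
  norm_num
  abel

lemma R2 {x b : C} (hx : D.χ x = 0) (hb : D.χ b = 0) :
    exp (D.E x) * D.H b = (D.H b - (2 : ℂ) • D.E (x * b)) * exp (D.E x) := by
  have h := exp_conj (D.E x) (D.H b) (-((2 : ℂ) • D.E (x * b))) 0
    (by
      have := D.HE b x hb hx
      rw [mul_comm b x] at this
      rw [← this]; abel)
    (by
      rw [mul_neg, neg_mul, mul_smul_comm, smul_mul_assoc, (D.EE x (x * b)).eq]
      simp)
    (by simp)
  rw [h, smul_zero, add_zero, sub_eq_add_neg]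

lemma R4 {y b : C} (hy : D.χ y = 0) (hb : D.χ b = 0) :
    exp (D.Y y) * D.E b = (D.E b - D.H (b * y) - D.Y (b * y * y)) * exp (D.Y y) := by
  have h := exp_conj (D.Y y) (D.E b) (-(D.H (b * y))) (-((2 : ℂ) • D.Y (b * y * y)))
    (by rw [← D.EY b y hb hy]; abel)
    (by
      have := D.HY (b * y) y (D.χ_mul_left y hb) hy
      rw [← this, mul_neg, neg_mul]; abel)
    (by
      rw [mul_neg, neg_mul, mul_smul_comm, smul_mul_assoc, (D.YY y (b * y * y)).eq]
      simp)
  rw [h]
  congr 1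
  rw [smul_neg, smul_smul]
  norm_num
  abel

/-- the matrix coefficient `Ψ(x, y)` -/
noncomputable def Psi (x y : C) : ℂ := D.ω (exp (D.E x) * exp (D.Y y))

lemma key {x y γ u : C} (hx : D.χ x = 0) (hy : D.χ y = 0) (hγ : D.χ γ = 0)
    (hu : (1 + x * y) * u = 1) :
    D.ω (D.E γ * (exp (D.E x) * exp (D.Y y))) = D.lam (γ * y * u) * D.Psi x y := by
  set β : C := γ * u * u with hβ
  have hβ0 : D.χ β = 0 := D.χ_mul_left _ (D.χ_mul_left _ hγ)
  have hβy : D.χ (β * y) = 0 := D.χ_mul_left _ hβ0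
  have hβyy : D.χ (β * y * y) = 0 := D.χ_mul_left _ hβy
  set W : L := exp (D.E x) * exp (D.Y y) with hW
  have e1 : W * D.E β = D.E β * W - (D.H (β * y) - (2 : ℂ) • D.E (x * (β * y))) * W
      - (D.Y (β * y * y) + D.H (x * (β * y * y)) - D.E (x * x * (β * y * y))) * W := by
    rw [hW, mul_assoc, D.R4 hy hβ0, ← mul_assoc, mul_sub, mul_sub, D.R2 hx hβy, D.R1 hx hβyy]
    have : exp (D.E x) * D.E β = D.E β * exp (D.E x) := (commute_exp (D.EE x β)).eq
    rw [this]
    simp only [sub_mul, add_mul, mul_assoc]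
  have e2 : D.E β + (2 : ℂ) • D.E (x * (β * y)) + D.E (x * x * (β * y * y)) = D.E γ := by
    rw [← map_smul, ← map_add, ← map_add]
    congr 1
    calc β + (2 : ℂ) • (x * (β * y)) + x * x * (β * y * y)
        = γ * ((1 + x * y) * u) * ((1 + x * y) * u) := by rw [hβ, two_smul]; ring
      _ = γ := by rw [hu, mul_one, mul_one]
  have e3 : D.H (β * y) + D.H (x * (β * y * y)) = D.H (γ * y * u) := by
    rw [← map_add]
    congr 1
    have : γ * y * u = γ * y * u * ((1 + x * y) * u) := by rw [hu, mul_one]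
    rw [this, hβ]; ring
  have e4 : W * D.E β = D.E γ * W - D.H (γ * y * u) * W - D.Y (β * y * y) * W := by
    rw [e1, ← e2, ← e3]
    simp only [sub_mul, add_mul]
    abel
  have e5 := congrArg D.ω e4
  rw [D.ωE W β hβ0, map_sub, map_sub, D.ωY _ _ hβyy,
    D.ωH _ _ (D.χ_mul_left _ (D.χ_mul_left _ hγ)), sub_zero] at e5
  exact (sub_eq_zero.mp e5.symm)

lemma key_y {x y y' u : C} (hx : D.χ x = 0) (hy : D.χ y = 0) (hy' : D.χ y' = 0)
    (hu : (1 + x * y) * u = 1) :
    D.ω (exp (D.E x) * (exp (D.Y y) * D.Y y')) = D.lam (x * y' * u) * D.Psi x y := by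
  have h1 : exp (D.Y y) * D.Y y' = D.Y y' * exp (D.Y y) := (commute_exp (D.YY y y')).eq
  rw [h1, ← mul_assoc, D.R1 hx hy', mul_assoc]
  have hxxy : D.χ (x * x * y') = 0 := D.χ_mul_right _ hy'
  rw [sub_mul, add_mul, map_sub, map_add, D.ωY _ _ hy', D.ωH _ _ (D.χ_mul_right _ hy'),
    D.key hx hy hxxy hu, zero_add]
  have e : x * y' * u = x * y' - x * x * y' * y * u := by
    have : x * y' = x * y' * ((1 + x * y) * u) := by rw [hu, mul_one]
    nth_rw 2 [this]
    ring
  rw [e, map_sub, sub_mul]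
  rfl

/-- `y(b) = ((1+b) e^{-b} - 1)/b` -/
noncomputable def yy (b : C) : C := exp (-b) - phi (-b)

omit [CompleteSpace C] in
lemma one_add_mul_yy_aux (b : C) (h : b * phi (-b) = 1 - exp (-b)) :
    1 + b * yy b = (1 + b) * exp (-b) := by
  rw [yy, mul_sub, h]; ring

lemma one_add_mul_yy (b : C) : 1 + b * yy b = (1 + b) * exp (-b) := by
  apply one_add_mul_yy_aux
  have := mul_phi (-b)
  rw [neg_mul] at this
  rw [← neg_sub, ← this, neg_neg]

lemma yy_zero : yy (0 : C) = 0 := by
  rw [yy, neg_zero, exp_zero, phi_zero, sub_self]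

lemma χ_exp {b : C} (hb : D.χ b = 0) : D.χ (exp b) = 1 := by
  have h1 : HasSum (fun n : ℕ => D.χ (((n.factorial : ℂ)⁻¹) • b ^ n)) (D.χ (exp b)) :=
    (exp_series_hasSum_exp' (𝕂 := ℂ) b).mapL D.χ
  have h2 : ∀ n : ℕ, n ≠ 0 → D.χ (((n.factorial : ℂ)⁻¹) • b ^ n) = 0 := by
    intro n hn
    obtain ⟨m, rfl⟩ := Nat.exists_eq_succ_of_ne_zero hn
    rw [map_smul, Nat.succ_eq_add_one, pow_succ, D.χ_mul_right _ hb, smul_zero]
  have h3 := hasSum_single (f := fun n : ℕ => D.χ (((n.factorial : ℂ)⁻¹) • b ^ n)) 0 h2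
  have h4 := h1.unique h3
  rw [h4]
  simp [D.χ_one]

lemma χ_phi {b : C} (hb : D.χ b = 0) : D.χ (phi b) = 1 := by
  have h1 : HasSum (fun n : ℕ => D.χ (phiCoeff n • b ^ n)) (D.χ (phi b)) :=
    (phi_hasSum b).mapL D.χ
  have h2 : ∀ n : ℕ, n ≠ 0 → D.χ (phiCoeff n • b ^ n) = 0 := by
    intro n hn
    obtain ⟨m, rfl⟩ := Nat.exists_eq_succ_of_ne_zero hn
    rw [map_smul, Nat.succ_eq_add_one, pow_succ, D.χ_mul_right _ hb, smul_zero]
  have h3 := hasSum_single (f := fun n : ℕ => D.χ (phiCoeff n • b ^ n)) 0 h2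
  have h4 := h1.unique h3
  rw [h4]
  simp [D.χ_one, phiCoeff]

lemma χ_yy {b : C} (hb : D.χ b = 0) : D.χ (yy b) = 0 := by
  have hb' : D.χ (-b) = 0 := by rw [map_neg, hb, neg_zero]
  rw [yy, map_sub, D.χ_exp hb', D.χ_phi hb', sub_self]

omit [CompleteSpace L] in
lemma yy_differentiable : Differentiable ℂ (yy : C → C) := by
  have hn : Differentiable ℂ (fun b : C => -b) := differentiable_id.neg
  have h1 : Differentiable ℂ (fun b : C => exp (-b)) := exp_differentiable.comp hn
  have h2 : Differentiable ℂ (fun b : C => phi (-b)) := phi_differentiable.comp hn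
  exact h1.sub h2

/-- the entire function `F(1 + b)` -/
noncomputable def f (b : C) : ℂ := Complex.exp (D.lam b) * D.Psi b (yy b)

lemma f_zero : D.f 0 = 1 := by
  rw [f, Psi, yy_zero, map_zero, map_zero, map_zero, exp_zero, one_mul, D.ω1,
    Complex.exp_zero, one_mul]

lemma f_differentiable : Differentiable ℂ D.f := by
  have h1 : Differentiable ℂ (fun b : C => Complex.exp (D.lam b)) := D.lam.differentiable.cexp
  have h2 : Differentiable ℂ (fun b : C => exp (D.E b)) :=
    exp_differentiable.comp D.E.differentiable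
  have h3 : Differentiable ℂ (fun b : C => exp (D.Y (yy b))) :=
    exp_differentiable.comp (D.Y.differentiable.comp (yy_differentiable))
  have h4 : Differentiable ℂ (fun b : C => D.ω (exp (D.E b) * exp (D.Y (yy b)))) :=
    D.ω.differentiable.comp (h2.mul h3)
  exact h1.mul h4

/-- the logarithmic derivative of `f` along a curve -/
lemma f_ode {b : ℂ → C} {b' u : C} {z : ℂ} (hb : HasDerivAt b b' z) (hb0 : ∀ w, D.χ (b w) = 0)
    (hu : (1 + b z) * u = 1) :
    HasDerivAt (fun w => D.f (b w)) (D.lam (b' * u) * D.f (b z)) z := by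
  -- derivative of `yy ∘ b`
  obtain ⟨y', hy'⟩ : ∃ y', HasDerivAt (fun w => yy (b w)) y' z :=
    ⟨_, ((yy_differentiable (b z)).hasFDerivAt).comp_hasDerivAt z hb⟩
  have hb'0 : D.χ b' = 0 := by
    have h1 : HasDerivAt (fun w => D.χ (b w)) (D.χ b') z := D.χ.hasFDerivAt.comp_hasDerivAt z hb
    have h2 : HasDerivAt (fun w => D.χ (b w)) 0 z := by
      have : (fun w => D.χ (b w)) = fun _ => 0 := funext hb0
      rw [this]; exact hasDerivAt_const z 0
    exact h1.unique h2
  have hy0 : ∀ w, D.χ (yy (b w)) = 0 := fun w => D.χ_yy (hb0 w)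
  have hy'0 : D.χ y' = 0 := by
    have h1 : HasDerivAt (fun w => D.χ (yy (b w))) (D.χ y') z :=
      D.χ.hasFDerivAt.comp_hasDerivAt z hy'
    have h2 : HasDerivAt (fun w => D.χ (yy (b w))) 0 z := by
      have : (fun w => D.χ (yy (b w))) = fun _ => 0 := funext hy0
      rw [this]; exact hasDerivAt_const z 0
    exact h1.unique h2
  -- the product rule for `b * yy b = (1 + b) e^{-b} - 1`
  have hprod : b' * yy (b z) + b z * y' = -(b z * b' * exp (-(b z))) := by
    have h1 : HasDerivAt (fun w => b w * yy (b w)) (b' * yy (b z) + b z * y') z := hb.mul hy'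
    have h2 : HasDerivAt (fun w => (1 + b w) * exp (-(b w)) - 1)
        (b' * exp (-(b z)) + (1 + b z) * (exp (-(b z)) * (-b'))) z := by
      have h3 : HasDerivAt (fun w => exp (-(b w))) (exp (-(b z)) * (-b')) z :=
        hasDerivAt_exp_comm hb.neg (fun w => Commute.all _ _)
      exact ((hb.const_add 1).mul h3).sub_const 1
    have h4 : (fun w => b w * yy (b w)) = fun w => (1 + b w) * exp (-(b w)) - 1 := by
      funext w
      rw [← one_add_mul_yy]; ring
    rw [h4] at h1
    rw [h1.unique h2]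
    ring
  have hU : (1 + b z * yy (b z)) * (u * exp (b z)) = 1 := by
    rw [one_add_mul_yy]
    have : (1 + b z) * exp (-b z) * (u * exp (b z)) = ((1 + b z) * u) * (exp (-b z) * exp (b z)) := by
      ring
    rw [this, hu, exp_neg_mul, one_mul]
  have hE : HasDerivAt (fun w => exp (D.E (b w))) (exp (D.E (b z)) * D.E b') z :=
    hasDerivAt_exp_comm (D.E.hasFDerivAt.comp_hasDerivAt z hb) (fun w => D.EE _ _)
  have hY : HasDerivAt (fun w => exp (D.Y (yy (b w)))) (exp (D.Y (yy (b z))) * D.Y y') z :=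
    hasDerivAt_exp_comm (D.Y.hasFDerivAt.comp_hasDerivAt z hy') (fun w => D.YY _ _)
  have hPsi : HasDerivAt (fun w => D.Psi (b w) (yy (b w)))
      (D.lam (-(b z * b' * u)) * D.Psi (b z) (yy (b z))) z := by
    have h1 : HasDerivAt (fun w => D.ω (exp (D.E (b w)) * exp (D.Y (yy (b w)))))
        (D.ω (exp (D.E (b z)) * D.E b' * exp (D.Y (yy (b z)))
          + exp (D.E (b z)) * (exp (D.Y (yy (b z))) * D.Y y'))) z :=
      D.ω.hasFDerivAt.comp_hasDerivAt z (hE.mul hY)
    refine h1.congr_deriv ?_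
    have h2 : exp (D.E (b z)) * D.E b' * exp (D.Y (yy (b z))) =
        D.E b' * (exp (D.E (b z)) * exp (D.Y (yy (b z)))) := by
      rw [(commute_exp (D.EE (b z) b')).eq, mul_assoc]
    rw [map_add, h2, D.key (hb0 z) (hy0 z) hb'0 hU, D.key_y (hb0 z) (hy0 z) hy'0 hU, ← add_mul,
      ← map_add]
    congr 2
    have : b' * yy (b z) * (u * exp (b z)) + b z * y' * (u * exp (b z)) =
        (b' * yy (b z) + b z * y') * (u * exp (b z)) := by ring
    rw [this, hprod]
    have : -(b z * b' * exp (-b z)) * (u * exp (b z)) =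
        -(b z * b' * u) * (exp (-b z) * exp (b z)) := by ring
    rw [this, exp_neg_mul, mul_one]
  have hl : HasDerivAt (fun w => Complex.exp (D.lam (b w)))
      (Complex.exp (D.lam (b z)) * D.lam b') z :=
    (D.lam.hasFDerivAt.comp_hasDerivAt z hb).cexp
  have hfin := hl.mul hPsi
  refine hfin.congr_deriv ?_
  have : b' * u = b' - b z * b' * u := by
    have h1 : b' = b' * ((1 + b z) * u) := by rw [hu, mul_one]
    nth_rw 2 [h1]
    ring
  rw [this, f, map_sub, map_neg]
  ring

/-- `f (e^b - 1) = e^{λ(b)}` -/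
lemma f_exp {b : C} (hb : D.χ b = 0) : D.f (exp b - 1) = Complex.exp (D.lam b) := by
  let c : ℂ → C := fun z => exp (z • b) - 1
  have hc : ∀ z, HasDerivAt c (b * exp (z • b)) z := fun z =>
    (hasDerivAt_exp_smul_const' b z).sub_const 1
  have hc0 : ∀ z, D.χ (c z) = 0 := by
    intro z
    have : D.χ (z • b) = 0 := by rw [map_smul, hb, smul_zero]
    simp only [c]
    rw [map_sub, D.χ_exp this, D.χ_one, sub_self]
  have hode : ∀ z, HasDerivAt (fun w => D.f (c w)) (D.lam b * D.f (c z)) z := by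
    intro z
    have h1 := D.f_ode (u := exp (-(z • b))) (hc z) hc0 (by
      simp only [c]
      rw [add_sub_cancel, exp_mul_neg])
    refine h1.congr_deriv ?_
    rw [mul_assoc, exp_mul_neg, mul_one]
  let g : ℂ → ℂ := fun z => Complex.exp (-(z * D.lam b)) * D.f (c z)
  have hg : ∀ z, HasDerivAt g 0 z := by
    intro z
    have h1 : HasDerivAt (fun z : ℂ => Complex.exp (-(z * D.lam b)))
        (Complex.exp (-(z * D.lam b)) * (-(1 * D.lam b))) z :=
      ((hasDerivAt_id z).mul_const (D.lam b)).neg.cexp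
    have h2 := h1.mul (hode z)
    refine h2.congr_deriv ?_
    ring
  have hconst : g 1 = g 0 :=
    is_const_of_deriv_eq_zero (fun t => (hg t).differentiableAt) (fun t => (hg t).deriv) 1 0
  simp only [g, c, one_smul, zero_smul, exp_zero, sub_self, zero_mul, neg_zero, Complex.exp_zero,
    one_mul, D.f_zero] at hconst
  have h3 : Complex.exp (D.lam b) * (Complex.exp (-(D.lam b)) * D.f (exp b - 1)) =
      Complex.exp (D.lam b) := by rw [hconst, mul_one]
  rwa [← mul_assoc, ← Complex.exp_add, add_neg_cancel, Complex.exp_zero, one_mul] at h3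

/-- multiplicativity -/
lemma f_mul {a b : C} (ha : D.χ a = 0) (hb : D.χ b = 0) :
    D.f (a + b + a * b) = D.f a * D.f b := by
  let c : ℂ → C := fun z => z • a + z • b + (z • a) * (z • b)
  let g₁ : ℂ → ℂ := fun z => D.f (c z)
  let g₂ : ℂ → ℂ := fun z => D.f (z • a) * D.f (z • b)
  have hza : ∀ z, HasDerivAt (fun z : ℂ => z • a) a z := fun z => by
    simpa using (hasDerivAt_id z).smul_const a
  have hzb : ∀ z, HasDerivAt (fun z : ℂ => z • b) b z := fun z => by
    simpa using (hasDerivAt_id z).smul_const b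
  have hc : ∀ z, HasDerivAt c (a + b + (a * (z • b) + (z • a) * b)) z := fun z =>
    ((hza z).add (hzb z)).add ((hza z).mul (hzb z))
  have hc0 : ∀ z, D.χ (c z) = 0 := by
    intro z
    simp only [c]
    rw [map_add, map_add, D.χ_mul, map_smul, map_smul, ha, hb]
    simp
  have ha0 : ∀ z : ℂ, D.χ (z • a) = 0 := fun z => by rw [map_smul, ha, smul_zero]
  have hb0 : ∀ z : ℂ, D.χ (z • b) = 0 := fun z => by rw [map_smul, hb, smul_zero]
  have hg₁ : Differentiable ℂ g₁ := fun z =>
    (D.f_differentiable (c z)).comp z (hc z).differentiableAt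
  have hg₂ : Differentiable ℂ g₂ := fun z =>
    ((D.f_differentiable _).comp z (hza z).differentiableAt).mul
      ((D.f_differentiable _).comp z (hzb z).differentiableAt)
  -- near zero both satisfy the same linear equation
  have hunit : ∀ᶠ z : ℂ in nhds 0, IsUnit (1 + z • a) ∧ IsUnit (1 + z • b) := by
    have h1 : Filter.Tendsto (fun z : ℂ => 1 + z • a) (nhds 0) (nhds (1 : C)) := by
      have : Continuous (fun z : ℂ => 1 + z • a) := by fun_prop
      simpa using this.tendsto 0
    have h2 : Filter.Tendsto (fun z : ℂ => 1 + z • b) (nhds 0) (nhds (1 : C)) := by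
      have : Continuous (fun z : ℂ => 1 + z • b) := by fun_prop
      simpa using this.tendsto 0
    have hop : IsOpen {x : C | IsUnit x} := Units.isOpen
    exact (h1.eventually (hop.mem_nhds isUnit_one)).and (h2.eventually (hop.mem_nhds isUnit_one))
  have hne : ∀ᶠ z : ℂ in nhds 0, g₂ z ≠ 0 := by
    have : g₂ 0 ≠ 0 := by simp [g₂, D.f_zero]
    exact hg₂.continuous.continuousAt.eventually_ne this
  obtain ⟨r, hr, hball⟩ := Metric.eventually_nhds_iff_ball.mp (hunit.and hne)
  have hode : ∀ z ∈ Metric.ball (0 : ℂ) r, ∃ κ : ℂ, HasDerivAt g₁ (κ * g₁ z) z ∧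
      HasDerivAt g₂ (κ * g₂ z) z := by
    intro z hz
    obtain ⟨⟨hua, hub⟩, -⟩ := hball z hz
    obtain ⟨ua, hua⟩ := hua.exists_right_inv
    obtain ⟨ub, hub⟩ := hub.exists_right_inv
    refine ⟨D.lam (a * ua) + D.lam (b * ub), ?_, ?_⟩
    · have h1 := D.f_ode (u := ua * ub) (hc z) hc0 (by
        simp only [c]
        have : (1 + (z • a + z • b + z • a * z • b)) * (ua * ub) =
          ((1 + z • a) * ua) * ((1 + z • b) * ub) := by ring
        rw [this, hua, hub, one_mul])
      refine h1.congr_deriv ?_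
      have : (a + b + (a * z • b + z • a * b)) * (ua * ub) =
          a * ua * ((1 + z • b) * ub) + b * ub * ((1 + z • a) * ua) := by ring
      rw [this, hua, hub, mul_one, mul_one, map_add]
    · have h1 := D.f_ode (u := ua) (hza z) ha0 hua
      have h2 := D.f_ode (u := ub) (hzb z) hb0 hub
      refine (h1.mul h2).congr_deriv ?_
      simp only [g₂]
      ring
  have hquot : ∀ z ∈ Metric.ball (0 : ℂ) r, g₁ z = g₂ z := by
    have hd : ∀ z ∈ Metric.ball (0 : ℂ) r, HasDerivAt (fun w => g₁ w / g₂ w) 0 z := by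
      intro z hz
      obtain ⟨κ, h1, h2⟩ := hode z hz
      have h3 := h1.div h2 (hball z hz).2
      refine h3.congr_deriv ?_
      rw [div_eq_zero_iff]; left; ring
    intro z hz
    have h0 : (0 : ℂ) ∈ Metric.ball (0 : ℂ) r := Metric.mem_ball_self hr
    have hcst : g₁ z / g₂ z = g₁ 0 / g₂ 0 := by
      apply (convex_ball (0 : ℂ) r).is_const_of_fderivWithin_eq_zero (𝕜 := ℂ)
        (f := fun w => g₁ w / g₂ w)
      · intro w hw
        exact (hd w hw).differentiableAt.differentiableWithinAt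
      · intro w hw
        have h1 := (hd w hw).hasFDerivAt.hasFDerivWithinAt (s := Metric.ball (0 : ℂ) r)
        have h2 := h1.fderivWithin (Metric.isOpen_ball.uniqueDiffWithinAt hw)
        rw [h2]
        ext
        simp
      · exact hz
      · exact h0
    have h10 : g₁ 0 = 1 := by simp [g₁, c, D.f_zero]
    have h20 : g₂ 0 = 1 := by simp [g₂, D.f_zero]
    rw [h10, h20, div_one] at hcst
    exact (div_eq_one_iff_eq (hball z hz).2).mp hcst
  have hev : g₁ =ᶠ[nhds 0] g₂ :=
    Metric.eventually_nhds_iff_ball.mpr ⟨r, hr, hquot⟩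
  have han₁ : AnalyticOnNhd ℂ g₁ Set.univ := fun z _ => hg₁.analyticAt z
  have han₂ : AnalyticOnNhd ℂ g₂ Set.univ := fun z _ => hg₂.analyticAt z
  have heq : g₁ = g₂ := AnalyticOnNhd.eq_of_eventuallyEq han₁ han₂ hev
  have := congrFun heq 1
  simpa [g₁, g₂, c] using this

end Data

end Pool.Agent.Helper31.HW
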