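import Pool.Agent.Helper31.HWCompletion

/-!
# Highest weight functionals: from a unitary representation to the abstract data
-/

open scoped InnerProductSpace

namespace Pool.Agent.Helper31.HW

variable {𝒜 : Type*} [NonUnitalCommRing 𝒜] [Module ℂ 𝒜]
variable {ℋ : Type*} [NormedAddCommGroup ℋ] [InnerProductSpace ℂ ℋ] [CompleteSpace ℋ]

/-- the normalized vector state `T ↦ ⟪v, T v⟫ / ⟪v, v⟫` -/
noncomputable def vecState (v : ℋ) : (ℋ →L[ℂ] ℋ) →L[ℂ] ℂ :=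
  (⟪v, v⟫_ℂ)⁻¹ • ((innerSL ℂ v).comp (ContinuousLinearMap.apply ℂ ℋ v))

lemma vecState_apply (v : ℋ) (T : ℋ →L[ℂ] ℋ) : vecState v T = (⟪v, v⟫_ℂ)⁻¹ * ⟪v, T v⟫_ℂ := by
  simp [vecState]

/-- abstract data from operators on a Hilbert space -/
noncomputable def mkPre (E H Y : 𝒜 →ₗ[ℂ] (ℋ →L[ℂ] ℋ)) (v : ℋ) (hv : v ≠ 0) (lam : 𝒜 → ℂ)
    (star' : 𝒜 → 𝒜)
    (EE : ∀ a b, Commute (E a) (E b)) (YY : ∀ a b, Commute (Y a) (Y b))
    (HE : ∀ a b, H a * E b - E b * H a = (2 : ℂ) • E (a * b))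
    (HY : ∀ a b, H a * Y b - Y b * H a = -((2 : ℂ) • Y (a * b)))
    (EY : ∀ a b, E a * Y b - Y b * E a = H (a * b))
    (adjY : ∀ a, ContinuousLinearMap.adjoint (Y a) = E (star' a))
    (adjH : ∀ a, ContinuousLinearMap.adjoint (H a) = H (star' a))
    (hE : ∀ a, E a v = 0) (hH : ∀ a, H a v = lam a • v) : PreData 𝒜 (ℋ →L[ℂ] ℋ) where
  E := E
  H := H
  Y := Y
  ω := vecState v
  EE := EE
  YY := YY
  HE := HE
  HY := HY
  EY := EY
  ωE T a := by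
    rw [vecState_apply]
    change _ * ⟪v, T (E a v)⟫_ℂ = 0
    rw [hE, map_zero, inner_zero_right, mul_zero]
  ωY T a := by
    rw [vecState_apply]
    change _ * ⟪v, Y a (T v)⟫_ℂ = 0
    rw [← ContinuousLinearMap.adjoint_inner_left, adjY, hE, inner_zero_left, mul_zero]
  ωH T a := by
    have hvv : ⟪v, v⟫_ℂ ≠ 0 := by
      rw [Ne, inner_self_eq_zero]; exact hv
    have key : ∀ S : ℋ →L[ℂ] ℋ, ⟪v, H a (S v)⟫_ℂ = (starRingEnd ℂ) (lam (star' a)) * ⟪v, S v⟫_ℂ := by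
      intro S
      rw [← ContinuousLinearMap.adjoint_inner_left, adjH, hH, inner_smul_left]
    rw [vecState_apply, vecState_apply, vecState_apply]
    change _ * ⟪v, H a (T v)⟫_ℂ = _ * ⟪v, H a v⟫_ℂ * _
    rw [key T]
    have h2 := key 1
    change ⟪v, H a v⟫_ℂ = _ * ⟪v, v⟫_ℂ at h2
    rw [h2]
    field_simp
  ω1 := by
    rw [vecState_apply]
    change _ * ⟪v, v⟫_ℂ = 1
    have hvv : ⟪v, v⟫_ℂ ≠ 0 := by
      rw [Ne, inner_self_eq_zero]; exact hv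
    exact inv_mul_cancel₀ hvv

end Pool.Agent.Helper31.HW
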