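import Pool.Agent.Helper75.KT.Loc

/-!
# Exterior powers of projection matrices over `C(X)`
-/

set_option linter.unusedSectionVars false

namespace Pool.Agent.Helper75.KT
open Matrix
open scoped Kronecker Nat ComplexOrder

section CauchyBinet

variable {R : Type*} [CommRing R] {m κ : Type*} [Fintype m] [DecidableEq m] [Fintype κ]
  [DecidableEq κ]

theorem det_mul_rect (A : Matrix m κ R) (B : Matrix κ m R) :
    (A * B).det = ∑ g : m → κ, (A.submatrix id g).det * ∏ i, B (g i) i := by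
  have h1 : (A * B).det = ∑ g : m → κ, ∑ σ : Equiv.Perm m,
      ((Equiv.Perm.sign σ : ℤ) : R) * ∏ i, (A (σ i) (g i) * B (g i) i) := by
    simp only [det_apply', mul_apply, Finset.prod_univ_sum, Finset.mul_sum,
      Fintype.piFinset_univ]
    rw [Finset.sum_comm]
  rw [h1]
  refine Finset.sum_congr rfl fun g _ => ?_
  rw [det_apply', Finset.sum_mul]
  refine Finset.sum_congr rfl fun σ _ => ?_
  rw [Finset.prod_mul_distrib]
  simp only [submatrix_apply, id_eq, mul_assoc]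

/-- Cauchy-Binet, with functions instead of subsets. -/
theorem cauchy_binet (A : Matrix m κ R) (B : Matrix κ m R) :
    ((Fintype.card m)! : R) * (A * B).det
      = ∑ g : m → κ, (A.submatrix id g).det * (B.submatrix g id).det := by
  have h1 : ∀ τ : Equiv.Perm m, (A * B).det
      = ∑ g : m → κ, (A.submatrix id g).det *
        (((Equiv.Perm.sign τ : ℤ) : R) * ∏ i, B (g (τ i)) i) := by
    intro τ
    rw [det_mul_rect]
    rw [← Equiv.sum_comp (Equiv.arrowCongr τ⁻¹ (Equiv.refl κ))]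
    refine Finset.sum_congr rfl fun g _ => ?_
    have e1 : ((Equiv.arrowCongr τ⁻¹ (Equiv.refl κ)) g) = g ∘ τ := by
      funext i
      simp [Equiv.arrowCongr]
      rfl
    rw [e1]
    have e2 : (A.submatrix id (g ∘ τ)).det
        = ((Equiv.Perm.sign τ : ℤ) : R) * (A.submatrix id g).det := by
      have := det_permute' τ (A.submatrix id g)
      rw [← this]
      rfl
    rw [e2]
    simp only [Function.comp_apply]
    ring
  calc ((Fintype.card m)! : R) * (A * B).det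
      = ∑ τ : Equiv.Perm m, (A * B).det := by
        rw [Finset.sum_const, Finset.card_univ, Fintype.card_perm, nsmul_eq_mul]
    _ = ∑ τ : Equiv.Perm m, ∑ g : m → κ, (A.submatrix id g).det *
        (((Equiv.Perm.sign τ : ℤ) : R) * ∏ i, B (g (τ i)) i) :=
        Finset.sum_congr rfl fun τ _ => h1 τ
    _ = ∑ g : m → κ, (A.submatrix id g).det * (B.submatrix g id).det := by
        rw [Finset.sum_comm]
        refine Finset.sum_congr rfl fun g _ => ?_
        rw [← Finset.mul_sum, det_apply' (B.submatrix g id)]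
        rfl

end CauchyBinet

variable {X Y : Type*} [TopologicalSpace X] [CompactSpace X] [TopologicalSpace Y] [CompactSpace Y]
variable {ι κ μ : Type*} [Fintype ι] [Fintype κ] [Fintype μ]
  [DecidableEq ι] [DecidableEq κ] [DecidableEq μ]

/-- `n`-th exterior power of a matrix of functions, indexed by all functions `Fin n → ι`. -/
noncomputable def Lam (n : ℕ) (M : Matrix ι κ C(X, ℂ)) : Matrix (Fin n → ι) (Fin n → κ) C(X, ℂ) :=
  fun f g => ((n.factorial : ℂ)⁻¹) • (M.submatrix f g).det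

theorem Lam_apply (n : ℕ) (M : Matrix ι κ C(X, ℂ)) (f : Fin n → ι) (g : Fin n → κ) :
    Lam n M f g = ((n.factorial : ℂ)⁻¹) • (M.submatrix f g).det := rfl

theorem natCast_mul_eq_smul (n : ℕ) (a : C(X, ℂ)) : (n : C(X, ℂ)) * a = (n : ℂ) • a := by
  ext x; simp

theorem Lam_mul (n : ℕ) (M : Matrix ι κ C(X, ℂ)) (N : Matrix κ μ C(X, ℂ)) :
    Lam n (M * N) = Lam n M * Lam n N := by
  ext1 f h
  have hn : ((n.factorial : ℂ)) ≠ 0 := by exact_mod_cast n.factorial_ne_zero
  have h1 := cauchy_binet (M.submatrix f id) (N.submatrix id h)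
  rw [Fintype.card_fin] at h1
  have h2 : (M.submatrix f id) * (N.submatrix id h) = (M * N).submatrix f h := by
    ext i j; simp [mul_apply]
  rw [h2, natCast_mul_eq_smul] at h1
  rw [mul_apply]
  simp only [Lam_apply]
  have h3 : ∀ g : Fin n → κ, ((n.factorial : ℂ)⁻¹ • (M.submatrix f g).det) *
      ((n.factorial : ℂ)⁻¹ • (N.submatrix g h).det)
      = ((n.factorial : ℂ)⁻¹ * (n.factorial : ℂ)⁻¹) •
        (((M.submatrix f id).submatrix id g).det * ((N.submatrix id h).submatrix g id).det) := by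
    intro g
    rw [smul_mul_smul_comm]
    rfl
  rw [Finset.sum_congr rfl fun g _ => h3 g, ← Finset.smul_sum, ← h1, smul_smul]
  congr 1
  field_simp

theorem Lam_conjT (n : ℕ) (M : Matrix ι κ C(X, ℂ)) : Lam n Mᴴ = (Lam n M)ᴴ := by
  ext1 f g
  rw [conjTranspose_apply, Lam_apply, Lam_apply, ← conjTranspose_submatrix, det_conjTranspose,
    star_smul]
  congr 1
  simp

theorem Lam_isPr (n : ℕ) {p : Matrix ι ι C(X, ℂ)} (hp : IsPr p) : IsPr (Lam n p) := by
  refine ⟨?_, ?_⟩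
  · rw [← Lam_mul, hp.1]
  · rw [← Lam_conjT, hp.2]

theorem Lam_eqv (n : ℕ) {p : Matrix ι ι C(X, ℂ)} {q : Matrix κ κ C(X, ℂ)} (h : Eqv p q) :
    Eqv (Lam n p) (Lam n q) := by
  obtain ⟨v, h1, h2, h3⟩ := h
  refine ⟨Lam n v, ?_, ?_, ?_⟩
  · rw [← Lam_conjT, ← Lam_mul, h1]
  · rw [← Lam_conjT, ← Lam_mul, h2]
  · rw [← Lam_conjT, ← Lam_mul, ← Lam_mul, h3]

theorem rank_eq_of_isPr {p : Matrix ι ι ℂ} (hp : IsPr p) (r : ℕ) (hr : p.trace = r) :
    p.rank = r := by
  have h1 : IsIdempotentElem (toLin' p) := by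
    unfold IsIdempotentElem
    rw [Module.End.mul_eq_comp, ← toLin'_mul, hp.1]
  have h2 := (LinearMap.IsIdempotentElem.isProj_range _ h1).trace
  rw [Matrix.trace_toLin'_eq, hr] at h2
  have h3 : (r : ℂ) = (p.rank : ℂ) := h2
  exact_mod_cast h3.symm

theorem Lam_rank (n r : ℕ) (hn : r < n) {p : Matrix ι ι C(X, ℂ)} (hp : IsPr p)
    (hr : ∀ x, (evM x p).trace = r) : Lam n p = 0 := by
  ext f g x
  rw [Lam_apply]
  have h1 : (p.submatrix f g).det x = ((evM x p).submatrix f g).det := by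
    have : evR x (p.submatrix f g).det = ((evR x).mapMatrix (p.submatrix f g)).det :=
      RingHom.map_det (evR x) _
    exact this
  have h2 : ((evM x p).submatrix f g).det = 0 := by
    by_contra hne
    have hu : IsUnit ((evM x p).submatrix f g) := by
      rw [Matrix.isUnit_iff_isUnit_det]
      exact isUnit_iff_ne_zero.2 hne
    have h3 := rank_of_isUnit _ hu
    have h4 := rank_submatrix_le (evM x p) f g
    rw [h3, rank_eq_of_isPr (hp.evM x) r (hr x), Fintype.card_fin] at h4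
    omega
  simp [h1, h2]

theorem Lam_zero (p : Matrix ι ι C(X, ℂ)) : Lam 0 p = 1 := by
  ext1 f g
  rw [Lam_apply, Subsingleton.elim f g]
  simp

theorem kcl_Lam_zero {p : Matrix ι ι C(X, ℂ)} (_hp : IsPr p) : kcl (Lam 0 p) = 1 := by
  rw [Lam_zero, kcl_one]
  simp

theorem kcl_Lam_one {p : Matrix ι ι C(X, ℂ)} (hp : IsPr p) : kcl (Lam 1 p) = kcl p := by
  have : Lam 1 p = p.submatrix (Equiv.funUnique (Fin 1) ι) (Equiv.funUnique (Fin 1) ι) := by
    ext1 f g
    rw [Lam_apply]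
    simp
  rw [this, kcl_submatrix hp]

theorem Lam_map (n : ℕ) (f : C(Y, X)) (M : Matrix ι κ C(X, ℂ)) :
    (Lam n M).map (pbA f) = Lam n (M.map (pbA f)) := by
  ext1 h g
  rw [map_apply, Lam_apply, Lam_apply]
  have h1 : (pbA f) (M.submatrix h g).det = (((pbA f) : C(X, ℂ) →+* C(Y, ℂ)).mapMatrix
      (M.submatrix h g)).det :=
    RingHom.map_det ((pbA f) : C(X, ℂ) →+* C(Y, ℂ)) _
  rw [map_smul, h1]
  rfl


/-! ### Orthogonal families of partial isometries -/

theorem mul_eq_of_isom {V : Matrix ι κ C(X, ℂ)} {e : Matrix κ κ C(X, ℂ)} (he : IsPr e)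
    (h : Vᴴ * V = e) : V * e = V := by
  have h1 : (V * e - V)ᴴ * (V * e - V) = 0 := by
    rw [conjTranspose_sub, conjTranspose_mul, he.2, Matrix.sub_mul, Matrix.mul_sub, Matrix.mul_sub]
    have a1 : e * Vᴴ * (V * e) = e := by
      rw [Matrix.mul_assoc, ← Matrix.mul_assoc Vᴴ, h, he.1, he.1]
    have a2 : e * Vᴴ * V = e := by rw [Matrix.mul_assoc, h, he.1]
    have a3 : Vᴴ * (V * e) = e := by rw [← Matrix.mul_assoc, h, he.1]
    rw [a1, a2, a3, h]; simp
  have h2 : V * e - V = 0 := by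
    apply evM_ext
    intro x
    have h3 := congrArg (evM x) h1
    rw [evM_mul, evM_conjT, evM_zero] at h3
    rw [evM_zero]
    exact Matrix.conjTranspose_mul_self_eq_zero.1 h3
  exact sub_eq_zero.1 h2

theorem kcl_orth_family {o : Type*} {β : o → Type*} [∀ i, Fintype (β i)]
    [∀ i, DecidableEq (β i)] (V : ∀ i, Matrix ι (β i) C(X, ℂ))
    (e : ∀ i, Matrix (β i) (β i) C(X, ℂ)) (he : ∀ i, IsPr (e i))
    (h1 : ∀ i, (V i)ᴴ * V i = e i) (h2 : ∀ i j, i ≠ j → (V i)ᴴ * V j = 0) (s : Finset o) :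
    IsPr (∑ i ∈ s, V i * (V i)ᴴ) ∧ kcl (∑ i ∈ s, V i * (V i)ᴴ) = ∑ i ∈ s, kcl (e i) := by
  classical
  induction s using Finset.induction_on with
  | empty =>
    refine ⟨?_, ?_⟩
    · rw [Finset.sum_empty]; exact IsPr.zero
    · rw [Finset.sum_empty, Finset.sum_empty]; exact kcl_zero
  | insert j s hj ih =>
    have hV : V j * (V j)ᴴ * V j = V j := by
      rw [Matrix.mul_assoc, h1, mul_eq_of_isom (he j) (h1 j)]
    have hE : Eqv (V j * (V j)ᴴ) (e j) := ⟨V j, rfl, h1 j, hV⟩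
    have ho : V j * (V j)ᴴ * (∑ i ∈ s, V i * (V i)ᴴ) = 0 := by
      rw [Matrix.mul_sum]
      refine Finset.sum_eq_zero fun i hi => ?_
      have hij : j ≠ i := by rintro rfl; exact hj hi
      rw [← Matrix.mul_assoc, Matrix.mul_assoc (V j), h2 j i hij]
      simp
    have ho' : (∑ i ∈ s, V i * (V i)ᴴ) * (V j * (V j)ᴴ) = 0 := by
      rw [Matrix.sum_mul]
      refine Finset.sum_eq_zero fun i hi => ?_
      have hij : i ≠ j := by rintro rfl; exact hj hi
      rw [← Matrix.mul_assoc, Matrix.mul_assoc (V i), h2 i j hij]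
      simp
    rw [Finset.sum_insert hj, Finset.sum_insert hj]
    refine ⟨⟨?_, ?_⟩, ?_⟩
    · rw [add_mul, mul_add, mul_add, ho, ho', hE.isPr_left.1, ih.1.1]; simp
    · rw [conjTranspose_add, hE.isPr_left.2, ih.1.2]
    · rw [kcl_add_orth hE.isPr_left ih.1 ho, hE.kcl_eq, ih.2]

/-! ### Concatenation -/

/-- splitting `Fin n` -/
def catE (n : ℕ) (i : Fin (n + 1)) : Fin (i : ℕ) ⊕ Fin (n - i) ≃ Fin n :=
  finSumFinEquiv.trans (finCongr (by omega))

/-- concatenation -/
def cat {α β : Type*} {n : ℕ} (i : Fin (n + 1)) (f : (Fin (i : ℕ) → α) × (Fin (n - i) → β)) :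
    Fin n → α ⊕ β := Sum.map f.1 f.2 ∘ (catE n i).symm

theorem exists_cat {α β : Type*} {n : ℕ} (h : Fin n → α ⊕ β) :
    ∃ (i : Fin (n + 1)) (f : (Fin (i : ℕ) → α) × (Fin (n - i) → β)) (τ : Equiv.Perm (Fin n)),
      h = cat i f ∘ τ := by
  classical
  set A := {k : Fin n // (h k).isLeft = true}
  have hA : Fintype.card A ≤ n := by
    have := Fintype.card_subtype_le (fun k : Fin n => (h k).isLeft = true)
    rwa [Fintype.card_fin] at this
  have hB : Fintype.card {k : Fin n // ¬ (h k).isLeft = true} = n - Fintype.card A := by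
    rw [Fintype.card_subtype_compl, Fintype.card_fin]
  let i : Fin (n + 1) := ⟨Fintype.card A, by omega⟩
  let e1 : A ≃ Fin (i : ℕ) := Fintype.equivFin A
  let e2 : {k : Fin n // ¬ (h k).isLeft = true} ≃ Fin (n - i) := Fintype.equivFinOfCardEq hB
  have hr : ∀ k : {k : Fin n // ¬ (h k).isLeft = true}, (h k).isRight = true := by
    intro k
    have := k.2
    rw [Sum.not_isLeft] at this
    exact this
  let f1 : Fin (i : ℕ) → α := fun a => (h (e1.symm a)).getLeft (e1.symm a).2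
  let f2 : Fin (n - i) → β := fun a => (h (e2.symm a)).getRight (hr (e2.symm a))
  let τ : Equiv.Perm (Fin n) :=
    ((Equiv.sumCompl (fun k : Fin n => (h k).isLeft = true)).symm.trans
      (Equiv.sumCongr e1 e2)).trans (catE n i)
  refine ⟨i, (f1, f2), τ, ?_⟩
  funext k
  change h k = Sum.map f1 f2 ((catE n i).symm (τ k))
  have e0 : (catE n i).symm (τ k) = (Equiv.sumCongr e1 e2)
      ((Equiv.sumCompl (fun k : Fin n => (h k).isLeft = true)).symm k) := by
    simp [τ]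
  rw [e0]
  by_cases hk : (h k).isLeft = true
  · rw [Equiv.sumCompl_symm_apply_of_pos (p := fun k : Fin n => (h k).isLeft = true) hk]
    simp only [Equiv.sumCongr_apply, Sum.map_inl, f1, Equiv.symm_apply_apply]
    simp
  · rw [Equiv.sumCompl_symm_apply_of_neg (p := fun k : Fin n => (h k).isLeft = true) hk]
    simp only [Equiv.sumCongr_apply, Sum.map_inr, f2, Equiv.symm_apply_apply]
    simp

theorem det_cat_same {R : Type*} [CommRing R] {n : ℕ} (p : Matrix ι ι R) (q : Matrix κ κ R)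
    (i : Fin (n + 1)) (f g : (Fin (i : ℕ) → ι) × (Fin (n - i) → κ)) :
    ((Matrix.fromBlocks p 0 0 q).submatrix (cat i f) (cat i g)).det
      = (p.submatrix f.1 g.1).det * (q.submatrix f.2 g.2).det := by
  have h1 : (Matrix.fromBlocks p 0 0 q).submatrix (cat i f) (cat i g)
      = (Matrix.fromBlocks (p.submatrix f.1 g.1) 0 0 (q.submatrix f.2 g.2)).submatrix
        (catE n i).symm (catE n i).symm := by
    ext a b
    simp only [submatrix_apply, cat, Function.comp_apply]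
    rcases (catE n i).symm a with a | a <;> rcases (catE n i).symm b with b | b <;> simp
  rw [h1, det_submatrix_equiv_self, det_fromBlocks_zero₂₁]

theorem prod_cat {R : Type*} [CommRing R] {n : ℕ} (i : Fin (n + 1))
    (f : (Fin (i : ℕ) → ι) × (Fin (n - i) → κ)) :
    ∏ k, (Sum.elim (fun _ => (2 : R)) (fun _ => 1) : ι ⊕ κ → R) (cat i f k) = 2 ^ (i : ℕ) := by
  rw [← Equiv.prod_comp (catE n i)]
  simp [cat, Fintype.prod_sum_type]

theorem det_cat_diff {n : ℕ} (p : Matrix ι ι C(X, ℂ)) (q : Matrix κ κ C(X, ℂ))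
    (i j : Fin (n + 1)) (hij : i ≠ j) (f : (Fin (i : ℕ) → ι) × (Fin (n - i) → κ))
    (g : (Fin (j : ℕ) → ι) × (Fin (n - j) → κ)) :
    ((Matrix.fromBlocks p 0 0 q).submatrix (cat i f) (cat j g)).det = 0 := by
  set v : ι ⊕ κ → C(X, ℂ) := Sum.elim (fun _ => (2 : C(X, ℂ))) (fun _ => 1) with hv
  set P := Matrix.fromBlocks p 0 0 q with hP
  have h0 : ∀ a b, v a * P a b = v b * P a b := by
    intro a b
    rcases a with a | a <;> rcases b with b | b <;> simp [hv, hP]
  have h1 := det_mul_column (fun k => v (cat i f k)) (P.submatrix (cat i f) (cat j g))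
  have h2 := det_mul_row (fun k => v (cat j g k)) (P.submatrix (cat i f) (cat j g))
  have h3 : (of fun a b => v (cat i f a) * P.submatrix (cat i f) (cat j g) a b)
      = (of fun a b => v (cat j g b) * P.submatrix (cat i f) (cat j g) a b) := by
    ext1 a b
    exact h0 _ _
  rw [h3, h2, prod_cat, prod_cat] at h1
  ext x
  have h4 := DFunLike.congr_fun h1 x
  simp only [ContinuousMap.mul_apply, ContinuousMap.pow_apply] at h4
  have h5 : ((2 : C(X, ℂ)) x) = (2 : ℂ) := rfl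
  rw [h5] at h4
  have h6 : ((2 : ℂ) ^ (j : ℕ) - 2 ^ (i : ℕ)) * (P.submatrix (cat i f) (cat j g)).det x = 0 := by
    rw [sub_mul, h4, sub_self]
  rcases mul_eq_zero.1 h6 with h7 | h7
  · exfalso
    have h8 : (2 : ℂ) ^ (j : ℕ) = 2 ^ (i : ℕ) := sub_eq_zero.1 h7
    have h9 : (2 : ℕ) ^ (j : ℕ) = 2 ^ (i : ℕ) := by exact_mod_cast h8
    have h10 := Nat.pow_right_injective (le_refl 2) h9
    exact hij (Fin.ext h10.symm)
  · exact h7

/-- the scalar normalising constants -/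
noncomputable def cc (n i : ℕ) : ℂ := ((Real.sqrt ((n ! : ℝ) / ((i ! : ℝ) * ((n - i) ! : ℝ))) : ℝ) : ℂ)

theorem cc_sq (n i : ℕ) : cc n i * cc n i = (n ! : ℂ) / ((i ! : ℂ) * ((n - i) ! : ℂ)) := by
  unfold cc
  rw [← Complex.ofReal_mul, Real.mul_self_sqrt (by positivity)]
  push_cast
  rfl

theorem cc_ne (n i : ℕ) : cc n i ≠ 0 := by
  intro h
  have h1 := cc_sq n i
  rw [h, mul_zero] at h1
  have a1 : (n ! : ℂ) ≠ 0 := by exact_mod_cast n.factorial_ne_zero
  have a2 : (i ! : ℂ) ≠ 0 := by exact_mod_cast i.factorial_ne_zero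
  have a3 : ((n - i) ! : ℂ) ≠ 0 := by exact_mod_cast (n - i).factorial_ne_zero
  have h2 : (n ! : ℂ) / ((i ! : ℂ) * ((n - i) ! : ℂ)) ≠ 0 := div_ne_zero a1 (mul_ne_zero a2 a3)
  exact h2 h1.symm

theorem cc_star (n i : ℕ) : star (cc n i) = cc n i := by
  unfold cc
  rw [Complex.star_def, Complex.conj_ofReal]

/-- the intertwining matrices -/
noncomputable def Vc (n : ℕ) (p : Matrix ι ι C(X, ℂ)) (q : Matrix κ κ C(X, ℂ)) (i : Fin (n + 1)) :
    Matrix (Fin n → ι ⊕ κ) ((Fin (i : ℕ) → ι) × (Fin (n - i) → κ)) C(X, ℂ) :=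
  cc n i • (Lam n (Matrix.fromBlocks p 0 0 q)).submatrix id (cat i)

theorem Vc_conjT_mul {μ : Type*} (n : ℕ) {p : Matrix ι ι C(X, ℂ)} {q : Matrix κ κ C(X, ℂ)}
    (hp : IsPr p) (hq : IsPr q) (i : Fin (n + 1)) (D : Matrix (Fin n → ι ⊕ κ) μ C(X, ℂ)) :
    (Vc n p q i)ᴴ * D
      = cc n i • (Lam n (Matrix.fromBlocks p 0 0 q) * D).submatrix (cat i) id := by
  have hL := Lam_isPr n (hp.fromBlocks hq)
  rw [Vc, conjTranspose_smul, cc_star, conjTranspose_submatrix, hL.2, Matrix.smul_mul]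
  congr 1

theorem Lam_mul_Vc (n : ℕ) {p : Matrix ι ι C(X, ℂ)} {q : Matrix κ κ C(X, ℂ)}
    (hp : IsPr p) (hq : IsPr q) (i : Fin (n + 1)) :
    Lam n (Matrix.fromBlocks p 0 0 q) * Vc n p q i = Vc n p q i := by
  have hL := Lam_isPr n (hp.fromBlocks hq)
  rw [Vc, Matrix.mul_smul]
  congr 1
  have : Lam n (Matrix.fromBlocks p 0 0 q) *
      (Lam n (Matrix.fromBlocks p 0 0 q)).submatrix id (cat i)
      = (Lam n (Matrix.fromBlocks p 0 0 q) * Lam n (Matrix.fromBlocks p 0 0 q)).submatrix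
        id (cat i) := rfl
  rw [this, hL.1]

theorem Vc_isom (n : ℕ) {p : Matrix ι ι C(X, ℂ)} {q : Matrix κ κ C(X, ℂ)}
    (hp : IsPr p) (hq : IsPr q) (i : Fin (n + 1)) :
    (Vc n p q i)ᴴ * Vc n p q i = Lam i p ⊗ₖ Lam (n - i) q := by
  rw [Vc_conjT_mul n hp hq, Lam_mul_Vc n hp hq]
  ext1 f g
  rw [Matrix.smul_apply, submatrix_apply, Vc, Matrix.smul_apply, submatrix_apply, id,
    Lam_apply, det_cat_same, kroneckerMap_apply, Lam_apply, Lam_apply, smul_smul, smul_smul,
    smul_mul_smul_comm, id, cc_sq]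
  congr 1
  have a1 : (n ! : ℂ) ≠ 0 := by exact_mod_cast n.factorial_ne_zero
  have a2 : ((i : ℕ) ! : ℂ) ≠ 0 := by exact_mod_cast (i : ℕ).factorial_ne_zero
  have a3 : ((n - i) ! : ℂ) ≠ 0 := by exact_mod_cast (n - i).factorial_ne_zero
  field_simp

theorem Vc_orth (n : ℕ) {p : Matrix ι ι C(X, ℂ)} {q : Matrix κ κ C(X, ℂ)}
    (hp : IsPr p) (hq : IsPr q) (i j : Fin (n + 1)) (hij : i ≠ j) :
    (Vc n p q i)ᴴ * Vc n p q j = 0 := by
  rw [Vc_conjT_mul n hp hq, Lam_mul_Vc n hp hq]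
  ext1 f g
  rw [Matrix.smul_apply, submatrix_apply, Vc, Matrix.smul_apply, submatrix_apply, id,
    Lam_apply, det_cat_diff p q i j hij]
  simp

theorem Lam_mul_antisymm (n : ℕ) (P : Matrix ι ι C(X, ℂ)) {μ : Type*}
    (D : Matrix (Fin n → ι) μ C(X, ℂ)) (hD : Lam n P * D = D) (h : Fin n → ι)
    (τ : Equiv.Perm (Fin n)) (k : μ) :
    D (h ∘ τ) k = ((Equiv.Perm.sign τ : ℤ) : C(X, ℂ)) * D h k := by
  rw [← hD, mul_apply, mul_apply, Finset.mul_sum]
  refine Finset.sum_congr rfl fun g _ => ?_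
  have e2 : (P.submatrix (h ∘ τ) g).det
      = ((Equiv.Perm.sign τ : ℤ) : C(X, ℂ)) * (P.submatrix h g).det := by
    have := det_permute τ (P.submatrix h g)
    rw [← this]
    rfl
  rw [Lam_apply, Lam_apply, e2, ← mul_assoc, mul_smul_comm]

theorem Lam_eq_sum (n : ℕ) {p : Matrix ι ι C(X, ℂ)} {q : Matrix κ κ C(X, ℂ)}
    (hp : IsPr p) (hq : IsPr q) :
    Lam n (Matrix.fromBlocks p 0 0 q) = ∑ i, Vc n p q i * (Vc n p q i)ᴴ := by
  set Q := Lam n (Matrix.fromBlocks p 0 0 q) with hQ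
  have hL : IsPr Q := Lam_isPr n (hp.fromBlocks hq)
  set D := Q - ∑ i, Vc n p q i * (Vc n p q i)ᴴ with hD
  have h1 : Q * D = D := by
    rw [hD, Matrix.mul_sub, hL.1, Matrix.mul_sum]
    congr 1
    refine Finset.sum_congr rfl fun i _ => ?_
    rw [← Matrix.mul_assoc, Lam_mul_Vc n hp hq]
  have h2 : ∀ j, (Vc n p q j)ᴴ * D = 0 := by
    intro j
    rw [hD, Matrix.mul_sub, Matrix.mul_sum]
    have e1 : (Vc n p q j)ᴴ * Q = (Vc n p q j)ᴴ := by
      have := congrArg conjTranspose (Lam_mul_Vc n hp hq j)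
      rwa [conjTranspose_mul, ← hQ, hL.2] at this
    rw [e1, Finset.sum_eq_single j]
    · rw [← Matrix.mul_assoc, Vc_isom n hp hq]
      have e2 := mul_eq_of_isom ((Lam_isPr j hp).kron (Lam_isPr (n - j) hq)) (Vc_isom n hp hq j)
      have e3 := congrArg conjTranspose e2
      rw [conjTranspose_mul, ((Lam_isPr j hp).kron (Lam_isPr (n - j) hq)).2] at e3
      rw [e3, sub_self]
    · intro i _ hij
      rw [← Matrix.mul_assoc, Vc_orth n hp hq j i (Ne.symm hij)]
      simp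
    · intro h; exact absurd (Finset.mem_univ j) h
  have h3 : ∀ (j : Fin (n + 1)) f k, D (cat j f) k = 0 := by
    intro j f k
    have e1 := h2 j
    rw [Vc_conjT_mul n hp hq, ← hQ, h1] at e1
    have e2 := congrFun (congrFun e1 f) k
    rw [Matrix.smul_apply, submatrix_apply, id] at e2
    exact (smul_eq_zero.1 e2).resolve_left (cc_ne n j)
  have h4 : D = 0 := by
    ext1 h k
    obtain ⟨i, f, τ, rfl⟩ := exists_cat h
    rw [Lam_mul_antisymm n _ D h1 (cat i f) τ k, h3, mul_zero]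
    rfl
  exact sub_eq_zero.1 h4

theorem kcl_Lam_add (n : ℕ) {p : Matrix ι ι C(X, ℂ)} {q : Matrix κ κ C(X, ℂ)}
    (hp : IsPr p) (hq : IsPr q) :
    kcl (Lam n (Matrix.fromBlocks p 0 0 q))
      = ∑ i ∈ Finset.range (n + 1), kcl (Lam i p) * kcl (Lam (n - i) q) := by
  rw [Lam_eq_sum n hp hq, (kcl_orth_family (Vc n p q)
    (fun i : Fin (n + 1) => Lam i p ⊗ₖ Lam (n - i) q)
    (fun i => (Lam_isPr i hp).kron (Lam_isPr (n - i) hq)) (fun i => Vc_isom n hp hq i)
    (fun i j hij => Vc_orth n hp hq i j hij) Finset.univ).2, Finset.sum_range]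
  refine Finset.sum_congr rfl fun i _ => ?_
  rw [kcl_kron (Lam_isPr i hp) (Lam_isPr (n - i) hq)]

end Pool.Agent.Helper75.KT
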