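import Pool.Agent.Helper31.BrauerLift

/-!
# A criterion for a decomposition matrix not to be unitriangular

Eigenvectors of subgroups of order prime to `ℓ` for linear characters.
-/

set_option linter.unusedSectionVars false

open Module Polynomial

namespace Pool.Agent.Helper31.NDRed

open Pool.Agent.Helper31.Brauer

section general

variable {k : Type} [Field k] {G : Type} [Group G] {V : Type} [AddCommGroup V] [Module k V]

/-- the eigenvectors of the subgroup `H` for the linear character `θ` -/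
def eig (ρ : Representation k G V) (H : Subgroup G) (θ : ↥H →* k) : Submodule k V where
  carrier := {v | ∀ h : ↥H, ρ (h : G) v = θ h • v}
  zero_mem' := fun h => by rw [map_zero, smul_zero]
  add_mem' := fun {a b} ha hb h => by rw [map_add, ha h, hb h, smul_add]
  smul_mem' := fun c a ha h => by rw [map_smul, ha h, smul_comm]

lemma mem_eig (ρ : Representation k G V) (H : Subgroup G) (θ : ↥H →* k) (v : V) :
    v ∈ eig ρ H θ ↔ ∀ h : ↥H, ρ (h : G) v = θ h • v := Iff.rfl

variable [Fintype G]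

/-- the sum `∑_h θ(h⁻¹) ρ h` is `|H|` times a projection onto the eigenvectors -/
lemma trace_sum [FiniteDimensional k V] (ρ : Representation k G V) (H : Subgroup G) [Fintype ↥H]
    (θ : ↥H →* k) (hH : ((Fintype.card ↥H : ℕ) : k) ≠ 0) :
    ∑ h : ↥H, θ h⁻¹ * LinearMap.trace k V (ρ (h : G)) =
      (Fintype.card ↥H : k) * (finrank k (eig ρ H θ) : k) := by
  set P : V →ₗ[k] V := (Fintype.card ↥H : k)⁻¹ • ∑ h : ↥H, θ h⁻¹ • ρ (h : G) with hP
  have hθ : ∀ h : ↥H, θ h⁻¹ * θ h = 1 := fun h => by rw [← map_mul, inv_mul_cancel, map_one]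
  have hθ' : ∀ h : ↥H, θ h * θ h⁻¹ = 1 := fun h => by rw [← map_mul, mul_inv_cancel, map_one]
  have hproj : LinearMap.IsProj (eig ρ H θ) P := by
    refine ⟨fun v g => ?_, fun v hv => ?_⟩
    · have h1 : ρ (g : G) (∑ h : ↥H, (θ h⁻¹ • ρ (h : G)) v) = θ g • ∑ h : ↥H, (θ h⁻¹ • ρ (h : G)) v := by
        rw [map_sum, Finset.smul_sum, ← Equiv.sum_comp (Equiv.mulLeft g)
          (fun h : ↥H => θ g • (θ h⁻¹ • ρ (h : G)) v)]
        refine Finset.sum_congr rfl (fun h _ => ?_)
        rw [LinearMap.smul_apply, LinearMap.smul_apply, map_smul, Equiv.coe_mulLeft, smul_smul,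
          mul_inv_rev, map_mul, Subgroup.coe_mul, map_mul, Module.End.mul_apply]
        congr 1
        calc θ h⁻¹ = θ h⁻¹ * (θ g * θ g⁻¹) := by rw [hθ', mul_one]
          _ = θ g * (θ h⁻¹ * θ g⁻¹) := by ring
      rw [hP, LinearMap.smul_apply, map_smul, LinearMap.sum_apply, h1, smul_comm]
    · have h1 : ∀ h : ↥H, (θ h⁻¹ • ρ (h : G)) v = v := by
        intro h
        rw [LinearMap.smul_apply, hv h, smul_smul, hθ, one_smul]
      rw [hP, LinearMap.smul_apply, LinearMap.sum_apply, Finset.sum_congr rfl (fun h _ => h1 h),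
        Finset.sum_const, Finset.card_univ, ← Nat.cast_smul_eq_nsmul k, smul_smul,
        inv_mul_cancel₀ hH, one_smul]
  have h2 := hproj.trace
  rw [hP, map_smul, map_sum] at h2
  simp only [map_smul, smul_eq_mul] at h2
  rw [← h2, mul_inv_cancel_left₀ hH]

end general

section modular

variable {F : Type} [Field F] {ℓ : ℕ} (hℓ : ℓ.Prime) [CharP F ℓ] (red : AlgInt →+* F)
variable {G : Type} [Group G]

include hℓ in
/-- the Brauer value is an algebraic integer which reduces to the trace -/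
lemma exists_red_brauerValue (hred : Function.Surjective red) {V : Type} [AddCommGroup V]
    [Module F V] [FiniteDimensional F V] (ρ : Representation F G V) (g : G)
    (hg : ¬ ℓ ∣ orderOf g) :
    ∃ w : AlgInt, (w : ℂ) = brauerValue ℓ red ρ g ∧ red w = LinearMap.trace F V (ρ g) := by
  have : IsAlgClosed F := isAlgClosed red hred
  have hn0 : orderOf g ≠ 0 := fun h0 => hg (h0 ▸ dvd_zero ℓ)
  have hroot : ∀ x ∈ (ρ g).charpoly.roots, x ^ orderOf g = 1 := by
    intro x hx
    have h1 := Polynomial.isRoot_of_mem_roots hx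
    rw [← Module.End.hasEigenvalue_iff_isRoot_charpoly] at h1
    obtain ⟨v, hv⟩ := h1.exists_hasEigenvector
    have h2 := hv.pow_apply (orderOf g)
    have h3 : (ρ g) ^ orderOf g = 1 := by rw [← map_pow, pow_orderOf_eq_one, map_one]
    rw [h3, Module.End.one_apply] at h2
    have h4 : (1 - x ^ orderOf g) • v = 0 := by rw [sub_smul, one_smul, ← h2, sub_self]
    rcases smul_eq_zero.1 h4 with h | h
    · exact (sub_eq_zero.1 h).symm
    · exact absurd h hv.2
  have hlift : ∀ x ∈ (ρ g).charpoly.roots, ∃ z : AlgInt, (z : ℂ) = lift ℓ red x ∧ red z = x := by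
    intro x hx
    obtain ⟨z, hz1, hz2⟩ := exists_root red hn0 (hroot x hx)
    refine ⟨z, ?_, hz2⟩
    rw [← hz2]
    exact (lift_red hℓ red ⟨orderOf g, hg, hz1⟩).symm
  have hgen : ∀ s : Multiset F, (∀ x ∈ s, ∃ z : AlgInt, (z : ℂ) = lift ℓ red x ∧ red z = x) →
      ∃ w : AlgInt, (w : ℂ) = (s.map (lift ℓ red)).sum ∧ red w = s.sum := by
    intro s
    induction s using Multiset.induction_on with
    | empty => intro _; exact ⟨0, by simp, by simp⟩
    | cons a s ih =>
      intro h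
      obtain ⟨w, hw1, hw2⟩ := ih (fun x hx => h x (Multiset.mem_cons_of_mem hx))
      obtain ⟨z, hz1, hz2⟩ := h a (Multiset.mem_cons_self a s)
      refine ⟨z + w, ?_, ?_⟩
      · rw [Multiset.map_cons, Multiset.sum_cons, ← hz1, ← hw1]; rfl
      · rw [Multiset.sum_cons, map_add, hz2, hw2]
  obtain ⟨w, hw1, hw2⟩ := hgen _ hlift
  refine ⟨w, hw1, ?_⟩
  rw [hw2]
  exact (Module.End.trace_eq_sum_roots_charpoly_of_splits (IsAlgClosed.splits _)).symm

/-- a linear character with values in the algebraic integers, reduced -/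
noncomputable def redHom {H : Subgroup G} (θ : ↥H →* AlgInt) : ↥H →* F :=
  (red : AlgInt →* F).comp θ

/-- a linear character with values in the algebraic integers, as a complex character -/
noncomputable def cxHom {H : Subgroup G} (θ : ↥H →* AlgInt) : ↥H →* ℂ :=
  ((integralClosure ℤ ℂ).val.toRingHom : AlgInt →* ℂ).comp θ

lemma cxHom_apply {H : Subgroup G} (θ : ↥H →* AlgInt) (h : ↥H) : cxHom θ h = ((θ h : AlgInt) : ℂ) :=
  rfl

variable [Fintype G]

/-- elements of a subgroup of order prime to `ℓ` are `ℓ`-regular -/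
def toReg {H : Subgroup G} (hH : ¬ ℓ ∣ Nat.card ↥H) (h : ↥H) : Reg ℓ G :=
  ⟨(h : G), fun hd => hH (hd.trans (by
    rw [Subgroup.orderOf_coe]
    exact orderOf_dvd_natCard h))⟩

lemma toReg_coe {H : Subgroup G} (hH : ¬ ℓ ∣ Nat.card ↥H) (h : ↥H) : (toReg hH h).1 = (h : G) := rfl

open Classical in
/-- the twisted sum over a subgroup -/
noncomputable def T {H : Subgroup G} (hH : ¬ ℓ ∣ Nat.card ↥H) (θ : ↥H →* AlgInt)
    (φ : Reg ℓ G → ℂ) : ℂ :=
  ∑ h : ↥H, ((θ h⁻¹ : AlgInt) : ℂ) * φ (toReg hH h)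

include hℓ in
open Classical in
lemma exists_T_red (hred : Function.Surjective red) {H : Subgroup G} (hH : ¬ ℓ ∣ Nat.card ↥H)
    (θ : ↥H →* AlgInt) {V : Type} [AddCommGroup V] [Module F V] [FiniteDimensional F V]
    (ρ : Representation F G V) (φ : Reg ℓ G → ℂ) (hφ : Affords ℓ red ρ φ) :
    ∃ w : AlgInt, (w : ℂ) = T hH θ φ ∧
      red w = (Nat.card ↥H : F) * (finrank F (eig ρ H (redHom red θ)) : F) := by
  choose w hw1 hw2 using fun h : ↥H =>
    exists_red_brauerValue hℓ red hred ρ (h : G) (toReg hH h).2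
  refine ⟨∑ h : ↥H, θ h⁻¹ * w h, ?_, ?_⟩
  · unfold T
    have hc : ((∑ h : ↥H, θ h⁻¹ * w h : AlgInt) : ℂ)
        = ∑ h : ↥H, (((θ h⁻¹ * w h : AlgInt)) : ℂ) := by
      exact map_sum (integralClosure ℤ ℂ).val _ _
    rw [hc]
    refine Finset.sum_congr rfl (fun h _ => ?_)
    rw [hφ, toReg_coe, ← hw1]
    rfl
  · rw [map_sum]
    simp only [map_mul, hw2]
    have h0 : ((Fintype.card ↥H : ℕ) : F) ≠ 0 := by
      rw [← Nat.card_eq_fintype_card, Ne, CharP.cast_eq_zero_iff F ℓ]; exact hH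
    have h1 := trace_sum ρ H (redHom red θ) h0
    rw [Nat.card_eq_fintype_card, ← h1]
    rfl

open Classical in
lemma T_character {H : Subgroup G} (hH : ¬ ℓ ∣ Nat.card ↥H) (θ : ↥H →* AlgInt)
    {V : Type} [AddCommGroup V] [Module ℂ V] [FiniteDimensional ℂ V] (ρ : Representation ℂ G V) :
    T hH θ (fun g => ρ.character g.1) =
      (((Nat.card ↥H * finrank ℂ (eig ρ H (cxHom θ)) : ℕ) : AlgInt) : ℂ) := by
  have h0 : ((Fintype.card ↥H : ℕ) : ℂ) ≠ 0 := by
    exact_mod_cast Fintype.card_ne_zero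
  have h1 := trace_sum ρ H (cxHom θ) h0
  unfold T
  have h2 : (((Nat.card ↥H * finrank ℂ (eig ρ H (cxHom θ)) : ℕ) : AlgInt) : ℂ)
      = (Fintype.card ↥H : ℂ) * (finrank ℂ (eig ρ H (cxHom θ)) : ℂ) := by
    rw [Nat.card_eq_fintype_card]
    push_cast
    rfl
  rw [h2, ← h1]
  rfl

include hℓ in
/-- **The criterion.**  A family of linear characters `θ i` of subgroups `H i` of order prime to
`ℓ` such that in every irreducible module of the block at most one `θ i` has eigenvectors, in no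
irreducible ordinary representation of the block exactly one `θ i` has eigenvectors (and the
multiplicities are smaller than `ℓ`), and in some irreducible module of the block some `θ i` has
a one-dimensional space of eigenvectors, prevents unitriangularity. -/
theorem criterion (hred : Function.Surjective red) (lam : G → F) {ι : Type}
    (H : ι → Subgroup G) (hH : ∀ i, ¬ ℓ ∣ Nat.card ↥(H i)) (θ : ∀ i, ↥(H i) →* AlgInt)
    (hC1 : ∀ (n : ℕ) (ρ : Representation F G (Fin n → F)), ρ.IsIrreducible →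
      (∀ g, classSum ρ g = lam g • (LinearMap.id : (Fin n → F) →ₗ[F] (Fin n → F))) →
      ∀ i j, eig ρ (H i) (redHom red (θ i)) ≠ ⊥ → eig ρ (H j) (redHom red (θ j)) ≠ ⊥ → i = j)
    (hC2 : ∀ (n : ℕ) (ρ : Representation ℂ G (Fin n → ℂ)), ρ.IsIrreducible →
      ρ.character ∈ IrrB red lam → ∀ i, finrank ℂ (eig ρ (H i) (cxHom (θ i))) < ℓ ∧
        (eig ρ (H i) (cxHom (θ i)) ≠ ⊥ → ∃ j, j ≠ i ∧ eig ρ (H j) (cxHom (θ j)) ≠ ⊥))
    (hE : ∃ (n : ℕ) (ρ : Representation F G (Fin n → F)), ρ.IsIrreducible ∧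
      (∀ g, classSum ρ g = lam g • (LinearMap.id : (Fin n → F) →ₗ[F] (Fin n → F))) ∧
      ∃ i, finrank F (eig ρ (H i) (redHom red (θ i))) = 1)
    (d : ↥(IrrB red lam) → ↥(IBrB (G := G) ℓ red lam) →₀ ℕ)
    (hd : IsDecompositionMatrix ℓ red lam d) : ¬ Unitriangular d := by
  classical
  rintro ⟨n, χ, φ, -, hdiag, hupp⟩
  have hHF : ∀ i, ((Nat.card ↥(H i) : ℕ) : F) ≠ 0 := fun i => by
    rw [Ne, CharP.cast_eq_zero_iff F ℓ]; exact hH i
  -- the data of the columns
  have hcol : ∀ a : Fin n, ∃ (m : ℕ) (ρ : Representation F G (Fin m → F)), ρ.IsIrreducible ∧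
      Affords ℓ red ρ (φ a).1 ∧
      ∀ g, classSum ρ g = lam g • (LinearMap.id : (Fin m → F) →ₗ[F] (Fin m → F)) :=
    fun a => (φ a).2
  choose m ρ hirr haff hblock using hcol
  have hw : ∀ (a : Fin n) (i : ι), ∃ w : AlgInt, (w : ℂ) = T (hH i) (θ i) (φ a).1 ∧
      red w = (Nat.card ↥(H i) : F) * (finrank F (eig (ρ a) (H i) (redHom red (θ i))) : F) :=
    fun a i => exists_T_red hℓ red hred (hH i) (θ i) (ρ a) _ (haff a)
  choose w hw1 hw2 using hw
  have hne : ∀ a i, red (w a i) ≠ 0 → eig (ρ a) (H i) (redHom red (θ i)) ≠ ⊥ := by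
    intro a i h hbot
    apply h
    rw [hw2, hbot]
    simp
  have hone : ∀ a i j, red (w a i) ≠ 0 → red (w a j) ≠ 0 → i = j := fun a i j hi hj =>
    hC1 _ (ρ a) (hirr a) (hblock a) i j (hne a i hi) (hne a j hj)
  -- there is a column with nonzero vector
  obtain ⟨m0, ρ0, hirr0, hblock0, i0, hi0⟩ := hE
  set φ0 : Reg ℓ G → ℂ := fun g => brauerValue ℓ red ρ0 g.1 with hφ0
  have haff0 : Affords ℓ red ρ0 φ0 := fun g => rfl
  have hmem0 : φ0 ∈ IBrB (G := G) ℓ red lam := ⟨m0, ρ0, hirr0, haff0, hblock0⟩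
  obtain ⟨a0, ha0⟩ := φ.surjective ⟨φ0, hmem0⟩
  have hex : ∃ a : Fin n, ∃ i, red (w a i) ≠ 0 := by
    refine ⟨a0, i0, ?_⟩
    obtain ⟨w', hw'1, hw'2⟩ := exists_T_red hℓ red hred (hH i0) (θ i0) ρ0 φ0 haff0
    have h1 : w a0 i0 = w' := by
      apply Subtype.val_injective
      show ((w a0 i0 : AlgInt) : ℂ) = (w' : ℂ)
      rw [hw1, hw'1, ha0]
    rw [h1, hw'2, hi0, Nat.cast_one, mul_one]
    exact hHF i0
  -- the first one
  obtain ⟨a, ⟨i, hi⟩, hmin⟩ : ∃ a : Fin n, (∃ i, red (w a i) ≠ 0) ∧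
      ∀ b, b < a → ¬ ∃ i, red (w b i) ≠ 0 := by
    have hne : (Finset.univ.filter (fun a : Fin n => ∃ i, red (w a i) ≠ 0)).Nonempty := by
      obtain ⟨a, ha⟩ := hex
      exact ⟨a, Finset.mem_filter.2 ⟨Finset.mem_univ _, ha⟩⟩
    refine ⟨Finset.min' _ hne, ?_, ?_⟩
    · exact (Finset.mem_filter.1 (Finset.min'_mem _ hne)).2
    · intro b hb hcon
      exact absurd (Finset.min'_le _ b (Finset.mem_filter.2 ⟨Finset.mem_univ _, hcon⟩))
        (not_le.2 hb)
  -- the row
  have hrow : ∀ g : Reg ℓ G, (χ a).1 g.1 = ∑ b : Fin n, ((d (χ a) (φ b) : ℕ) : ℂ) * (φ b).1 g := by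
    intro g
    rw [hd (χ a) g, Finsupp.sum]
    rw [← Finset.sum_subset (Finset.subset_univ ((d (χ a)).support.map φ.symm.toEmbedding))]
    · rw [Finset.sum_map]
      refine Finset.sum_congr rfl (fun x _ => ?_)
      simp
    · intro b _ hb
      have : d (χ a) (φ b) = 0 := by
        by_contra h
        apply hb
        rw [Finset.mem_map]
        exact ⟨φ b, Finsupp.mem_support_iff.2 h, by simp⟩
      rw [this]; simp
  have hT : ∀ j, T (hH j) (θ j) (fun g => (χ a).1 g.1) =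
      ((∑ b : Fin n, ((d (χ a) (φ b) : ℕ) : AlgInt) * w b j : AlgInt) : ℂ) := by
    intro j
    have hc : ((∑ b : Fin n, ((d (χ a) (φ b) : ℕ) : AlgInt) * w b j : AlgInt) : ℂ)
        = ∑ b : Fin n, ((((d (χ a) (φ b) : ℕ) : AlgInt) * w b j : AlgInt) : ℂ) :=
      map_sum (integralClosure ℤ ℂ).val _ _
    have hc2 : ∀ b : Fin n, ((((d (χ a) (φ b) : ℕ) : AlgInt) * w b j : AlgInt) : ℂ) =
        ((d (χ a) (φ b) : ℕ) : ℂ) * T (hH j) (θ j) (φ b).1 := by
      intro b
      rw [← hw1]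
      rfl
    rw [hc, Finset.sum_congr rfl (fun b _ => hc2 b)]
    unfold T
    simp only [hrow, Finset.mul_sum]
    rw [Finset.sum_comm]
    refine Finset.sum_congr rfl (fun b _ => Finset.sum_congr rfl (fun h _ => ?_))
    ring
  have hredW : ∀ j, red (∑ b : Fin n, ((d (χ a) (φ b) : ℕ) : AlgInt) * w b j) = red (w a j) := by
    intro j
    rw [map_sum, Finset.sum_eq_single a]
    · rw [hdiag a, Nat.cast_one, one_mul]
    · intro b _ hb
      rcases lt_or_gt_of_ne hb with h | h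
      · have : red (w b j) = 0 := by
          by_contra hcon
          exact hmin b h ⟨j, hcon⟩
        rw [map_mul, this, mul_zero]
      · rw [hupp a b h, Nat.cast_zero, zero_mul, map_zero]
    · intro h; exact absurd (Finset.mem_univ _) h
  obtain ⟨N, σ, hσ, hσχ⟩ := (χ a).2.1
  have hfin : ∀ j, red (w a j) =
      (Nat.card ↥(H j) : F) * (finrank ℂ (eig σ (H j) (cxHom (θ j))) : F) := by
    intro j
    rw [← hredW j]
    have h1 := T_character (ℓ := ℓ) (hH j) (θ j) σ
    have h2 := hT j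
    rw [← hσχ] at h2
    rw [h1] at h2
    have h3 := Subtype.val_injective h2
    rw [← h3, map_natCast]
    push_cast
    rfl
  have hmemχ : σ.character ∈ IrrB red lam := by rw [hσχ]; exact (χ a).2
  have hC2' := hC2 N σ hσ hmemχ
  have hei : eig σ (H i) (cxHom (θ i)) ≠ ⊥ := by
    intro hbot
    apply hi
    rw [hfin, hbot]
    simp
  obtain ⟨j, hji, hej⟩ := (hC2' i).2 hei
  have hpos : finrank ℂ (eig σ (H j) (cxHom (θ j))) ≠ 0 := by
    intro h0
    exact hej (Submodule.finrank_eq_zero.1 h0)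
  have hlt := (hC2' j).1
  have hj : red (w a j) ≠ 0 := by
    rw [hfin]
    refine mul_ne_zero (hHF j) ?_
    rw [Ne, CharP.cast_eq_zero_iff F ℓ]
    intro hdvd
    exact absurd (Nat.le_of_dvd (Nat.pos_of_ne_zero hpos) hdvd) (not_le.2 hlt)
  exact hji (hone a j i hj hi)

end modular

end Pool.Agent.Helper31.NDRed
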