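import Pool.Agent.Helper13.WeakDef
import Pool.Agent.Helper13.Perm5
import Pool.Agent.Helper13.Weak2

/-!
Ordinary solutions over rational function fields in countably many variables from regular
solutions.
-/

set_option autoImplicit false
set_option linter.unusedSectionVars false

namespace Pool.Agent.Helper31.OrdSol

open Pool.Agent.Helper13
open scoped TensorProduct

/-- Homomorphisms from a rational function field. -/
theorem exists_hom {K E F ι : Type*} [Field K] [Field E] [Field F] [Algebra K E] [Algebra K F]
    (v : ι → E) (hv : AlgebraicIndependent K v)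
    (hE : IntermediateField.adjoin K (Set.range v) = ⊤) (w : ι → F)
    (hw : AlgebraicIndependent K w) : ∃ f : E →ₐ[K] F, ∀ i, f (v i) = w i := by
  let lw : FractionRing (MvPolynomial ι K) →ₐ[K] F :=
    IsFractionRing.liftAlgHom (algebraicIndependent_iff_injective_aeval.1 hw)
  let e1 : E ≃ₐ[K] IntermediateField.adjoin K (Set.range v) :=
    (IntermediateField.topEquiv (F := K) (E := E)).symm.trans (IntermediateField.equivOfEq hE.symm)
  have he1 : ∀ x : E, ((e1 x : IntermediateField.adjoin K (Set.range v)) : E) = x := fun _ => rfl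
  refine ⟨lw.comp (hv.reprField.comp e1.toAlgHom), fun i => ?_⟩
  have h1 : e1 (v i) = hv.aevalEquivField
      (algebraMap (MvPolynomial ι K) (FractionRing (MvPolynomial ι K)) (MvPolynomial.X i)) := by
    apply Subtype.ext
    rw [hv.aevalEquivField_algebraMap_apply_coe, MvPolynomial.aeval_X, he1]
  have h2 : hv.reprField (e1 (v i)) =
      algebraMap (MvPolynomial ι K) (FractionRing (MvPolynomial ι K)) (MvPolynomial.X i) := by
    rw [h1]
    exact hv.aevalEquivField.symm_apply_apply _
  change lw (hv.reprField (e1 (v i))) = w i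
  rw [h2]
  have h3 : lw (algebraMap (MvPolynomial ι K) (FractionRing (MvPolynomial ι K))
      (MvPolynomial.X i)) = MvPolynomial.aeval w (MvPolynomial.X i) :=
    IsFractionRing.lift_algebraMap (algebraicIndependent_iff_injective_aeval.1 hw) _
  rw [h3, MvPolynomial.aeval_X]

section tensor

variable {K1 E M : Type*} [Field K1] [Field E] [Field M] [Algebra K1 E] [Algebra E M]
  [Algebra K1 M] [IsScalarTower K1 E M] [FiniteDimensional E M] [IsGalois E M]

/-- The field `M` is the tensor product of `E` and `L1`. -/
theorem tensor_bijective (L1 : IntermediateField K1 M) [FiniteDimensional K1 L1] [IsGalois K1 L1]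
    (r : (M ≃ₐ[E] M) →* (L1 ≃ₐ[K1] L1)) (hr : Function.Bijective r)
    (hr' : ∀ τ (x : L1), ((r τ x : L1) : M) = τ x) :
    Function.Bijective (Algebra.TensorProduct.lift (Algebra.ofId E M) (L1.val : L1 →ₐ[K1] M)
      (fun _ _ => Commute.all _ _) : E ⊗[K1] L1 →ₐ[E] M) := by
  set Φ : E ⊗[K1] L1 →ₐ[E] M := Algebra.TensorProduct.lift (Algebra.ofId E M)
    (L1.val : L1 →ₐ[K1] M) (fun _ _ => Commute.all _ _) with hΦ
  have hsurj : Function.Surjective Φ := by
    let N : IntermediateField E M := IntermediateField.adjoin E (L1 : Set M)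
    have h1 : N.fixingSubgroup = ⊥ := by
      rw [eq_bot_iff]
      intro σ hσ
      rw [IntermediateField.mem_fixingSubgroup_iff] at hσ
      rw [Subgroup.mem_bot]
      apply hr.1
      rw [map_one]
      ext x
      rw [hr', hσ _ (IntermediateField.subset_adjoin E _ x.2)]
      rfl
    have h2 : N = ⊤ := by
      rw [← IsGalois.fixedField_fixingSubgroup N, h1, IntermediateField.fixedField_bot]
    have h3 : N.toSubalgebra ≤ Φ.range := by
      have h4 : N.toSubalgebra = Algebra.adjoin E (L1 : Set M) := by
        apply IntermediateField.adjoin_toSubalgebra_of_isAlgebraic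
        intro x _
        exact Algebra.IsAlgebraic.isAlgebraic x
      rw [h4, Algebra.adjoin_le_iff]
      intro x hx
      refine ⟨1 ⊗ₜ ⟨x, hx⟩, ?_⟩
      change Φ (1 ⊗ₜ ⟨x, hx⟩) = x
      rw [hΦ, Algebra.TensorProduct.lift_tmul, map_one, one_mul]
      rfl
    intro x
    have : x ∈ N.toSubalgebra := by
      rw [h2]
      trivial
    exact h3 this
  have hfin : Module.finrank E (E ⊗[K1] L1) = Module.finrank E M := by
    rw [Module.finrank_baseChange, ← IsGalois.card_aut_eq_finrank, ← IsGalois.card_aut_eq_finrank]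
    exact (Nat.card_congr (Equiv.ofBijective r hr)).symm
  refine ⟨?_, hsurj⟩
  exact (LinearMap.injective_iff_surjective_of_finrank_eq_finrank
    (f := Φ.toLinearMap) hfin).2 hsurj

end tensor

section coefficients

variable {G F1 : Type*} (ι : Type*) [Field F1] [Group G] [MulSemiringAction G F1]

/-- The action on the coefficients of polynomials. -/
@[reducible] noncomputable def coefAct : MulSemiringAction G (MvPolynomial ι F1) where
  smul g p := MvPolynomial.map (MulSemiringAction.toRingHom G F1 g) p
  one_smul p := by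
    change MvPolynomial.map (MulSemiringAction.toRingHom G F1 1) p = p
    have : MulSemiringAction.toRingHom G F1 1 = RingHom.id F1 := by
      ext x
      exact one_smul G x
    rw [this, MvPolynomial.map_id]
  mul_smul g g' p := by
    change MvPolynomial.map (MulSemiringAction.toRingHom G F1 (g * g')) p =
      MvPolynomial.map (MulSemiringAction.toRingHom G F1 g)
        (MvPolynomial.map (MulSemiringAction.toRingHom G F1 g') p)
    rw [MvPolynomial.map_map]
    have : MulSemiringAction.toRingHom G F1 (g * g') = (MulSemiringAction.toRingHom G F1 g).comp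
        (MulSemiringAction.toRingHom G F1 g') := by
      ext x
      exact mul_smul g g' x
    rw [this]
  smul_zero _ := map_zero _
  smul_add _ p q := map_add _ p q
  smul_one _ := map_one _
  smul_mul _ p q := map_mul _ p q

/-- Elements of the rational function field fixed by the action on the coefficients. -/
theorem fixed_mem {K F : Type*} [Finite G] [Field K] [Algebra K F1] [IsGaloisGroup G K F1]
    [Field F] [Algebra (MvPolynomial ι F1) F] [IsFractionRing (MvPolynomial ι F1) F]
    [MulSemiringAction G F]
    (hF : ∀ (g : G) (p : MvPolynomial ι F1), g • algebraMap (MvPolynomial ι F1) F p =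
      algebraMap (MvPolynomial ι F1) F (MvPolynomial.map (MulSemiringAction.toRingHom G F1 g) p))
    (T : Subfield F) (hT1 : ∀ c : K, algebraMap (MvPolynomial ι F1) F
      (MvPolynomial.C (algebraMap K F1 c)) ∈ T)
    (hT2 : ∀ i, algebraMap (MvPolynomial ι F1) F (MvPolynomial.X i) ∈ T)
    (y : F) (hy : ∀ g : G, g • y = y) : y ∈ T := by
  obtain ⟨a, b, hb, ha1, hb1, rfl⟩ := norm_trick (R := MvPolynomial ι F1) (H := G)
    (fun g => MvPolynomial.map (MulSemiringAction.toRingHom G F1 g)) hF y hy
  have h1 : ∀ p : MvPolynomial ι F1,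
      (∀ g : G, MvPolynomial.map (MulSemiringAction.toRingHom G F1 g) p = p) →
      algebraMap (MvPolynomial ι F1) F p ∈ T := by
    intro p hp
    have h2 : ∀ m, ∃ c : K, algebraMap K F1 c = p.coeff m := by
      intro m
      have h3 : ∀ g : G, g • p.coeff m = p.coeff m := by
        intro g
        have h4 := congrArg (MvPolynomial.coeff m) (hp g)
        rw [MvPolynomial.coeff_map] at h4
        exact h4
      exact Algebra.IsInvariant.isInvariant (A := K) (p.coeff m) h3
    rw [p.as_sum, map_sum]
    apply sum_mem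
    intro m _
    rw [MvPolynomial.monomial_eq, map_mul]
    apply mul_mem
    · obtain ⟨c, hc⟩ := h2 m
      rw [← hc]
      exact hT1 c
    · rw [Finsupp.prod, map_prod]
      apply prod_mem
      intro i _
      rw [map_pow]
      exact pow_mem (hT2 i) _
  exact div_mem (h1 a ha1) (h1 b hb1)

end coefficients

section main

variable {K1 E M G : Type} [Field K1] [CharZero K1] [Field E] [Field M] [Algebra K1 E]
  [Algebra E M] [Algebra K1 M] [IsScalarTower K1 E M] [FiniteDimensional E M] [IsGalois E M]
  [Group G] [Finite G]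

theorem sol_of_regSol (α : G →* (M ≃ₐ[E] M)) (v : ℕ → E) (hv : AlgebraicIndependent K1 v)
    (hE : IntermediateField.adjoin K1 (Set.range v) = ⊤)
    (L1 : IntermediateField K1 M) [FiniteDimensional K1 L1] [IsGalois K1 L1]
    (r : (M ≃ₐ[E] M) →* (L1 ≃ₐ[K1] L1)) (hr : Function.Bijective r)
    (hr' : ∀ τ (x : L1), ((r τ x : L1) : M) = τ x) (hsol : RegSol K1 L1 G (r.comp α)) :
    ∃ (F : Type) (_ : Field F) (_ : Algebra E F) (_ : Algebra M F) (_ : IsScalarTower E M F)
      (_ : FiniteDimensional E F) (_ : IsGalois E F) (γ : (F ≃ₐ[E] F) ≃* G),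
      (∀ (σ : F ≃ₐ[E] F) (x : M), σ (algebraMap M F x) = algebraMap M F (α (γ σ) x)) ∧
      ∀ (y : F) (p : Polynomial K1), p ≠ 0 →
        p.eval₂ ((algebraMap M F).comp (algebraMap K1 M)) y = 0 → ∃ x, algebraMap M F x = y := by
  obtain ⟨F1, _, iKF1, iLF1, iK1F1, hst1, hst2, hfd1, hgal1, γ1, hγ1, hcl1⟩ := hsol
  -- the action of `G` on `F1`
  let actF1 : MulSemiringAction G F1 := MulSemiringAction.compHom F1
    (γ1.symm.toMonoidHom : G →* (F1 ≃ₐ[RatFunc K1] F1))
  have hs1 : ∀ (g : G) (f : F1), g • f = γ1.symm g f := fun _ _ => rfl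
  have hgg1 : IsGaloisGroup G (RatFunc K1) F1 :=
    IsGaloisGroup.of_mulEquiv (G := F1 ≃ₐ[RatFunc K1] F1) γ1.symm (fun _ _ => rfl)
  let P := MvPolynomial ℕ F1
  let actP : MulSemiringAction G P := coefAct ℕ
  let F := FractionRing P
  let actF : MulSemiringAction G F := IsFractionRing.mulSemiringAction G P F
  have hsF : ∀ (g : G) (p : P), g • algebraMap P F p =
      algebraMap P F (MvPolynomial.map (MulSemiringAction.toRingHom G F1 g) p) :=
    fun g p => IsFractionRing.ringEquivOfRingEquiv_algebraMap _ _
  have hC : ∀ f : F1, algebraMap F1 F f = algebraMap P F (MvPolynomial.C f) := fun f =>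
    IsScalarTower.algebraMap_apply F1 P F f
  have hsF1 : ∀ (g : G) (f : F1), g • algebraMap F1 F f = algebraMap F1 F (g • f) := by
    intro g f
    rw [hC, hC, hsF, MvPolynomial.map_C]
    rfl
  -- the homomorphism from `E` to `F`
  let t : F1 := algebraMap (RatFunc K1) F1 RatFunc.X
  have ht : Transcendental K1 t := by
    have h1 : Transcendental K1 (RatFunc.X : RatFunc K1) := RatFunc.transcendental_X
    exact (transcendental_algebraMap_iff (algebraMap (RatFunc K1) F1).injective).2 h1
  let w : ℕ → F := Sum.elim (fun j => algebraMap P F (MvPolynomial.X j))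
    (algebraMap F1 F ∘ fun _ : PUnit.{1} => t) ∘ Equiv.natSumPUnitEquivNat.symm
  have hw : AlgebraicIndependent K1 w := by
    refine AlgebraicIndependent.comp ?_ _ (Equiv.injective _)
    refine AlgebraicIndependent.sumElim_comp (S := F1) ?_ ?_
    · exact (algebraicIndependent_unique_type_iff (ι := PUnit)).2 ht
    · exact (MvPolynomial.algebraicIndependent_X ℕ F1).map' (f := IsScalarTower.toAlgHom F1 P F)
        (IsFractionRing.injective P F)
  obtain ⟨iE, hiE⟩ := exists_hom v hv hE w hw
  have hwX : ∀ j, algebraMap P F (MvPolynomial.X j) ∈ iE.fieldRange := by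
    intro j
    refine ⟨v (Equiv.natSumPUnitEquivNat (Sum.inl j)), ?_⟩
    change iE _ = _
    rw [hiE]
    change Sum.elim _ _ (Equiv.natSumPUnitEquivNat.symm (Equiv.natSumPUnitEquivNat _)) = _
    rw [Equiv.symm_apply_apply]
    rfl
  have hwt : algebraMap F1 F t ∈ iE.fieldRange := by
    refine ⟨v (Equiv.natSumPUnitEquivNat (Sum.inr PUnit.unit)), ?_⟩
    change iE _ = _
    rw [hiE]
    change Sum.elim _ _ (Equiv.natSumPUnitEquivNat.symm (Equiv.natSumPUnitEquivNat _)) = _
    rw [Equiv.symm_apply_apply]
    rfl
  have hwK : ∀ c : K1, algebraMap F1 F (algebraMap K1 F1 c) ∈ iE.fieldRange := fun c => by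
    rw [← IsScalarTower.algebraMap_apply K1 F1 F]
    exact iE.fieldRange.algebraMap_mem c
  have hwR : ∀ q : RatFunc K1, algebraMap F1 F (algebraMap (RatFunc K1) F1 q) ∈
      iE.fieldRange := by
    intro q
    obtain ⟨a, b, hb, rfl⟩ := IsFractionRing.div_surjective (Polynomial K1) q
    have h1 : ∀ p : Polynomial K1, algebraMap F1 F (algebraMap (RatFunc K1) F1
        (algebraMap (Polynomial K1) (RatFunc K1) p)) ∈ iE.fieldRange := by
      intro p
      induction p using Polynomial.induction_on' with
      | add p q hp hq =>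
        rw [map_add, map_add, map_add]
        exact add_mem hp hq
      | monomial n c =>
        rw [← Polynomial.C_mul_X_pow_eq_monomial, map_mul, map_mul, map_mul, map_pow, map_pow,
          map_pow]
        apply mul_mem
        · rw [RatFunc.algebraMap_C]
          change algebraMap F1 F (algebraMap (RatFunc K1) F1 (algebraMap K1 (RatFunc K1) c)) ∈ _
          rw [← IsScalarTower.algebraMap_apply K1 (RatFunc K1) F1]
          exact hwK c
        · rw [RatFunc.algebraMap_X]
          exact pow_mem hwt n
    rw [map_div₀, map_div₀]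
    exact div_mem (h1 a) (h1 b)
  -- the algebra structure over `E`
  let iEF : Algebra E F := iE.toRingHom.toAlgebra
  have hEF : ∀ e : E, algebraMap E F e = iE e := fun _ => rfl
  have hst3 : IsScalarTower K1 E F := IsScalarTower.of_algebraMap_eq fun c => (iE.commutes c).symm
  have hcomm : ∀ (g : G) (e : E), g • iE e = iE e := by
    intro g e
    let σ : F →ₐ[K1] F :=
      { MulSemiringAction.toRingHom G F g with
        commutes' := fun c => by
          change g • algebraMap K1 F c = _
          rw [IsScalarTower.algebraMap_apply K1 F1 F, hsF1, hs1,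
            IsScalarTower.algebraMap_apply K1 (RatFunc K1) F1, AlgEquiv.commutes] }
    have hσ : ∀ f, σ f = g • f := fun _ => rfl
    have h1 : ∀ e ∈ IntermediateField.adjoin K1 (Set.range v), g • iE e = iE e := by
      intro e he
      induction he using IntermediateField.adjoin_induction with
      | mem x hx =>
        obtain ⟨i, rfl⟩ := hx
        rw [hiE]
        change g • Sum.elim _ _ (Equiv.natSumPUnitEquivNat.symm i) =
          Sum.elim _ _ (Equiv.natSumPUnitEquivNat.symm i)
        rcases Equiv.natSumPUnitEquivNat.symm i with j | u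
        · change g • algebraMap P F (MvPolynomial.X j) = algebraMap P F (MvPolynomial.X j)
          rw [hsF, MvPolynomial.map_X]
        · change g • algebraMap F1 F t = algebraMap F1 F t
          rw [hsF1, hs1]
          change algebraMap F1 F (γ1.symm g (algebraMap (RatFunc K1) F1 RatFunc.X)) = _
          rw [AlgEquiv.commutes]
      | algebraMap x => rw [iE.commutes, ← hσ, σ.commutes]
      | add x y _ _ hx hy => rw [map_add, smul_add, hx, hy]
      | inv x _ hx => rw [map_inv₀, smul_inv'', hx]
      | mul x y _ _ hx hy => rw [map_mul, smul_mul', hx, hy]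
    exact h1 e (by rw [hE]; trivial)
  have hgal : IsGaloisGroup G E F := by
    refine ⟨⟨?_⟩, ⟨?_⟩, ⟨?_⟩⟩
    · intro g g' h
      have h1 : γ1.symm g = γ1.symm g' := by
        ext f
        apply (algebraMap F1 F).injective
        rw [← hs1, ← hs1, ← hsF1, ← hsF1]
        exact h _
      exact γ1.symm.injective h1
    · intro g e y
      rw [Algebra.smul_def, Algebra.smul_def, smul_mul', hEF, hcomm]
    · intro y hy
      exact fixed_mem (K := RatFunc K1) ℕ hsF iE.fieldRange.toSubfield
        (fun c => by
          rw [← hC]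
          exact hwR c) hwX y hy
  -- the algebra structure over `M`
  let jL : L1 →ₐ[K1] F := (IsScalarTower.toAlgHom K1 F1 F).comp (IsScalarTower.toAlgHom K1 L1 F1)
  have hjL : ∀ l : L1, jL l = algebraMap F1 F (algebraMap L1 F1 l) := fun _ => rfl
  let Φ : E ⊗[K1] L1 →ₐ[E] M := Algebra.TensorProduct.lift (Algebra.ofId E M)
    (L1.val : L1 →ₐ[K1] M) (fun _ _ => Commute.all _ _)
  have hΦ : ∀ (e : E) (l : L1), Φ (e ⊗ₜ l) = algebraMap E M e * (l : M) := fun e l =>
    Algebra.TensorProduct.lift_tmul _ _ _ _ _
  have hΦb : Function.Bijective Φ := tensor_bijective L1 r hr hr'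
  let Ψ : E ⊗[K1] L1 →ₐ[E] F := Algebra.TensorProduct.lift (Algebra.ofId E F)
    jL (fun _ _ => Commute.all _ _)
  have hΨ : ∀ (e : E) (l : L1), Ψ (e ⊗ₜ l) = iE e * jL l := fun e l =>
    Algebra.TensorProduct.lift_tmul _ _ _ _ _
  let eΦ : E ⊗[K1] L1 ≃ₐ[E] M := AlgEquiv.ofBijective Φ hΦb
  let jM : M →ₐ[E] F := Ψ.comp eΦ.symm.toAlgHom
  have hjM : ∀ z, jM (Φ z) = Ψ z := by
    intro z
    change Ψ (eΦ.symm (eΦ z)) = Ψ z
    rw [AlgEquiv.symm_apply_apply]
  let iMF : Algebra M F := jM.toRingHom.toAlgebra
  have hMF : ∀ x : M, algebraMap M F x = jM x := fun _ => rfl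
  have hst4 : IsScalarTower E M F := IsScalarTower.of_algebraMap_eq fun e => (jM.commutes e).symm
  have hact : ∀ (g : G) (x : M), g • jM x = jM (α g x) := by
    intro g x
    obtain ⟨z, rfl⟩ := hΦb.2 x
    induction z using TensorProduct.induction_on with
    | zero => simp only [map_zero, smul_zero]
    | add z z' h h' => simp only [map_add, smul_add, h, h']
    | tmul e l =>
      have h1 : α g (Φ (e ⊗ₜ l)) = Φ (e ⊗ₜ (r (α g) l)) := by
        rw [hΦ, hΦ, map_mul, AlgEquiv.commutes, hr']
      rw [h1, hjM, hjM, hΨ, hΨ, smul_mul', hcomm, hjL, hjL, hsF1, hs1, hγ1,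
        MulEquiv.apply_symm_apply]
      rfl
  refine ⟨F, inferInstance, iEF, iMF, hst4, IsGaloisGroup.finiteDimensional G E F,
    IsGaloisGroup.isGalois G E F, (IsGaloisGroup.mulEquivAlgEquiv G E F).symm, ?_, ?_⟩
  · intro σ x
    obtain ⟨g, rfl⟩ := (IsGaloisGroup.mulEquivAlgEquiv G E F).surjective σ
    rw [MulEquiv.symm_apply_apply]
    exact hact g x
  · intro y p hp hpy
    have h1 : (algebraMap M F).comp (algebraMap K1 M) = algebraMap K1 F := by
      ext c
      rw [RingHom.comp_apply, IsScalarTower.algebraMap_apply K1 E M,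
        ← IsScalarTower.algebraMap_apply E M F, ← IsScalarTower.algebraMap_apply K1 E F]
    rw [h1] at hpy
    have h2 : IsAlgebraic K1 y := ⟨p, hp, hpy⟩
    obtain ⟨f, rfl⟩ := const_of_fractionRing y (h2.tower_top F1)
    have h3 : IsAlgebraic K1 f := (isAlgebraic_algebraMap_iff (algebraMap F1 F).injective).1 h2
    obtain ⟨l, rfl⟩ := hcl1 f (h3.tower_top L1)
    refine ⟨(l : M), ?_⟩
    have h4 : (l : M) = Φ (1 ⊗ₜ l) := by rw [hΦ, map_one, one_mul]
    rw [hMF, h4, hjM, hΨ, map_one, one_mul, hjL]

end main

section final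

/-- Solutions over a rational function field in countably many variables over `K1`. -/
theorem solution_of_descent (k E M G : Type) [Field k] [CharZero k] [Field E] [Algebra k E]
    [Field M] [Algebra E M] [Algebra k M] [IsScalarTower k E M] [FiniteDimensional E M]
    [IsGalois E M] [Group G] [Finite G] (α : G →* (M ≃ₐ[E] M)) (hclM : AlgClosedIn k M)
    (s : (M ≃ₐ[E] M) →* G) (hs : ∀ τ, α (s τ) = τ) (S : Finset E)
    (hS : ∀ (K1 : Type) [Field K1] [Algebra K1 E] [Algebra K1 M] [IsScalarTower K1 E M],
      (∀ x ∈ S, x ∈ Set.range (algebraMap K1 E)) →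
      ∃ L1 : IntermediateField K1 M, FiniteDimensional K1 L1 ∧ IsGalois K1 L1 ∧
        ∃ r : (M ≃ₐ[E] M) →* (L1 ≃ₐ[K1] L1), Function.Bijective r ∧
          ∀ τ (x : L1), ((r τ x : L1) : M) = τ x)
    (K1 : Type) [Field K1] [Algebra k K1] [Algebra K1 E] [IsScalarTower k K1 E]
    (hK1 : ∀ x ∈ S, x ∈ Set.range (algebraMap K1 E)) (hDD : DD K1) (v : ℕ → E)
    (hv : AlgebraicIndependent K1 v)
    (hE : IntermediateField.adjoin K1 (Set.range v) = ⊤) : HasSolutionOver k α := by
  have : CharZero K1 := charZero_of_injective_algebraMap (algebraMap k K1).injective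
  let _ : Algebra K1 M := ((algebraMap E M).comp (algebraMap K1 E)).toAlgebra
  have : IsScalarTower K1 E M := IsScalarTower.of_algebraMap_eq fun _ => rfl
  obtain ⟨L1, _, _, r, hr, hr'⟩ := hS K1 hK1
  let e := MulEquiv.ofBijective r hr
  have h1 : RegSol K1 L1 G (r.comp α) := by
    apply hDD
    refine ⟨s.comp e.symm.toMonoidHom, fun τ => ?_⟩
    change r (α (s (e.symm τ))) = τ
    rw [hs]
    exact e.apply_symm_apply τ
  obtain ⟨F, _, _, _, _, _, _, γ, hγ, hcl⟩ := sol_of_regSol α v hv hE L1 r hr hr' h1
  let ikF : Algebra k F := ((algebraMap E F).comp (algebraMap k E)).toAlgebra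
  have hkEF : IsScalarTower k E F := IsScalarTower.of_algebraMap_eq fun _ => rfl
  have hkMF : ∀ c : k, algebraMap k F c = algebraMap M F (algebraMap k M c) := by
    intro c
    rw [IsScalarTower.algebraMap_apply k E F, IsScalarTower.algebraMap_apply k E M,
      ← IsScalarTower.algebraMap_apply E M F]
  refine ⟨F, inferInstance, inferInstance, inferInstance, ikF, inferInstance, hkEF, inferInstance,
    inferInstance, γ, hγ, ?_⟩
  rintro y ⟨p, hp, hpy⟩
  have h2 : (algebraMap M F).comp ((algebraMap K1 M).comp (algebraMap k K1)) =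
      algebraMap k F := by
    ext c
    rw [RingHom.comp_apply, RingHom.comp_apply, hkMF, IsScalarTower.algebraMap_apply K1 E M,
      ← IsScalarTower.algebraMap_apply k K1 E, ← IsScalarTower.algebraMap_apply k E M]
  obtain ⟨x, rfl⟩ := hcl y (p.map (algebraMap k K1)) ((Polynomial.map_ne_zero_iff
    (algebraMap k K1).injective).2 hp) (by
      rw [Polynomial.eval₂_map, RingHom.comp_assoc, h2]
      exact hpy)
  have h3 : IsAlgebraic k x := by
    refine ⟨p, hp, ?_⟩
    apply (algebraMap M F).injective
    rw [map_zero, ← hpy, Polynomial.aeval_def, Polynomial.aeval_def, Polynomial.hom_eval₂]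
    congr 1
    ext c
    exact (hkMF c).symm
  obtain ⟨c, rfl⟩ := hclM x h3
  exact ⟨c, hkMF c⟩

variable (k : Type) [Field k]

/-- The variables. -/
noncomputable def var (i : ℕ) : RatFuncs k :=
  algebraMap (MvPolynomial ℕ k) (RatFuncs k) (MvPolynomial.X i)

lemma algebraicIndependent_var : AlgebraicIndependent k (var k) :=
  (MvPolynomial.algebraicIndependent_X ℕ k).map'
    (f := IsScalarTower.toAlgHom k (MvPolynomial ℕ k) (RatFuncs k))
    (IsFractionRing.injective (MvPolynomial ℕ k) (RatFuncs k))

lemma mem_of_vars (T : IntermediateField k (RatFuncs k)) (p : MvPolynomial ℕ k)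
    (h : ∀ i ∈ p.vars, var k i ∈ T) : algebraMap (MvPolynomial ℕ k) (RatFuncs k) p ∈ T := by
  rw [p.as_sum, map_sum]
  apply sum_mem
  intro m hm
  rw [MvPolynomial.monomial_eq, map_mul]
  apply mul_mem
  · change algebraMap (MvPolynomial ℕ k) (RatFuncs k) (algebraMap k (MvPolynomial ℕ k) _) ∈ T
    rw [← IsScalarTower.algebraMap_apply]
    exact T.algebraMap_mem _
  · rw [Finsupp.prod, map_prod]
    apply prod_mem
    intro i hi
    rw [map_pow]
    exact pow_mem (h i ((MvPolynomial.mem_vars_iff_mem_support i).2 ⟨m, hm, hi⟩)) _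

lemma exists_bound (S : Finset (RatFuncs k)) : ∃ m : ℕ, ∀ x ∈ S,
    x ∈ IntermediateField.adjoin k (Set.range fun i : Fin m => var k i) := by
  classical
  induction S using Finset.induction_on with
  | empty => exact ⟨0, fun x hx => absurd hx (Finset.notMem_empty x)⟩
  | insert x S _ ih =>
    obtain ⟨m, hm⟩ := ih
    obtain ⟨a, b, hb, rfl⟩ := IsFractionRing.div_surjective (MvPolynomial ℕ k) x
    let m' := (a.vars ∪ b.vars).sup id + 1
    have hle : ∀ m₁ m₂ : ℕ, m₁ ≤ m₂ →
        IntermediateField.adjoin k (Set.range fun i : Fin m₁ => var k i) ≤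
        IntermediateField.adjoin k (Set.range fun i : Fin m₂ => var k i) := by
      intro m₁ m₂ h
      apply IntermediateField.adjoin.mono
      rintro _ ⟨i, rfl⟩
      exact ⟨Fin.castLE h i, rfl⟩
    refine ⟨max m m', fun y hy => ?_⟩
    rw [Finset.mem_insert] at hy
    rcases hy with rfl | hy
    · apply hle m' _ (le_max_right _ _)
      have h1 : ∀ i ∈ a.vars ∪ b.vars, var k i ∈
          IntermediateField.adjoin k (Set.range fun i : Fin m' => var k i) := by
        intro i hi
        apply IntermediateField.subset_adjoin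
        exact ⟨⟨i, Nat.lt_succ_of_le (Finset.le_sup (f := id) hi)⟩, rfl⟩
      exact div_mem (mem_of_vars k _ a fun i hi => h1 i (Finset.mem_union_left _ hi))
        (mem_of_vars k _ b fun i hi => h1 i (Finset.mem_union_right _ hi))
    · exact hle m _ (le_max_left _ _) (hm y hy)

open scoped IntermediateField.algebraAdjoinAdjoin in
lemma algebraicIndependent_shift (m : ℕ) : AlgebraicIndependent
    (IntermediateField.adjoin k (Set.range fun i : Fin m => var k i))
    (fun j : ℕ => var k (m + j)) := by
  have h1 : AlgebraicIndependent k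
      (Sum.elim (fun j : ℕ => var k (m + j)) (fun i : Fin m => var k i)) := by
    have h2 := (algebraicIndependent_var k).comp
      (Sum.elim (fun j : ℕ => m + j) (fun i : Fin m => (i : ℕ))) (by
        rintro (a | a) (b | b) h
        · simp only [Sum.elim_inl] at h
          congr 1
          omega
        · simp only [Sum.elim_inl, Sum.elim_inr] at h
          omega
        · simp only [Sum.elim_inl, Sum.elim_inr] at h
          omega
        · simp only [Sum.elim_inr] at h
          congr 1
          exact Fin.ext h)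
    convert h2 using 1
    funext t
    rcases t with t | t <;> rfl
  exact (AlgebraicIndependent.sumElim_iff.1 h1).2.extendScalars _

lemma adjoin_aux {E : Type} [Field E] [Algebra k E] (T0 : IntermediateField k E) (v : Set E)
    (w : ℕ → E) (h : ∀ i, w i ∈ T0 ∨ w i ∈ v) (hw : ∀ T : IntermediateField k E,
      (∀ i, w i ∈ T) → T = ⊤) : IntermediateField.adjoin T0 v = ⊤ := by
  have h1 : (IntermediateField.adjoin T0 v).restrictScalars k = ⊤ := by
    apply hw
    intro i
    rw [IntermediateField.mem_restrictScalars]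
    rcases h i with hi | hi
    · exact IntermediateField.algebraMap_mem (IntermediateField.adjoin T0 v) (⟨w i, hi⟩ : T0)
    · exact IntermediateField.subset_adjoin _ _ hi
  rw [eq_top_iff]
  intro x _
  rw [← IntermediateField.mem_restrictScalars (K := k), h1]
  trivial

lemma eq_top_of_var (T : IntermediateField k (RatFuncs k)) (h : ∀ i, var k i ∈ T) : T = ⊤ := by
  rw [eq_top_iff]
  intro x _
  obtain ⟨a, b, hb, rfl⟩ := IsFractionRing.div_surjective (MvPolynomial ℕ k) x
  exact div_mem (mem_of_vars k T a fun i _ => h i) (mem_of_vars k T b fun i _ => h i)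

lemma adjoin_shift (m : ℕ) : IntermediateField.adjoin
    (IntermediateField.adjoin k (Set.range fun i : Fin m => var k i))
    (Set.range fun j : ℕ => var k (m + j)) = ⊤ := by
  refine adjoin_aux k _ _ (var k) ?_ (eq_top_of_var k)
  intro i
  rcases lt_or_ge i m with hi | hi
  · exact Or.inl (IntermediateField.subset_adjoin k _ ⟨⟨i, hi⟩, rfl⟩)
  · obtain ⟨j, rfl⟩ := Nat.exists_eq_add_of_le hi
    exact Or.inr ⟨j, rfl⟩

/-- If all finite split embedding problems over all extensions of `k` have regular solutions,
then the split problems over the rational function field in countably many variables have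
ordinary solutions. -/
theorem ordinary_of_DD [CharZero k] (h : ∀ (K : Type) [Field K] [Algebra k K], DD K) :
    OrdinaryProblemsSolvable k := by
  intro M G _ _ _ _ _ _ _ _ α hclM ⟨s, hs⟩
  have : CharZero (RatFuncs k) :=
    charZero_of_injective_algebraMap (algebraMap k (RatFuncs k)).injective
  obtain ⟨S, hS⟩ := exists_galois_descent (RatFuncs k) M
  obtain ⟨m, hm⟩ := exists_bound k S
  refine solution_of_descent k (RatFuncs k) M G α hclM s hs S hS
    (IntermediateField.adjoin k (Set.range fun i : Fin m => var k i)) ?_ (h _)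
    (fun j : ℕ => var k (m + j)) (algebraicIndependent_shift k m) (adjoin_shift k m)
  intro x hx
  exact ⟨⟨x, hm x hx⟩, rfl⟩

end final

end Pool.Agent.Helper31.OrdSol
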