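import Mathlib

/-!
# The group `SL(2, K)` over a field of characteristic two, elements and relations
-/

open Matrix Matrix.SpecialLinearGroup
open scoped MatrixGroups

namespace Pool.Agent.Helper31.SLE

variable {K : Type} [Field K]

/-- upper unipotent element -/
def u (x : K) : SL(2, K) := ⟨!![1, x; 0, 1], by simp [Matrix.det_fin_two_of]⟩

/-- the diagonal element `diag(a, a⁻¹)` -/
def t (a : Kˣ) : SL(2, K) := ⟨!![(a : K), 0; 0, ((a⁻¹ : Kˣ) : K)], by simp [Matrix.det_fin_two_of]⟩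

@[simp] lemma u_coe (x : K) : ((u x : SL(2, K)) : Matrix (Fin 2) (Fin 2) K) = !![1, x; 0, 1] := rfl
@[simp] lemma t_coe (a : Kˣ) : ((t a : SL(2, K)) : Matrix (Fin 2) (Fin 2) K) =
  !![(a : K), 0; 0, ((a⁻¹ : Kˣ) : K)] := rfl

section two
variable [CharP K 2]

/-- the Weyl element (characteristic two) -/
def w : SL(2, K) := ⟨!![0, 1; 1, 0], by
  rw [Matrix.det_fin_two_of]; simp [CharTwo.neg_eq]⟩

@[simp] lemma w_coe : ((w : SL(2, K)) : Matrix (Fin 2) (Fin 2) K) = !![0, 1; 1, 0] := rfl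

lemma w_mul_w : (w : SL(2, K)) * w = 1 := by
  apply Subtype.ext
  simp only [coe_mul, w_coe, coe_one, Matrix.mul_fin_two, Matrix.one_fin_two]
  simp

end two

lemma u_add (x y : K) : u (x + y) = u x * u y := by
  apply Subtype.ext
  simp only [coe_mul, u_coe, Matrix.mul_fin_two]
  simp [add_comm]

lemma u_zero : u (0 : K) = 1 := by
  apply Subtype.ext
  simp only [coe_one, u_coe, Matrix.one_fin_two]

lemma t_mul (a b : Kˣ) : t (a * b) = t a * t b := by
  apply Subtype.ext
  simp only [coe_mul, t_coe, Matrix.mul_fin_two]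
  simp [mul_comm]

lemma t_one : t (1 : Kˣ) = 1 := by
  apply Subtype.ext
  simp only [coe_one, t_coe, Matrix.one_fin_two]
  simp

lemma t_u (a : Kˣ) (x : K) : t a * u x = u ((a : K) ^ 2 * x) * t a := by
  apply Subtype.ext
  simp only [coe_mul, t_coe, u_coe, Matrix.mul_fin_two]
  have : (a : K) * x = (a : K) ^ 2 * x * ((a⁻¹ : Kˣ) : K) := by
    rw [pow_two, mul_assoc, mul_comm x, mul_assoc, ← mul_assoc (a : K) ((a⁻¹ : Kˣ) : K) x,
      Units.mul_inv, one_mul]
  simp only [mul_one, mul_zero, add_zero, zero_mul, zero_add, one_mul, this]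

variable [CharP K 2]

lemma t_w (a : Kˣ) : t a * w = w * t a⁻¹ := by
  apply Subtype.ext
  simp only [coe_mul, t_coe, w_coe, Matrix.mul_fin_two]
  simp

lemma w_u_w (x : Kˣ) : w * u (x : K) * w = u ((x⁻¹ : Kˣ) : K) * w * t x * u ((x⁻¹ : Kˣ) : K) := by
  have h2 : ((x⁻¹ : Kˣ) : K) + ((x⁻¹ : Kˣ) : K) = 0 := CharTwo.add_self_eq_zero _
  apply Subtype.ext
  simp only [coe_mul, t_coe, w_coe, u_coe, Matrix.mul_fin_two]
  simp
  simpa using h2.symm

/-- induction principle: `SL(2,K)` is generated by `u x` and `w`. -/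
lemma induction_uw (P : SL(2, K) → Prop) (hu : ∀ x, P (u x)) (hw : P w)
    (hmul : ∀ A B, P A → P B → P (A * B)) (A : SL(2, K)) : P A := by
  refine SL2.transvection_induction P (fun i j h c => ?_) hmul A
  have h01 : (SpecialLinearGroup.transvection (zero_ne_one) c : SL(2, K)) = u c := by
    ext i j; fin_cases i <;> fin_cases j <;> simp [transvection_coe]
  have h10 : (SpecialLinearGroup.transvection (one_ne_zero) c : SL(2, K)) = w * u c * w := by
    ext i j
    simp only [coe_mul, w_coe, u_coe, Matrix.mul_fin_two]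
    fin_cases i <;> fin_cases j <;> simp [transvection_coe]
  fin_cases i
  · obtain rfl : j = 1 := by fin_cases j <;> tauto
    rw [show (SpecialLinearGroup.transvection h c : SL(2, K)) = u c from h01]
    exact hu c
  · obtain rfl : j = 0 := by fin_cases j <;> tauto
    rw [show (SpecialLinearGroup.transvection h c : SL(2, K)) = w * u c * w from h10]
    exact hmul _ _ (hmul _ _ hw (hu c)) hw

/-! ### Conjugates of `u 1` -/

/-- elements of the form `u x * (w * u c * w) * u x` -/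
def v (x c : K) : SL(2, K) := u x * w * u c * w * u x

lemma v_coe (x c : K) :
    ((v x c : SL(2, K)) : Matrix (Fin 2) (Fin 2) K) =
      !![1 + x * c, x ^ 2 * c; c, 1 + x * c] := by
  have h3 : x + x = 0 := CharTwo.add_self_eq_zero x
  simp only [v, coe_mul, w_coe, u_coe, Matrix.mul_fin_two]
  simp only [mul_one, mul_zero, add_zero, zero_mul, zero_add, one_mul]
  have e : (x * c + 1) * x + x = x ^ 2 * c := by
    linear_combination h3
  have e' : x * c + 1 = 1 + x * c := by ring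
  simp [e, mul_comm c x]
  exact e'

lemma u_inj {x y : K} (h : u x = u y) : x = y := by
  have := congrArg (fun g : SL(2, K) => (g : Matrix (Fin 2) (Fin 2) K) 0 1) h
  simpa using this

lemma u_inv (x : K) : (u x)⁻¹ = u x := by
  rw [inv_eq_iff_mul_eq_one, ← u_add, CharTwo.add_self_eq_zero, u_zero]

lemma w_inv : (w : SL(2, K))⁻¹ = w := by
  rw [inv_eq_iff_mul_eq_one, w_mul_w]

lemma conj_form (h : SL(2, K)) :
    ((h * u 1 * h⁻¹ : SL(2, K)) : Matrix (Fin 2) (Fin 2) K) =
      !![1 + h 0 0 * h 1 0, h 0 0 ^ 2; h 1 0 ^ 2, 1 + h 0 0 * h 1 0] := by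
  have hd := h.2
  rw [Matrix.det_fin_two, sub_eq_add_neg, CharTwo.neg_eq] at hd
  have key : (h : Matrix (Fin 2) (Fin 2) K) * !![1, 1; 0, 1] =
      !![1 + h 0 0 * h 1 0, h 0 0 ^ 2; h 1 0 ^ 2, 1 + h 0 0 * h 1 0] *
        (h : Matrix (Fin 2) (Fin 2) K) := by
    have h3 : ∀ x : K, x + x = 0 := fun x => CharTwo.add_self_eq_zero x
    ext i j
    fin_cases i <;> fin_cases j <;> simp [Matrix.mul_apply, Fin.sum_univ_two]
    · linear_combination - h3 (h 0 0 * h 0 0 * h 1 0)
    · linear_combination - (h 0 0) * hd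
    · linear_combination - h3 (h 0 0 * h 1 0 * h 1 0)
    · linear_combination - (h 1 0) * hd
  have h4 : (h : Matrix (Fin 2) (Fin 2) K) * ((h⁻¹ : SL(2, K)) : Matrix (Fin 2) (Fin 2) K) = 1 := by
    rw [← coe_mul, mul_inv_cancel, coe_one]
  rw [coe_mul, coe_mul, u_coe, key, Matrix.mul_assoc, h4, Matrix.mul_one]

lemma isConj_u {b : K} (hb : b ≠ 0) [Finite K] : IsConj (u 1) (u b) := by
  obtain ⟨s, hs⟩ := FiniteField.isSquare_of_char_two (ringChar.eq K 2) b
  have hs0 : s ≠ 0 := by rintro rfl; simp at hs; exact hb hs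
  rw [isConj_iff]
  refine ⟨t (Units.mk0 s hs0), ?_⟩
  rw [t_u, mul_inv_cancel_right]
  congr 1
  rw [hs, Units.val_mk0]; ring

lemma isConj_v {x c : K} (hc : c ≠ 0) [Finite K] : IsConj (u 1) (v x c) := by
  refine (isConj_u hc).trans ?_
  rw [isConj_iff]
  refine ⟨u x * w, ?_⟩
  rw [_root_.mul_inv_rev, u_inv, w_inv, v]
  simp only [mul_assoc]

lemma isConj_cases {g : SL(2, K)} (h : IsConj (u 1) g) :
    (∃ b : K, b ≠ 0 ∧ g = u b) ∨ ∃ x c : K, c ≠ 0 ∧ g = v x c := by
  rw [isConj_iff] at h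
  obtain ⟨h, rfl⟩ := h
  by_cases h10 : h 1 0 = 0
  · left
    have hd := h.2
    rw [Matrix.det_fin_two, h10, mul_zero, sub_zero] at hd
    have h00 : h 0 0 ≠ 0 := fun h0 => by simp [h0] at hd
    refine ⟨h 0 0 ^ 2, pow_ne_zero 2 h00, ?_⟩
    apply Subtype.ext
    rw [conj_form, h10]
    simp [u]
  · right
    refine ⟨h 0 0 / h 1 0, h 1 0 ^ 2, pow_ne_zero 2 h10, ?_⟩
    apply Subtype.ext
    rw [conj_form]
    change _ = ((v (h 0 0 / h 1 0) (h 1 0 ^ 2) : SL(2, K)) : Matrix (Fin 2) (Fin 2) K)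
    rw [v_coe]
    have e1 : h 0 0 / h 1 0 * h 1 0 ^ 2 = h 0 0 * h 1 0 := by field_simp
    have e2 : (h 0 0 / h 1 0) ^ 2 * h 1 0 ^ 2 = h 0 0 ^ 2 := by field_simp
    rw [e1, e2]

variable [Fintype K] [DecidableEq K]

open Classical in
/-- The sum of a function over the conjugacy class of `u 1`. -/
lemma sum_class {A : Type} [AddCommMonoid A] (f : SL(2, K) → A) :
    ∑ g ∈ Finset.univ.filter (fun g => IsConj (u 1) g), f g =
      ∑ b : Kˣ, f (u (b : K)) + ∑ x : K, ∑ c : Kˣ, f (v x (c : K)) := by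
  rw [← Finset.sum_product' Finset.univ Finset.univ (fun x (c : Kˣ) => f (v x (c : K)))]
  set P : Kˣ ⊕ (K × Kˣ) → SL(2, K) := Sum.elim (fun b => u (b : K)) (fun p => v p.1 (p.2 : K))
    with hP
  have hPinj : Function.Injective P := by
    rintro (b | ⟨x, c⟩) (b' | ⟨x', c'⟩) h
    · have := u_inj (show u (b : K) = u (b' : K) from h)
      rw [Units.ext this]
    · exfalso
      have := congrArg (fun g : SL(2, K) => (g : Matrix (Fin 2) (Fin 2) K) 1 0) h
      simp only [hP, Sum.elim_inl, Sum.elim_inr, u_coe, v_coe] at this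
      simp at this
      exact c'.ne_zero this.symm
    · exfalso
      have := congrArg (fun g : SL(2, K) => (g : Matrix (Fin 2) (Fin 2) K) 1 0) h
      simp only [hP, Sum.elim_inl, Sum.elim_inr, u_coe, v_coe] at this
      simp at this
    · have h1 := congrArg (fun g : SL(2, K) => (g : Matrix (Fin 2) (Fin 2) K) 1 0) h
      have h2 := congrArg (fun g : SL(2, K) => (g : Matrix (Fin 2) (Fin 2) K) 0 0) h
      simp only [hP, Sum.elim_inr, v_coe] at h1 h2
      simp at h1 h2
      have hcc : c = c' := Units.ext h1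
      subst hcc
      have hxx : x = x' := by
        exact mul_right_cancel₀ c.ne_zero (by simpa using h2)
      rw [hxx]
  have himg : Finset.univ.filter (fun g => IsConj (u 1) g) = Finset.univ.image P := by
    ext g
    simp only [Finset.mem_filter, Finset.mem_univ, true_and, Finset.mem_image]
    constructor
    · intro hg
      rcases isConj_cases hg with ⟨b, hb, rfl⟩ | ⟨x, c, hc, rfl⟩
      · exact ⟨Sum.inl (Units.mk0 b hb), rfl⟩
      · exact ⟨Sum.inr (x, Units.mk0 c hc), rfl⟩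
    · rintro ⟨(b | ⟨x, c⟩), rfl⟩
      · exact isConj_u b.ne_zero
      · exact isConj_v c.ne_zero
  rw [himg, Finset.sum_image (fun a _ b _ h => hPinj h), Fintype.sum_sum_type]
  rfl

end Pool.Agent.Helper31.SLE
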