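import Pool.Agent.Helper31.SLEight

/-!
# Irreducible representations of `SL(2, 8)` in characteristic two

If `ρ` is an irreducible representation over a field `F` of characteristic two containing `K`,
on which the class sum of `u 1` acts as the identity, then `dim ρ ≤ 4`.
-/

set_option linter.unusedSectionVars false

open Matrix Matrix.SpecialLinearGroup Module
open scoped MatrixGroups
open Pool.Agent.Helper31.SLE

namespace Pool.Agent.Helper31.SLEM

lemma sum_K {K : Type} [Field K] [Fintype K] [DecidableEq K] {A : Type} [AddCommMonoid A]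
    (g : K → A) : ∑ x : K, g x = g 0 + ∑ x : Kˣ, g (x : K) := by
  rw [Fintype.sum_eq_add_sum_subtype_ne g 0]
  congr 1
  exact (Fintype.sum_equiv unitsEquivNeZero _ _ (fun x => rfl)).symm

variable {K : Type} [Field K] [CharP K 2] [Fintype K] [DecidableEq K]
variable {F : Type} [Field F] [CharP F 2] (ι : K →+* F)
variable {V : Type} [AddCommGroup V] [Module F V]
variable (ρ : Representation F SL(2, K) V)

/-- `f j = ∑_x x^j u_x w v` -/
noncomputable def f (v : V) (j : ℕ) : V := ∑ x : K, (ι x) ^ j • ρ (u x) (ρ w v)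

omit [CharP K 2] [Fintype K] [DecidableEq K] [CharP F 2] in
lemma rho_mul (g h : SL(2, K)) (v : V) : ρ (g * h) v = ρ g (ρ h v) := by
  rw [map_mul]; rfl

/-- `m`-weight vectors fixed by `U` -/
def IsWt (m : ℕ) (v : V) : Prop :=
  (∀ x : K, ρ (u x) v = v) ∧ ∀ a : Kˣ, ρ (t a) v = (ι (a : K)) ^ m • v

omit [CharP F 2] [CharP K 2] [DecidableEq K] [Fintype K] in
lemma iota_ne (a : Kˣ) : ι (a : K) ≠ 0 := by
  rw [Ne, map_eq_zero]; exact a.ne_zero

variable (F) in
omit [CharP F 2] in
lemma two_smul_eq [CharP F 2] (v : V) : v + v = 0 := by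
  rw [← two_smul F v, CharTwo.two_eq_zero, zero_smul]

/-- action of `u y` on `f j` -/
lemma u_f (v : V) (j : ℕ) (y : K) :
    ρ (u y) (f ι ρ v j) =
      ∑ i ∈ Finset.range (j + 1), ((j.choose i : F) * (ι y) ^ (j - i)) • f ι ρ v i := by
  unfold f
  rw [map_sum]
  have h1 : ∀ x : K, ρ (u y) ((ι x) ^ j • ρ (u x) (ρ w v)) =
      (ι x) ^ j • ρ (u (y + x)) (ρ w v) := by
    intro x
    rw [map_smul, ← rho_mul, ← u_add]
  simp_rw [h1]
  rw [← Equiv.sum_comp (Equiv.addLeft y)]
  simp only [Equiv.coe_addLeft, ← add_assoc, CharTwo.add_self_eq_zero, zero_add]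
  simp_rw [Finset.smul_sum, smul_smul]
  rw [Finset.sum_comm]
  apply Finset.sum_congr rfl
  intro x _
  rw [← Finset.sum_smul]
  congr 1
  rw [add_comm y x, map_add, add_pow]
  apply Finset.sum_congr rfl
  intro i _
  ring

omit [CharP F 2] in
/-- for `n ≥ 1` only units contribute to `f n` -/
lemma f_units (v : V) {n : ℕ} (hn : 1 ≤ n) :
    f ι ρ v n = ∑ x : Kˣ, (ι (x : K)) ^ n • ρ (u (x : K)) (ρ w v) := by
  unfold f
  rw [sum_K, map_zero, zero_pow (by omega), zero_smul, zero_add]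

omit [CharP F 2] in
lemma w_u_w_v {m : ℕ} {v : V} (hv : IsWt ι ρ m v) (x : Kˣ) :
    ρ w (ρ (u (x : K)) (ρ w v)) = (ι (x : K)) ^ m • ρ (u ((x⁻¹ : Kˣ) : K)) (ρ w v) := by
  rw [← rho_mul, ← rho_mul, w_u_w, rho_mul, rho_mul, rho_mul, hv.1, hv.2, map_smul, map_smul]

omit [CharP F 2] in
lemma pow_seven (hK : Fintype.card K = 8) (x : Kˣ) {n : ℕ} (hn : 7 ∣ n) : (ι (x : K)) ^ n = 1 := by
  have hcard : Fintype.card Kˣ = 7 := by rw [Fintype.card_units, hK]
  obtain ⟨k, rfl⟩ := hn
  have h7 : x ^ 7 = 1 := by rw [← hcard]; exact pow_card_eq_one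
  have : (ι (x : K)) ^ 7 = 1 := by
    rw [← map_pow, ← Units.val_pow_eq_pow_val, h7, Units.val_one, map_one]
  rw [pow_mul, this, one_pow]

omit [CharP F 2] in
/-- action of `w` on `f j`, `j ≥ 1` -/
lemma w_f (hK : Fintype.card K = 8) {m : ℕ} {v : V} (hv : IsWt ι ρ m v) {j e : ℕ} (hj : 1 ≤ j)
    (he : 1 ≤ e) (hd : 7 ∣ j + m + e) : ρ w (f ι ρ v j) = f ι ρ v e := by
  rw [f_units ι ρ v hj, f_units ι ρ v he, map_sum, ← Equiv.sum_comp (Equiv.inv Kˣ)]
  apply Finset.sum_congr rfl
  intro x _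
  rw [Equiv.inv_apply, map_smul, w_u_w_v ι ρ hv, inv_inv, smul_smul, ← pow_add]
  congr 1
  have h1 := pow_seven ι hK x hd
  have h2 : ι ((x⁻¹ : Kˣ) : K) = (ι (x : K))⁻¹ := by simp
  rw [h2, inv_pow, inv_eq_iff_eq_inv, ← mul_left_inj' (pow_ne_zero e (iota_ne ι x)), ← pow_add, h1,
    inv_mul_cancel₀ (pow_ne_zero e (iota_ne ι x))]

omit [CharP F 2] in
/-- action of `w` on `f 0` -/
lemma w_f_zero (hK : Fintype.card K = 8) {m : ℕ} {v : V} (hv : IsWt ι ρ m v) {e : ℕ}
    (he : 1 ≤ e) (hd : 7 ∣ m + e) : ρ w (f ι ρ v 0) = v + f ι ρ v e := by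
  have h0 : f ι ρ v 0 = ρ w v + ∑ x : Kˣ, ρ (u (x : K)) (ρ w v) := by
    unfold f
    rw [sum_K]
    simp [u_zero]
  rw [h0, map_add, ← rho_mul, w_mul_w, map_one, Module.End.one_apply, f_units ι ρ v he, map_sum,
    ← Equiv.sum_comp (Equiv.inv Kˣ)]
  congr 1
  apply Finset.sum_congr rfl
  intro x _
  rw [Equiv.inv_apply, w_u_w_v ι ρ hv, inv_inv]
  congr 1
  have h1 := pow_seven ι hK x hd
  have h2 : ι ((x⁻¹ : Kˣ) : K) = (ι (x : K))⁻¹ := by simp
  rw [h2, inv_pow, inv_eq_iff_eq_inv, ← mul_left_inj' (pow_ne_zero e (iota_ne ι x)), ← pow_add, h1,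
    inv_mul_cancel₀ (pow_ne_zero e (iota_ne ι x))]

omit [CharP F 2] in
/-- `f 0` is fixed by `u y`. -/
lemma u_f_zero (v : V) (y : K) : ρ (u y) (f ι ρ v 0) = f ι ρ v 0 := by
  unfold f
  simp only [pow_zero, one_smul]
  rw [map_sum]
  have h1 : ∀ x : K, ρ (u y) (ρ (u x) (ρ w v)) = ρ (u (y + x)) (ρ w v) := by
    intro x
    rw [← rho_mul, ← u_add]
  simp_rw [h1]
  exact Equiv.sum_comp (Equiv.addLeft y) (fun x => ρ (u x) (ρ w v))

omit [CharP F 2] in
lemma t_f_zero {m : ℕ} {v : V} (hv : IsWt ι ρ m v) (a : Kˣ) :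
    ρ (t a) (f ι ρ v 0) = (ι ((a⁻¹ : Kˣ) : K)) ^ m • f ι ρ v 0 := by
  unfold f
  simp only [pow_zero, one_smul]
  rw [map_sum, Finset.smul_sum]
  have h1 : ∀ x : K, ρ (t a) (ρ (u x) (ρ w v)) =
      (ι ((a⁻¹ : Kˣ) : K)) ^ m • ρ (u ((a : K) ^ 2 * x)) (ρ w v) := by
    intro x
    rw [← rho_mul ρ (t a) (u x), t_u, rho_mul, ← rho_mul ρ (t a) w, t_w, rho_mul, hv.2, map_smul,
      map_smul]
  simp_rw [h1]
  exact Equiv.sum_comp (Equiv.mulLeft₀ ((a : K) ^ 2) (pow_ne_zero 2 a.ne_zero))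
    (fun x => (ι ((a⁻¹ : Kˣ) : K)) ^ m • ρ (u x) (ρ w v))

omit [CharP F 2] in
/-- the `U`-sum of `f j` -/
lemma usum_f (v : V) (j : ℕ) :
    ∑ y : K, ρ (u y) (f ι ρ v j) = (∑ z : K, (ι z) ^ j) • f ι ρ v 0 := by
  unfold f
  simp only [pow_zero, one_smul]
  have h1 : ∀ y : K, ρ (u y) (∑ x : K, (ι x) ^ j • ρ (u x) (ρ w v)) =
      ∑ x : K, (ι x) ^ j • ρ (u (y + x)) (ρ w v) := by
    intro y
    rw [map_sum]
    apply Finset.sum_congr rfl
    intro x _
    rw [map_smul, ← rho_mul, ← u_add]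
  simp_rw [h1]
  rw [Finset.sum_comm, Finset.sum_smul]
  apply Finset.sum_congr rfl
  intro x _
  rw [← Finset.smul_sum]
  congr 1
  exact Equiv.sum_comp (Equiv.addRight x) (fun y => ρ (u y) (ρ w v))

omit [CharP F 2] in
lemma power_sum_zero (hK : Fintype.card K = 8) {j : ℕ} (hj : j < 7) : (∑ z : K, (ι z) ^ j) = 0 := by
  have h := FiniteField.sum_pow_lt_card_sub_one K j (by rw [hK]; exact hj)
  have := congrArg ι h
  rw [map_sum, map_zero] at this
  simpa using this

/-- submodules stable under `u x` and `w` are trivial -/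
lemma stable [hρ : ρ.IsIrreducible] (W : Submodule F V) (hu : ∀ x : K, ∀ z ∈ W, ρ (u x) z ∈ W)
    (hw : ∀ z ∈ W, ρ w z ∈ W) : W = ⊥ ∨ W = ⊤ := by
  have key : ∀ (g : SL(2, K)) ⦃z : V⦄, z ∈ W → ρ g z ∈ W := by
    intro g
    induction g using induction_uw with
    | hu x => exact fun z hz => hu x z hz
    | hw => exact fun z hz => hw z hz
    | hmul A B hA hB =>
      intro z hz
      rw [rho_mul]
      exact hA (hB hz)
  have h := hρ.eq_bot_or_eq_top (⟨W, key⟩ : Subrepresentation ρ)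
  rcases h with h | h
  · left; exact congrArg Subrepresentation.toSubmodule h
  · right; exact congrArg Subrepresentation.toSubmodule h

/-- `J` is closed for the weight `m`: indices in `1..7`, closed under binomial descent and under
the reflection `j ↦ -j-m` modulo 7. -/
def Closed (m : ℕ) (J : Finset ℕ) : Prop :=
  ∀ j ∈ J, 1 ≤ j ∧ (∀ i ∈ Finset.range (j + 1), i ≠ 0 → (j.choose i) % 2 = 1 → i ∈ J) ∧
    ∃ e ∈ J, 7 ∣ j + m + e

instance (m : ℕ) (J : Finset ℕ) : Decidable (Closed m J) := by unfold Closed; infer_instance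

/-- span of `f j`, `j ∈ J` -/
noncomputable def spn (v : V) (J : Finset ℕ) : Submodule F V :=
  Submodule.span F (f ι ρ v '' (J : Set ℕ))

lemma spn_stable (hK : Fintype.card K = 8) {m : ℕ} {v : V} (hv : IsWt ι ρ m v)
    (h0 : f ι ρ v 0 = 0) {J : Finset ℕ} (hJ : Closed m J) [ρ.IsIrreducible] :
    spn ι ρ v J = ⊥ ∨ spn ι ρ v J = ⊤ := by
  have mem : ∀ j ∈ J, f ι ρ v j ∈ spn ι ρ v J := fun j hj =>
    Submodule.subset_span ⟨j, hj, rfl⟩
  apply stable ρ
  · intro x z hz
    induction hz using Submodule.span_induction with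
    | mem z hz =>
      obtain ⟨j, hj, rfl⟩ := hz
      rw [u_f]
      apply Submodule.sum_mem
      intro i hi
      by_cases hi0 : i = 0
      · subst hi0; rw [h0, smul_zero]; exact Submodule.zero_mem _
      · by_cases hodd : (j.choose i) % 2 = 1
        · exact Submodule.smul_mem _ _ (mem i ((hJ j hj).2.1 i hi hi0 hodd))
        · have : ((j.choose i : ℕ) : F) = 0 := by
            rw [CharP.cast_eq_zero_iff F 2]; omega
          rw [this, zero_mul, zero_smul]; exact Submodule.zero_mem _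
    | zero => rw [map_zero]; exact Submodule.zero_mem _
    | add a b _ _ ha hb => rw [map_add]; exact Submodule.add_mem _ ha hb
    | smul c a _ ha => rw [map_smul]; exact Submodule.smul_mem _ _ ha
  · intro z hz
    induction hz using Submodule.span_induction with
    | mem z hz =>
      obtain ⟨j, hj, rfl⟩ := hz
      obtain ⟨e, he, hd⟩ := (hJ j hj).2.2
      rw [w_f ι ρ hK hv (hJ j hj).1 (hJ e he).1 hd]
      exact mem e he
    | zero => rw [map_zero]; exact Submodule.zero_mem _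
    | add a b _ _ ha hb => rw [map_add]; exact Submodule.add_mem _ ha hb
    | smul c a _ ha => rw [map_smul]; exact Submodule.smul_mem _ _ ha

open Classical in
lemma step {v : V} {J J' : Finset ℕ} (hJ : spn ι ρ v J = ⊥) (hJ' : spn ι ρ v J' = ⊤) {n : ℕ}
    (hn : (J' \ J).card ≤ n) : finrank F V ≤ n := by
  have h1 : ∀ j ∈ J, f ι ρ v j = 0 := by
    intro j hj
    have : f ι ρ v j ∈ spn ι ρ v J := Submodule.subset_span ⟨j, hj, rfl⟩
    rw [hJ] at this
    exact (Submodule.mem_bot F).1 this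
  have h2 : (⊤ : Submodule F V) ≤ Submodule.span F (((J' \ J).image (f ι ρ v) : Finset V) : Set V) := by
    rw [← hJ', spn, Submodule.span_le]
    rintro _ ⟨j, hj, rfl⟩
    by_cases hjJ : j ∈ J
    · rw [h1 j hjJ]; exact Submodule.zero_mem _
    · apply Submodule.subset_span
      rw [Finset.mem_coe, Finset.mem_image]
      exact ⟨j, Finset.mem_sdiff.2 ⟨hj, hjJ⟩, rfl⟩
  have h3 := finrank_span_finset_le_card (R := F) ((J' \ J).image (f ι ρ v))
  rw [Set.finrank, top_le_iff.1 h2, finrank_top] at h3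
  exact h3.trans (Finset.card_image_le.trans hn)

lemma dim_le_of_f_zero (hK : Fintype.card K = 8) {m : ℕ} (hm1 : 1 ≤ m) (hm6 : m ≤ 6) {v : V}
    (hv : IsWt ι ρ m v) (hv0 : v ≠ 0) (h0 : f ι ρ v 0 = 0) [ρ.IsIrreducible] :
    finrank F V ≤ 4 := by
  have hf : f ι ρ v (7 - m) ≠ 0 := by
    intro h
    have h1 := w_f_zero ι ρ hK hv (e := 7 - m) (by omega) (by omega)
    rw [h0, h, map_zero, add_zero] at h1
    exact hv0 h1.symm
  have hlast : spn ι ρ v (Finset.Icc 1 7) ≠ ⊥ := by
    intro h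
    have : f ι ρ v (7 - m) ∈ spn ι ρ v (Finset.Icc 1 7) :=
      Submodule.subset_span ⟨7 - m, by simp; omega, rfl⟩
    rw [h] at this
    exact hf ((Submodule.mem_bot F).1 this)
  have h00 : spn ι ρ v ∅ = ⊥ := by simp [spn]
  have key : ∀ J J' : Finset ℕ, Closed m J' → (J' \ J).card ≤ 4 → spn ι ρ v J = ⊥ →
      (finrank F V ≤ 4 ∨ spn ι ρ v J' = ⊥) := by
    intro J J' hc hcard hJ
    rcases spn_stable ι ρ hK hv h0 hc with h | h
    · exact Or.inr h
    · exact Or.inl (step ι ρ hJ h hcard)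
  interval_cases m
  · rcases key ∅ {2, 4} (by decide) (by decide) h00 with h | h
    · exact h
    rcases key {2, 4} {1, 2, 4, 5} (by decide) (by decide) h with h | h
    · exact h
    rcases key {1, 2, 4, 5} (Finset.Icc 1 7) (by decide) (by decide) h with h | h
    · exact h
    exact absurd h hlast
  · rcases key ∅ {1, 4} (by decide) (by decide) h00 with h | h
    · exact h
    rcases key {1, 4} {1, 2, 3, 4} (by decide) (by decide) h with h | h
    · exact h
    rcases key {1, 2, 3, 4} (Finset.Icc 1 7) (by decide) (by decide) h with h | h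
    · exact h
    exact absurd h hlast
  · rcases key ∅ {1, 2, 3} (by decide) (by decide) h00 with h | h
    · exact h
    rcases key {1, 2, 3} (Finset.Icc 1 7) (by decide) (by decide) h with h | h
    · exact h
    exact absurd h hlast
  · rcases key ∅ {1, 2} (by decide) (by decide) h00 with h | h
    · exact h
    rcases key {1, 2} {1, 2, 4, 6} (by decide) (by decide) h with h | h
    · exact h
    rcases key {1, 2, 4, 6} (Finset.Icc 1 7) (by decide) (by decide) h with h | h
    · exact h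
    exact absurd h hlast
  · rcases key ∅ {1, 4, 5} (by decide) (by decide) h00 with h | h
    · exact h
    rcases key {1, 4, 5} (Finset.Icc 1 7) (by decide) (by decide) h with h | h
    · exact h
    exact absurd h hlast
  · rcases key ∅ {2, 4, 6} (by decide) (by decide) h00 with h | h
    · exact h
    rcases key {2, 4, 6} (Finset.Icc 1 7) (by decide) (by decide) h with h | h
    · exact h
    exact absurd h hlast

lemma dim_le_of_wt_ne_zero (hK : Fintype.card K = 8) {m : ℕ} (hm1 : 1 ≤ m) (hm6 : m ≤ 6) {v : V}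
    (hv : IsWt ι ρ m v) (hv0 : v ≠ 0) [ρ.IsIrreducible] : finrank F V ≤ 4 := by
  by_cases h0 : f ι ρ v 0 = 0
  · exact dim_le_of_f_zero ι ρ hK hm1 hm6 hv hv0 h0
  · have hwt : IsWt ι ρ (7 - m) (f ι ρ v 0) := by
      refine ⟨fun x => u_f_zero ι ρ v x, fun a => ?_⟩
      rw [t_f_zero ι ρ hv]
      congr 1
      have h2 : ι ((a⁻¹ : Kˣ) : K) = (ι (a : K))⁻¹ := by simp
      have h7 : (ι (a : K)) ^ (m + (7 - m)) = 1 := by
        rw [show m + (7 - m) = 7 by omega]; exact pow_seven ι hK a dvd_rfl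
      rw [pow_add] at h7
      rw [h2, inv_pow]
      exact inv_eq_of_mul_eq_one_right h7
    refine dim_le_of_f_zero ι ρ hK (m := 7 - m) (by omega) (by omega) hwt h0 ?_
    have h1 : f ι ρ (f ι ρ v 0) 0 = ∑ x : K, ρ (u x) (ρ w (f ι ρ v 0)) := by
      unfold f
      simp only [pow_zero, one_smul]
    rw [h1, w_f_zero ι ρ hK hv (e := 7 - m) (by omega) (by omega)]
    simp only [map_add, hv.1, Finset.sum_add_distrib, Finset.sum_const, Finset.card_univ, hK,
      usum_f, power_sum_zero ι hK (show 7 - m < 7 by omega), zero_smul, add_zero]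
    rw [← Nat.cast_smul_eq_nsmul F, show ((8 : ℕ) : F) = 0 by
      rw [CharP.cast_eq_zero_iff F 2]; decide, zero_smul]

/-- the `U`-sum over units of `ρ w v` -/
lemma f_seven (hK : Fintype.card K = 8) (v : V) :
    f ι ρ v 7 = ∑ x : Kˣ, ρ (u (x : K)) (ρ w v) := by
  rw [f_units ι ρ v (by norm_num)]
  apply Finset.sum_congr rfl
  intro x _
  rw [pow_seven ι hK x dvd_rfl, one_smul]

lemma f_zero_eq (hK : Fintype.card K = 8) (v : V) : f ι ρ v 0 = ρ w v + f ι ρ v 7 := by
  rw [f_seven ι ρ hK]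
  unfold f
  rw [sum_K]
  simp [u_zero]

lemma dim_le_of_wt_zero (hK : Fintype.card K = 8) {v : V} (hv : IsWt ι ρ 0 v) (hv0 : v ≠ 0)
    [ρ.IsIrreducible]
    (hc : (∑ b : Kˣ, ρ (u (b : K)) + ∑ x : K, ∑ c : Kˣ, ρ (SLE.v x (c : K)) : V →ₗ[F] V) =
      LinearMap.id) : finrank F V ≤ 4 := by
  have hww : ∀ z : V, ρ w (ρ w z) = z := by
    intro z; rw [← rho_mul, w_mul_w, map_one]; rfl
  have h7 : f ι ρ v 7 = f ι ρ v 0 + ρ w v := by
    rw [f_zero_eq ι ρ hK, add_comm (ρ w v), add_assoc, two_smul_eq F, add_zero]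
  have hwf := w_f_zero ι ρ hK hv (e := 7) (by norm_num) (by norm_num)
  have hstab := stable ρ (Submodule.span F {v + f ι ρ v 0})
    (by
      intro x z hz
      rw [Submodule.mem_span_singleton] at hz ⊢
      obtain ⟨c, rfl⟩ := hz
      refine ⟨c, ?_⟩
      rw [map_smul, map_add, hv.1, u_f_zero])
    (by
      intro z hz
      rw [Submodule.mem_span_singleton] at hz ⊢
      obtain ⟨c, rfl⟩ := hz
      refine ⟨c, ?_⟩
      rw [map_smul, map_add, hwf, h7]
      congr 1
      rw [add_comm (f ι ρ v 0), ← add_assoc v, add_comm v (ρ w v), add_assoc (ρ w v),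
        ← add_assoc (ρ w v), two_smul_eq F, zero_add])
  rcases hstab with h | h
  · exfalso
    have h1 : v + f ι ρ v 0 = 0 := by
      have : v + f ι ρ v 0 ∈ Submodule.span F {v + f ι ρ v 0} := Submodule.mem_span_singleton_self _
      rw [h] at this
      exact (Submodule.mem_bot F).1 this
    have h2 : f ι ρ v 0 = v := by
      have := two_smul_eq F v
      exact (add_left_cancel (h1.trans this.symm))
    have h3 : (∑ b : Kˣ, ρ (u (b : K)) + ∑ x : K, ∑ c : Kˣ, ρ (SLE.v x (c : K)) : V →ₗ[F] V) v =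
        0 := by
      rw [LinearMap.add_apply, LinearMap.sum_apply, LinearMap.sum_apply]
      simp only [LinearMap.sum_apply, hv.1, SLE.v, rho_mul]
      have h4 : ∀ x : K, ∑ c : Kˣ, ρ (u x) (ρ w (ρ (u (c : K)) (ρ w v))) =
          ρ (u x) (ρ w v) + v := by
        intro x
        rw [← map_sum, ← map_sum, ← f_seven ι ρ hK, h7, h2, map_add, map_add, hww, hv.1]
      simp_rw [h4]
      rw [Finset.sum_add_distrib]
      have h5 : ∑ x : K, ρ (u x) (ρ w v) = v := by
        have h6 : f ι ρ v 0 = ∑ x : K, ρ (u x) (ρ w v) := by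
          unfold f
          simp only [pow_zero, one_smul]
        rw [← h6, h2]
      rw [h5]
      simp only [Finset.sum_const, Finset.card_univ, hK, Fintype.card_units]
      calc (8 - 1) • v + (v + 8 • v) = 8 • (v + v) := by
            norm_num
            abel
        _ = 0 := by rw [two_smul_eq F, smul_zero]
    rw [hc] at h3
    exact hv0 h3
  · have h1 := finrank_span_finset_le_card (R := F) ({v + f ι ρ v 0} : Finset V)
    rw [Finset.coe_singleton, Set.finrank, h, finrank_top, Finset.card_singleton] at h1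
    omega

/-- there is a nonzero vector fixed by `U` -/
lemma exists_fixed [Nontrivial V] : ∃ v : V, v ≠ 0 ∧ ∀ x : K, ρ (u x) v = v := by
  have key : ∀ S : Finset K, ∃ v : V, v ≠ 0 ∧ ∀ x ∈ S, ρ (u x) v = v := by
    intro S
    induction S using Finset.induction_on with
    | empty => obtain ⟨v, hv⟩ := exists_ne (0 : V); exact ⟨v, hv, by simp⟩
    | insert a S ha ih =>
      obtain ⟨v, hv, hS⟩ := ih
      by_cases h : v + ρ (u a) v = 0
      · refine ⟨v, hv, fun x hx => ?_⟩
        rcases Finset.mem_insert.1 hx with rfl | hx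
        · exact add_left_cancel (h.trans (two_smul_eq F v).symm)
        · exact hS x hx
      · refine ⟨v + ρ (u a) v, h, fun x hx => ?_⟩
        rcases Finset.mem_insert.1 hx with rfl | hx
        · rw [map_add, ← rho_mul, ← u_add, CharTwo.add_self_eq_zero, u_zero, map_one, add_comm]
          rfl
        · rw [map_add, ← rho_mul, ← u_add, add_comm x a, u_add, rho_mul, hS x hx]
  obtain ⟨v, hv, h⟩ := key Finset.univ
  exact ⟨v, hv, fun x => h x (Finset.mem_univ x)⟩

lemma exists_wt (hK : Fintype.card K = 8) [Nontrivial V] :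
    ∃ m : ℕ, m ≤ 6 ∧ ∃ v : V, v ≠ 0 ∧ IsWt ι ρ m v := by
  obtain ⟨v, hv, hfix⟩ := exists_fixed (F := F) ρ
  let e : ℕ → V := fun m => ∑ a : Kˣ, (ι ((a⁻¹ : Kˣ) : K)) ^ m • ρ (t a) v
  have hsum : ∑ m ∈ Finset.range 7, e m = v := by
    simp only [e]
    rw [Finset.sum_comm]
    simp_rw [← Finset.sum_smul]
    rw [Finset.sum_eq_single (1 : Kˣ)]
    · simp only [inv_one, Units.val_one, map_one, one_pow, Finset.sum_const, Finset.card_range,
        nsmul_eq_mul, mul_one, t_one, map_one]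
      have : ((7 : ℕ) : F) = 1 := by
        have h2 : (2 : F) = 0 := CharTwo.two_eq_zero
        push_cast
        linear_combination (3 : F) * h2
      rw [this, one_smul]; rfl
    · intro a _ ha
      have hne : ι ((a⁻¹ : Kˣ) : K) ≠ 1 := by
        rw [← map_one ι]
        intro h
        exact ha (inv_eq_one.1 (Units.ext (ι.injective h)))
      have hgeom : (∑ m ∈ Finset.range 7, (ι ((a⁻¹ : Kˣ) : K)) ^ m) * (ι ((a⁻¹ : Kˣ) : K) - 1) = 0 := by
        rw [geom_sum_mul, pow_seven ι hK _ dvd_rfl, sub_self]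
      rw [(mul_eq_zero.1 hgeom).resolve_right (sub_ne_zero.2 hne), zero_smul]
    · intro h; exact absurd (Finset.mem_univ _) h
  have hex : ∃ m ∈ Finset.range 7, e m ≠ 0 := by
    by_contra hcon
    push Not at hcon
    exact hv (by rw [← hsum]; exact Finset.sum_eq_zero hcon)
  obtain ⟨m, hm, hem⟩ := hex
  refine ⟨m, by have := Finset.mem_range.1 hm; omega, e m, hem, fun x => ?_, fun b => ?_⟩
  · simp only [e]
    rw [map_sum]
    apply Finset.sum_congr rfl
    intro a _
    rw [map_smul, ← rho_mul]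
    congr 1
    have h1 : u x * t a = t a * u (((a⁻¹ : Kˣ) : K) ^ 2 * x) := by
      rw [t_u, ← mul_assoc, ← mul_pow, Units.mul_inv, one_pow, one_mul]
    rw [h1, rho_mul, hfix]
  · simp only [e]
    rw [map_sum, ← Equiv.sum_comp (Equiv.mulLeft b) (fun a => (ι ((a⁻¹ : Kˣ) : K)) ^ m • ρ (t a) v),
      Finset.smul_sum]
    apply Finset.sum_congr rfl
    intro a _
    rw [map_smul, ← rho_mul, ← t_mul, Equiv.coe_mulLeft, smul_smul]
    congr 1
    rw [← mul_pow, ← map_mul, ← Units.val_mul]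
    congr 3
    rw [mul_inv, mul_inv_cancel_left]

include ι in
theorem dim_le (hK : Fintype.card K = 8) [FiniteDimensional F V] [hρ : ρ.IsIrreducible]
    (hc : (∑ b : Kˣ, ρ (u (b : K)) + ∑ x : K, ∑ c : Kˣ, ρ (SLE.v x (c : K)) : V →ₗ[F] V) =
      LinearMap.id) : finrank F V ≤ 4 := by
  have hnt : Nontrivial V := by
    by_contra h
    rw [not_nontrivial_iff_subsingleton] at h
    have : (⊥ : Subrepresentation ρ) = ⊤ := by
      apply Subrepresentation.toSubmodule_injective
      exact Subsingleton.elim _ _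
    exact bot_ne_top this
  obtain ⟨m, hm, v, hv0, hv⟩ := exists_wt ι ρ hK
  rcases Nat.eq_zero_or_pos m with rfl | hpos
  · exact dim_le_of_wt_zero ι ρ hK hv hv0 hc
  · exact dim_le_of_wt_ne_zero ι ρ hK hpos hm hv hv0

end Pool.Agent.Helper31.SLEM
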