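import Pool.Agent.Helper31.SLEight

/-!
# Complex irreducible characters of `SL(2, 8)`: dimension of the fixed spaces of `U`, `T`, `B`
-/

set_option linter.unusedSectionVars false

open Matrix Matrix.SpecialLinearGroup Module
open scoped MatrixGroups
open Pool.Agent.Helper31.SLE

namespace Pool.Agent.Helper31.SLEO

variable {K : Type} [Field K] [CharP K 2] [Fintype K] [DecidableEq K]

/-- `U` as a homomorphism -/
def uHom : Multiplicative K →* SL(2, K) where
  toFun x := u (Multiplicative.toAdd x)
  map_one' := u_zero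
  map_mul' _ _ := u_add _ _

/-- `T` as a homomorphism -/
def tHom : Kˣ →* SL(2, K) where
  toFun a := t a
  map_one' := t_one
  map_mul' := t_mul

/-- the Borel subgroup -/
def B : Subgroup SL(2, K) where
  carrier := {g | (g : Matrix (Fin 2) (Fin 2) K) 1 0 = 0}
  one_mem' := by simp
  mul_mem' := by
    intro a b ha hb
    simp only [Set.mem_ofPred_eq, coe_mul, Matrix.mul_apply, Fin.sum_univ_two] at *
    rw [ha, hb]; ring
  inv_mem' := by
    intro a ha
    simp only [Set.mem_ofPred_eq] at *
    rw [SL2_inv_expl]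
    simpa using ha

lemma tu_mem (a : Kˣ) (x : K) : t a * u x ∈ (B : Subgroup SL(2, K)) := by
  change (((t a * u x : SL(2, K))) : Matrix (Fin 2) (Fin 2) K) 1 0 = 0
  rw [coe_mul, t_coe, u_coe, Matrix.mul_fin_two]
  simp

/-- parametrisation of the Borel subgroup -/
noncomputable def eB : Kˣ × K ≃ ↥(B : Subgroup SL(2, K)) :=
  Equiv.ofBijective (fun p => ⟨t p.1 * u p.2, tu_mem p.1 p.2⟩) (by
    constructor
    · rintro ⟨a, x⟩ ⟨b, y⟩ h
      have h' : ((t a * u x : SL(2, K)) : Matrix (Fin 2) (Fin 2) K) =
        ((t b * u y : SL(2, K)) : Matrix (Fin 2) (Fin 2) K) := by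
        rw [Subtype.ext_iff] at h
        exact congrArg _ h
      simp only [coe_mul, t_coe, u_coe, Matrix.mul_fin_two] at h'
      have h1 := congrFun (congrFun h' 0) 0
      have h2 := congrFun (congrFun h' 0) 1
      simp at h1 h2
      have hab : a = b := Units.ext h1
      subst hab
      simp at h2
      rw [h2]
    · rintro ⟨g, hg⟩
      have hd := g.2
      have hg' : (g : Matrix (Fin 2) (Fin 2) K) 1 0 = 0 := hg
      rw [Matrix.det_fin_two, hg', mul_zero, sub_zero] at hd
      have h0 : (g : Matrix (Fin 2) (Fin 2) K) 0 0 ≠ 0 := fun h => by simp [h] at hd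
      refine ⟨(Units.mk0 _ h0, (g : Matrix (Fin 2) (Fin 2) K) 0 1 / (g : Matrix (Fin 2) (Fin 2) K) 0 0),
        ?_⟩
      apply Subtype.ext
      apply Subtype.ext
      simp only [coe_mul, t_coe, u_coe, Matrix.mul_fin_two]
      ext i j
      fin_cases i <;> fin_cases j
      · simp
      · simp; field_simp
      · simp [hg']
      · simp
        field_simp
        linear_combination - hd)

variable {V : Type} [AddCommGroup V] [Module ℂ V] [FiniteDimensional ℂ V]
variable (ρ : Representation ℂ SL(2, K) V)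

lemma char_tu (a : Kˣ) (ha : a ≠ 1) (x : K) : ρ.character (t a * u x) = ρ.character (t a) := by
  have hne : ((a⁻¹ : Kˣ) : K) ^ 2 + 1 ≠ 0 := by
    intro h
    have h1 : (((a⁻¹ : Kˣ) : K) + 1) ^ 2 = 0 := by
      rw [add_sq, mul_one, one_pow, (CharTwo.two_eq_zero : (2 : K) = 0), zero_mul, add_zero, h]
    have h2 : ((a⁻¹ : Kˣ) : K) + 1 = 0 := pow_eq_zero_iff (two_ne_zero) |>.1 h1
    have h3 : ((a⁻¹ : Kˣ) : K) = 1 := by
      rw [← CharTwo.neg_eq (1 : K)]; exact eq_neg_of_add_eq_zero_left h2
    exact ha (inv_eq_one.1 (Units.ext h3))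
  set y : K := x / (((a⁻¹ : Kˣ) : K) ^ 2 + 1) with hy
  have h1 : u y * t a = t a * u (((a⁻¹ : Kˣ) : K) ^ 2 * y) := by
    rw [t_u, ← mul_assoc, ← mul_pow, Units.mul_inv, one_pow, one_mul]
  have h2 : u y * t a * (u y)⁻¹ = t a * u x := by
    rw [h1, u_inv, mul_assoc, ← u_add]
    congr 2
    rw [hy]
    field_simp
  rw [← h2, Representation.char_conj]

open Classical in
theorem fixed_identity (hK : Fintype.card K = 8) :
    ∃ a r b : ℕ, (∑ c : Kˣ, ρ.character (t c)) = 7 * (a : ℂ) ∧
      7 * a + r = finrank ℂ V + 7 * b ∧ b ≤ r ∧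
      (r = finrank ℂ V → ∀ x : K, ρ (u x) = 1) ∧ r ≤ finrank ℂ V := by
  have hcu : Fintype.card Kˣ = 7 := by rw [Fintype.card_units, hK]
  set ρU : Representation ℂ (Multiplicative K) V := MonoidHom.comp ρ uHom with hU
  set ρT : Representation ℂ Kˣ V := MonoidHom.comp ρ tHom with hT
  set ρB : Representation ℂ ↥(B : Subgroup SL(2, K)) V := MonoidHom.comp ρ (Subgroup.subtype B) with hB
  have inv8 : Invertible (Nat.card (Multiplicative K) : ℂ) := by
    rw [Nat.card_eq_fintype_card, Fintype.card_multiplicative, hK]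
    exact invertibleOfNonzero (by norm_num)
  have inv7 : Invertible (Nat.card Kˣ : ℂ) := by
    rw [Nat.card_eq_fintype_card, hcu]
    exact invertibleOfNonzero (by norm_num)
  have cB : Nat.card ↥(B : Subgroup SL(2, K)) = 56 := by
    rw [← Nat.card_congr eB, Nat.card_prod, Nat.card_eq_fintype_card, Nat.card_eq_fintype_card, hcu,
      hK]
  have inv56 : Invertible (Nat.card ↥(B : Subgroup SL(2, K)) : ℂ) := by
    rw [cB]
    exact invertibleOfNonzero (by norm_num)
  have eU := ρU.card_inv_mul_sum_char_eq_finrank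
  have eT := ρT.card_inv_mul_sum_char_eq_finrank
  have eB' := ρB.card_inv_mul_sum_char_eq_finrank
  set r := finrank ℂ (Representation.invariants ρU) with hr
  set a := finrank ℂ (Representation.invariants ρT) with ha
  set b := finrank ℂ (Representation.invariants ρB) with hb
  have sU : ∑ x : K, ρ.character (u x) = 8 * (r : ℂ) := by
    have : (∑ g : Multiplicative K, ρU.character g) = ∑ x : K, ρ.character (u x) :=
      Fintype.sum_equiv Multiplicative.toAdd _ _ (fun x => rfl)
    rw [this, Nat.card_eq_fintype_card, Fintype.card_multiplicative, hK] at eU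
    rw [← eU]; push_cast; ring
  have sT : ∑ c : Kˣ, ρ.character (t c) = 7 * (a : ℂ) := by
    have : (∑ g : Kˣ, ρT.character g) = ∑ c : Kˣ, ρ.character (t c) := rfl
    rw [this, Nat.card_eq_fintype_card, hcu] at eT
    rw [← eT]; push_cast; ring
  have sB : ∑ c : Kˣ, ∑ x : K, ρ.character (t c * u x) = 56 * (b : ℂ) := by
    have : (∑ g : ↥(B : Subgroup SL(2, K)), ρB.character g) =
        ∑ c : Kˣ, ∑ x : K, ρ.character (t c * u x) := by
      rw [← Equiv.sum_comp eB, Fintype.sum_prod_type]
      rfl
    rw [this, cB] at eB'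
    rw [← eB']; push_cast; ring
  refine ⟨a, r, b, sT, ?_, ?_, ?_, ?_⟩
  · have h1 : ∑ c : Kˣ, ∑ x : K, ρ.character (t c * u x) =
        8 * (r : ℂ) + 8 * (7 * (a : ℂ) - finrank ℂ V) := by
      rw [← Finset.add_sum_erase _ _ (Finset.mem_univ (1 : Kˣ))]
      have h2 : ∑ x : K, ρ.character (t (1 : Kˣ) * u x) = 8 * (r : ℂ) := by
        rw [← sU]
        apply Finset.sum_congr rfl
        intro x _
        rw [t_one, one_mul]
      rw [h2]
      congr 1
      have h3 : ∀ c ∈ Finset.univ.erase (1 : Kˣ), ∑ x : K, ρ.character (t c * u x) =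
          8 * ρ.character (t c) := by
        intro c hc
        rw [Finset.sum_congr rfl (fun x _ => char_tu ρ c (Finset.ne_of_mem_erase hc) x),
          Finset.sum_const, Finset.card_univ, hK, nsmul_eq_mul]
        norm_num
      rw [Finset.sum_congr rfl h3, ← Finset.mul_sum]
      congr 1
      rw [← sT, ← Finset.add_sum_erase _ _ (Finset.mem_univ (1 : Kˣ)), t_one,
        Representation.char_one]
      ring
    rw [sB] at h1
    have h4 : (7 * (a : ℂ) + r) = finrank ℂ V + 7 * b := by
      linear_combination (-(1 / 8 : ℂ)) * h1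
    exact_mod_cast h4
  · apply Submodule.finrank_mono
    intro v hv
    rw [Representation.mem_invariants] at hv ⊢
    intro x
    exact hv (eB (1, Multiplicative.toAdd x)) |> fun h => by
      have e : ((eB (1, Multiplicative.toAdd x) : ↥(B : Subgroup SL(2, K))) : SL(2, K)) =
        u (Multiplicative.toAdd x) := by
        change t 1 * u _ = _
        rw [t_one, one_mul]
      have h' : ρ ((eB (1, Multiplicative.toAdd x) : ↥(B : Subgroup SL(2, K))) : SL(2, K)) v = v := h
      rw [e] at h'
      exact h'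
  · intro hD x
    have htop : Representation.invariants ρU = ⊤ := Submodule.eq_top_of_finrank_eq hD
    ext v
    have hv : v ∈ Representation.invariants ρU := by rw [htop]; trivial
    rw [Representation.mem_invariants] at hv
    exact hv (Multiplicative.ofAdd x)
  · exact Submodule.finrank_le _

/-- if `U` acts trivially then `G` acts trivially -/
lemma trivial_of_u (h : ∀ x : K, ρ (u x) = 1) (g : SL(2, K)) : ρ g = 1 := by
  have hw : ρ w = 1 := by
    have e : (w : SL(2, K)) = u 1 * w * u 1 * w * u 1 := by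
      apply Subtype.ext
      have := v_coe (1 : K) 1
      rw [v] at this
      rw [this, w_coe]
      have h2 : (1 : K) + 1 * 1 = 0 := by rw [one_mul]; exact CharTwo.add_self_eq_zero 1
      rw [h2]; norm_num
    rw [e]
    simp only [map_mul, h, one_mul, mul_one]
    rw [← map_mul, w_mul_w, map_one]
  induction g using induction_uw with
  | hu x => exact h x
  | hw => exact hw
  | hmul A B hA hB => rw [map_mul, hA, hB, one_mul]

theorem char_eq_one_of_trivial [hρ : ρ.IsIrreducible] (h : ∀ g : SL(2, K), ρ g = 1) :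
    ρ.character = 1 := by
  have hnt : Nontrivial V := by
    by_contra hcon
    rw [not_nontrivial_iff_subsingleton] at hcon
    have : (⊥ : Subrepresentation ρ) = ⊤ := by
      apply Subrepresentation.toSubmodule_injective
      exact Subsingleton.elim _ _
    exact bot_ne_top this
  obtain ⟨v, hv⟩ := exists_ne (0 : V)
  have h1 := hρ.eq_bot_or_eq_top (⟨Submodule.span ℂ {v}, by
    intro g z hz; rw [h]; exact hz⟩ : Subrepresentation ρ)
  have h2 : Submodule.span ℂ {v} = ⊤ := by
    rcases h1 with h1 | h1
    · exfalso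
      have h3 : Submodule.span ℂ {v} = ⊥ := congrArg Subrepresentation.toSubmodule h1
      rw [Submodule.span_singleton_eq_bot] at h3
      exact hv h3
    · exact congrArg Subrepresentation.toSubmodule h1
  have h3 : finrank ℂ V = 1 := by
    rw [← finrank_top, ← h2, finrank_span_singleton hv]
  funext g
  rw [Representation.character, h, LinearMap.trace_one, h3]
  simp

theorem ord_facts (hK : Fintype.card K = 8) [hρ : ρ.IsIrreducible] (hne : ρ.character ≠ 1) :
    ∃ a r b : ℕ, (∑ c : Kˣ, ρ.character (t c)) = 7 * (a : ℂ) ∧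
      7 * a + r = finrank ℂ V + 7 * b ∧ b ≤ r ∧ r < finrank ℂ V := by
  obtain ⟨a, r, b, h1, h2, h3, h4, h5⟩ := fixed_identity ρ hK
  refine ⟨a, r, b, h1, h2, h3, lt_of_le_of_ne h5 (fun h => hne ?_)⟩
  exact char_eq_one_of_trivial ρ (trivial_of_u ρ (h4 h))

end Pool.Agent.Helper31.SLEO
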