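import Pool.Agent.Helper31.BrauerLift
import Pool.Agent.Helper31.SLEightMod
import Pool.Agent.Helper31.SLEightOrd

/-!
# The 2-block of `SL(2,8)` containing the natural module has no unitriangular decomposition matrix
-/

set_option linter.unusedSectionVars false

open Module Polynomial Matrix Matrix.SpecialLinearGroup
open scoped MatrixGroups
open Pool.Agent.Helper31.SLE Pool.Agent.Helper31.Brauer

namespace Pool.Agent.Helper31.SLEF

variable {K : Type} [Field K] [CharP K 2] [Fintype K] [DecidableEq K]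
variable {F : Type} [Field F] [CharP F 2] (red : AlgInt →+* F) (ι : K →+* F)

section Tsum

variable {V : Type} [AddCommGroup V] [Module F V] [FiniteDimensional F V]
variable (ρ : Representation F SL(2, K) V)

/-- the chosen lift of `ι a` -/
lemma exists_lift_hom (hK : Fintype.card K = 8) :
    ∃ z : Kˣ →* AlgInt, (∀ a, red (z a) = ι (a : K)) ∧ ∀ a, (z a) ^ 7 = 1 := by
  have h7 : ∀ a : Kˣ, (ι (a : K)) ^ 7 = 1 := fun a => SLEM.pow_seven ι hK a dvd_rfl
  choose z hz1 hz2 using fun a : Kˣ => exists_root red (n := 7) (by norm_num) (h7 a)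
  have hreg : ∀ y : AlgInt, y ^ 7 = 1 → IsRegularRoot 2 y := fun y hy => ⟨7, by norm_num, hy⟩
  refine ⟨{ toFun := z, map_one' := ?_, map_mul' := ?_ }, hz2, hz1⟩
  · apply regular_inj Nat.prime_two red (hreg _ (hz1 1)) (hreg _ (one_pow 7))
    rw [hz2, map_one]; simp
  · intro a b
    apply regular_inj Nat.prime_two red (hreg _ (hz1 _)) (hreg _ (by rw [mul_pow, hz1, hz1, one_mul]))
    rw [hz2, map_mul, hz2, hz2]; simp

/-- there is a basis of `T`-weight vectors. -/
lemma exists_wt_basis (hK : Fintype.card K = 8) :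
    ∃ (I : Type) (_ : Fintype I) (_ : DecidableEq I) (b : Basis I F V) (m : I → ℕ),
      ∀ (a : Kˣ) i, ρ (t a) (b i) = (ι (a : K)) ^ (m i) • b i := by
  classical
  set s : Set V := {v | ∃ m : ℕ, ∀ a : Kˣ, ρ (t a) v = (ι (a : K)) ^ m • v} with hs
  have hspan : Submodule.span F s = ⊤ := by
    rw [eq_top_iff]
    intro v _
    let e : ℕ → V := fun m => ∑ a : Kˣ, (ι ((a⁻¹ : Kˣ) : K)) ^ m • ρ (t a) v
    have hsum : ∑ m ∈ Finset.range 7, e m = v := by
      simp only [e]
      rw [Finset.sum_comm]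
      simp_rw [← Finset.sum_smul]
      rw [Finset.sum_eq_single (1 : Kˣ)]
      · simp only [inv_one, Units.val_one, map_one, one_pow, Finset.sum_const, Finset.card_range,
          nsmul_eq_mul, mul_one, t_one, map_one]
        have : ((7 : ℕ) : F) = 1 := by
          have h2 : (2 : F) = 0 := CharTwo.two_eq_zero
          push_cast
          linear_combination (3 : F) * h2
        rw [this, one_smul]; rfl
      · intro a _ ha
        have hne : ι ((a⁻¹ : Kˣ) : K) ≠ 1 := by
          rw [← map_one ι]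
          intro h
          exact ha (inv_eq_one.1 (Units.ext (ι.injective h)))
        have hgeom : (∑ m ∈ Finset.range 7, (ι ((a⁻¹ : Kˣ) : K)) ^ m) *
            (ι ((a⁻¹ : Kˣ) : K) - 1) = 0 := by
          rw [geom_sum_mul, SLEM.pow_seven ι hK _ dvd_rfl, sub_self]
        rw [(mul_eq_zero.1 hgeom).resolve_right (sub_ne_zero.2 hne), zero_smul]
      · intro h; exact absurd (Finset.mem_univ _) h
    rw [← hsum]
    apply Submodule.sum_mem
    intro m _
    apply Submodule.subset_span
    refine ⟨m, fun b => ?_⟩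
    simp only [e]
    rw [map_sum, ← Equiv.sum_comp (Equiv.mulLeft b) (fun a => (ι ((a⁻¹ : Kˣ) : K)) ^ m • ρ (t a) v),
      Finset.smul_sum]
    apply Finset.sum_congr rfl
    intro a _
    rw [map_smul, ← SLEM.rho_mul, ← t_mul, Equiv.coe_mulLeft, smul_smul]
    congr 1
    rw [← mul_pow, ← map_mul, ← Units.val_mul]
    congr 3
    rw [mul_inv, mul_inv_cancel_left]
  obtain ⟨b, hbs, hb1, hb2⟩ := exists_linearIndependent F s
  have hfin : Finite ↥b := hb2.finite
  have : Fintype ↥b := Fintype.ofFinite _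
  have hb1' : ⊤ ≤ Submodule.span F (Set.range ((↑) : ↥b → V)) := by
    rw [Subtype.range_coe, hb1, hspan]
  let B := Basis.mk hb2 hb1'
  have hm : ∀ i : ↥b, ∃ m : ℕ, ∀ a : Kˣ, ρ (t a) (i : V) = (ι (a : K)) ^ m • (i : V) :=
    fun i => hbs i.2
  choose m hm using hm
  refine ⟨↥b, this, inferInstance, B, m, fun a i => ?_⟩
  have : B i = (i : V) := by simp [B]
  rw [this]
  exact hm i a

include ι in
/-- The sum of the Brauer character over `T` is seven times a natural number. -/
lemma tsum (hK : Fintype.card K = 8) :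
    ∃ c : ℕ, ∑ a : Kˣ, brauerValue 2 red ρ (t a) = 7 * (c : ℂ) := by
  classical
  obtain ⟨z, hz1, hz7⟩ := exists_lift_hom red ι hK
  obtain ⟨I, _, _, b, m, hb⟩ := exists_wt_basis (K := K) (F := F) ι ρ hK
  have hreg : ∀ y : AlgInt, y ^ 7 = 1 → IsRegularRoot 2 y := fun y hy => ⟨7, by norm_num, hy⟩
  have h1 : ∀ a : Kˣ, brauerValue 2 red ρ (t a) = ∑ i, (((z a) ^ (m i) : AlgInt) : ℂ) := by
    intro a
    rw [brauerValue_of_basis red ρ b (t a) (fun i => (ι (a : K)) ^ (m i)) (hb a)]
    apply Finset.sum_congr rfl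
    intro i _
    rw [← hz1, ← map_pow]
    exact lift_red Nat.prime_two red (hreg _ (by rw [← pow_mul, mul_comm, pow_mul, hz7, one_pow]))
  simp_rw [h1]
  rw [Finset.sum_comm]
  have h2 : ∀ i : I, ∃ c : ℕ, ∑ a : Kˣ, (((z a) ^ (m i) : AlgInt) : ℂ) = 7 * (c : ℂ) := by
    intro i
    let g : Kˣ →* ℂ := ((integralClosure ℤ ℂ).val.toRingHom.toMonoidHom.comp z) ^ (m i)
    have hg : ∀ a, g a = (((z a) ^ (m i) : AlgInt) : ℂ) := by
      intro a
      simp [g]
    simp_rw [← hg]
    rw [sum_hom_units]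
    split_ifs with h
    · refine ⟨1, ?_⟩
      rw [Fintype.card_units, hK]; norm_num
    · exact ⟨0, by simp⟩
  choose c hc using h2
  refine ⟨∑ i, c i, ?_⟩
  rw [Finset.sum_congr rfl (fun i _ => hc i), ← Finset.mul_sum]
  push_cast; rfl

end Tsum

/-! ### The natural module -/

/-- the natural representation on `F²` -/
noncomputable def nat : Representation F SL(2, K) (Fin 2 → F) where
  toFun g := Matrix.toLin' (((g : SL(2, K)) : Matrix (Fin 2) (Fin 2) K).map ι)
  map_one' := by
    rw [Matrix.SpecialLinearGroup.coe_one, Matrix.map_one _ (map_zero ι) (map_one ι), Matrix.toLin'_one]; rfl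
  map_mul' g h := by
    rw [Matrix.SpecialLinearGroup.coe_mul, Matrix.map_mul, Matrix.toLin'_mul]; rfl

lemma nat_apply (g : SL(2, K)) (v : Fin 2 → F) :
    nat ι g v = (((g : SL(2, K)) : Matrix (Fin 2) (Fin 2) K).map ι).mulVec v := rfl

lemma nat_u (x : K) (v : Fin 2 → F) : nat ι (u x) v = ![v 0 + ι x * v 1, v 1] := by
  rw [nat_apply]
  ext i
  fin_cases i <;> simp [Matrix.mulVec, dotProduct, Fin.sum_univ_two]

lemma nat_w (v : Fin 2 → F) : nat ι (w : SL(2, K)) v = ![v 1, v 0] := by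
  rw [nat_apply]
  ext i
  fin_cases i <;> simp [Matrix.mulVec, dotProduct, Fin.sum_univ_two]

lemma nat_irreducible : (nat (K := K) ι).IsIrreducible := by
  have hnt : Nontrivial (Subrepresentation (nat (K := K) ι)) := by
    refine ⟨⊥, ⊤, fun h => ?_⟩
    have h1 : (⊥ : Submodule F (Fin 2 → F)) = ⊤ := congrArg Subrepresentation.toSubmodule h
    exact bot_ne_top h1
  refine { eq_bot_or_eq_top := fun W => ?_ }
  by_cases hW : W.toSubmodule = ⊥
  · left; exact Subrepresentation.toSubmodule_injective hW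
  right
  apply Subrepresentation.toSubmodule_injective
  change W.toSubmodule = ⊤
  obtain ⟨v, hv, hv0⟩ := (Submodule.ne_bot_iff _).1 hW
  have hu : ∀ x : K, ∀ z ∈ W.toSubmodule, nat ι (u x) z ∈ W.toSubmodule := fun x z hz =>
    W.apply_mem_toSubmodule _ hz
  have hw : ∀ z ∈ W.toSubmodule, nat ι (w : SL(2, K)) z ∈ W.toSubmodule := fun z hz =>
    W.apply_mem_toSubmodule _ hz
  have h10 : ![(1 : F), 0] ∈ W.toSubmodule := by
    by_cases h1 : v 1 = 0
    · have h0 : v 0 ≠ 0 := by
        intro h0; apply hv0; ext i; fin_cases i <;> simp [h0, h1]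
      have : (v 0)⁻¹ • v = ![(1 : F), 0] := by
        ext i; fin_cases i <;> simp [h0, h1]
      rw [← this]; exact Submodule.smul_mem _ _ hv
    · have h2 : (v 1)⁻¹ • (nat ι (u (1 : K)) v - v) = ![(1 : F), 0] := by
        rw [nat_u]
        ext i; fin_cases i <;> simp [h1, Matrix.vecHead, Matrix.vecTail]
      rw [← h2]
      exact Submodule.smul_mem _ _ (Submodule.sub_mem _ (hu 1 v hv) hv)
  have h01 : ![(0 : F), 1] ∈ W.toSubmodule := by
    have := hw _ h10
    rw [nat_w] at this
    simpa using this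
  rw [eq_top_iff]
  intro z _
  have : z = z 0 • ![(1 : F), 0] + z 1 • ![(0 : F), 1] := by
    ext i; fin_cases i <;> simp
  rw [this]
  exact Submodule.add_mem _ (Submodule.smul_mem _ _ h10) (Submodule.smul_mem _ _ h01)

/-- an endomorphism commuting with the natural representation is scalar -/
lemma nat_scalar (X : (Fin 2 → F) →ₗ[F] (Fin 2 → F))
    (hX : ∀ g : SL(2, K), X ∘ₗ nat ι g = nat ι g ∘ₗ X) :
    ∃ c : F, X = c • (LinearMap.id : (Fin 2 → F) →ₗ[F] (Fin 2 → F)) := by
  have h1 := fun v => LinearMap.congr_fun (hX (u 1)) v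
  have h2 := fun v => LinearMap.congr_fun (hX w) v
  simp only [LinearMap.comp_apply, nat_u, nat_w, map_one, one_mul] at h1 h2
  set A := X ![(1 : F), 0] with hA
  set B := X ![(0 : F), 1] with hB
  have hAB : B = ![A 1, A 0] := by
    have := h2 ![(1 : F), 0]
    simpa using this
  have h3 := h1 ![(1 : F), 0]
  have h4 := h1 ![(0 : F), 1]
  simp only [Matrix.cons_val_zero, Matrix.cons_val_one, add_zero, zero_add] at h3 h4
  rw [← hA] at h3
  have h5 : A 1 = 0 := by
    have := congrFun h3 0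
    simp at this
    exact this
  refine ⟨A 0, ?_⟩
  apply LinearMap.ext
  intro v
  have hv : v = v 0 • ![(1 : F), 0] + v 1 • ![(0 : F), 1] := by
    ext i; fin_cases i <;> simp
  have hXv : X v = v 0 • A + v 1 • B := by
    conv_lhs => rw [hv]
    rw [map_add, map_smul, map_smul]
  rw [hXv, hAB, h5]
  ext i
  fin_cases i
  · simp [mul_comm]
  · simp [h5, mul_comm]

/-- class sums act by scalars on the natural module -/
lemma exists_lam : ∃ lam : SL(2, K) → F, ∀ g, classSum (nat (K := K) ι) g =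
    lam g • (LinearMap.id : (Fin 2 → F) →ₗ[F] (Fin 2 → F)) := by
  classical
  have h : ∀ g : SL(2, K), ∃ c : F, classSum (nat (K := K) ι) g =
      c • (LinearMap.id : (Fin 2 → F) →ₗ[F] (Fin 2 → F)) := by
    intro g
    apply nat_scalar ι
    intro h
    unfold classSum
    change (∑ x ∈ _, nat ι x) * nat ι h = nat ι h * (∑ x ∈ _, nat ι x)
    rw [Finset.sum_mul, Finset.mul_sum]
    refine Finset.sum_bij' (fun x _ => h⁻¹ * x * h) (fun x _ => h * x * h⁻¹) ?_ ?_ ?_ ?_ ?_
    · intro x hx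
      simp only [Finset.mem_filter, Finset.mem_univ, true_and] at hx ⊢
      exact hx.trans (isConj_iff.2 ⟨h⁻¹, by rw [inv_inv]⟩)
    · intro x hx
      simp only [Finset.mem_filter, Finset.mem_univ, true_and] at hx ⊢
      exact hx.trans (isConj_iff.2 ⟨h, rfl⟩)
    · intro x _; group
    · intro x _; group
    · intro x _
      change nat ι x * nat ι h = nat ι h * nat ι (h⁻¹ * x * h)
      rw [← map_mul, ← map_mul]
      congr 1
      group
  choose lam hlam using h
  exact ⟨lam, hlam⟩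

/-- on the natural module the class sum of `u 1` acts as the identity -/
lemma nat_classSum (hK : Fintype.card K = 8) :
    (∑ b : Kˣ, nat ι (u (b : K)) + ∑ x : K, ∑ c : Kˣ, nat ι (SLE.v x (c : K)) :
      (Fin 2 → F) →ₗ[F] (Fin 2 → F)) = LinearMap.id := by
  have hs0 : ∑ x : K, ι x = 0 := by
    have := SLEM.power_sum_zero (F := F) ι hK (j := 1) (by norm_num)
    simpa using this
  have hs1 : ∑ x : Kˣ, ι (x : K) = 0 := by
    rw [SLEM.sum_K] at hs0
    simpa using hs0
  have h7 : ((7 : ℕ) : F) = 1 := by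
    have h2 : (2 : F) = 0 := CharTwo.two_eq_zero
    push_cast
    linear_combination (3 : F) * h2
  have h8 : ((8 : ℕ) : F) = 0 := by
    rw [CharP.cast_eq_zero_iff F 2]; decide
  have hcu : Fintype.card Kˣ = 7 := by rw [Fintype.card_units, hK]
  apply LinearMap.ext
  intro z
  rw [LinearMap.add_apply, LinearMap.sum_apply, LinearMap.sum_apply]
  simp only [LinearMap.sum_apply]
  have hv : ∀ (x : K) (c : Kˣ), nat ι (SLE.v x (c : K)) z =
      ![(1 + ι x * ι (c : K)) * z 0 + ι x ^ 2 * ι (c : K) * z 1,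
        ι (c : K) * z 0 + (1 + ι x * ι (c : K)) * z 1] := by
    intro x c
    rw [nat_apply, v_coe]
    ext i
    fin_cases i <;> simp [Matrix.mulVec, dotProduct, Fin.sum_univ_two]
  simp only [nat_u, hv]
  ext i
  fin_cases i
  · simp only [Fin.zero_eta, Pi.add_apply, Finset.sum_apply, Matrix.cons_val_zero, LinearMap.id_apply]
    have e1 : ∀ x : K, ∑ c : Kˣ, ((1 + ι x * ι (c : K)) * z 0 + ι x ^ 2 * ι (c : K) * z 1) =
        z 0 := by
      intro x
      have : ∀ c : Kˣ, (1 + ι x * ι (c : K)) * z 0 + ι x ^ 2 * ι (c : K) * z 1 =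
        z 0 + ι (c : K) * (ι x * z 0 + ι x ^ 2 * z 1) := by intro c; ring
      simp_rw [this]
      rw [Finset.sum_add_distrib, ← Finset.sum_mul, hs1, zero_mul, add_zero, Finset.sum_const,
        Finset.card_univ, hcu, nsmul_eq_mul, h7, one_mul]
    simp_rw [e1]
    rw [Finset.sum_add_distrib, ← Finset.sum_mul, hs1, zero_mul, add_zero, Finset.sum_const,
      Finset.sum_const, Finset.card_univ, Finset.card_univ, hcu, hK, nsmul_eq_mul, nsmul_eq_mul,
      h7, h8, one_mul, zero_mul, add_zero]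
  · simp only [Fin.mk_one, Pi.add_apply, Finset.sum_apply, Matrix.cons_val_one, LinearMap.id_apply]
    have e1 : ∀ x : K, ∑ c : Kˣ, (ι (c : K) * z 0 + (1 + ι x * ι (c : K)) * z 1) = z 1 := by
      intro x
      have : ∀ c : Kˣ, ι (c : K) * z 0 + (1 + ι x * ι (c : K)) * z 1 =
        z 1 + ι (c : K) * (z 0 + ι x * z 1) := by intro c; ring
      simp_rw [this]
      rw [Finset.sum_add_distrib, ← Finset.sum_mul, hs1, zero_mul, add_zero, Finset.sum_const,
        Finset.card_univ, hcu, nsmul_eq_mul, h7, one_mul]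
    simp only [Matrix.cons_val_zero, Matrix.cons_val_fin_one]
    simp_rw [e1]
    rw [Finset.sum_const,
      Finset.sum_const, Finset.card_univ, Finset.card_univ, hcu, hK, nsmul_eq_mul, nsmul_eq_mul,
      h7, h8, one_mul, zero_mul, add_zero]

/-- irreducible `F`-representations in the block of the natural module have dimension `≤ 4`. -/
lemma block_dim_le (hK : Fintype.card K = 8) {lam : SL(2, K) → F}
    (hlam : ∀ g, classSum (nat (K := K) ι) g =
      lam g • (LinearMap.id : (Fin 2 → F) →ₗ[F] (Fin 2 → F)))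
    {k : ℕ} (ρ : Representation F SL(2, K) (Fin k → F)) (hρ : ρ.IsIrreducible)
    (hρl : ∀ g, classSum ρ g = lam g • (LinearMap.id : (Fin k → F) →ₗ[F] (Fin k → F))) :
    k ≤ 4 := by
  have e : ∀ {m : ℕ} (σ : Representation F SL(2, K) (Fin m → F)), classSum σ (u 1) =
      (∑ b : Kˣ, σ (u (b : K)) + ∑ x : K, ∑ c : Kˣ, σ (SLE.v x (c : K)) :
      (Fin m → F) →ₗ[F] (Fin m → F)) := by
    intro m σ
    unfold classSum
    convert sum_class (K := K) (fun g => σ g)
  have h1 : lam (u 1) = 1 := by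
    have h2 := hlam (u 1)
    rw [e, nat_classSum ι hK] at h2
    have h3 := congrFun (LinearMap.congr_fun h2 ![1, 0]) 0
    simpa using h3.symm
  have h4 := hρl (u 1)
  rw [e, h1, one_smul] at h4
  have h5 := SLEM.dim_le ι ρ hK h4
  rwa [Module.finrank_fin_fun] at h5

lemma reg_one : ¬ 2 ∣ orderOf (1 : SL(2, K)) := by
  rw [orderOf_one]; norm_num

lemma reg_t (hK : Fintype.card K = 8) (a : Kˣ) : ¬ 2 ∣ orderOf (t a : SL(2, K)) := by
  have h7 : (t a : SL(2, K)) ^ 7 = 1 := by
    have hcard : Fintype.card Kˣ = 7 := by rw [Fintype.card_units, hK]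
    have : (SLEO.tHom (K := K)) a ^ 7 = 1 := by
      rw [← map_pow, ← hcard, pow_card_eq_one, map_one]
    exact this
  intro h
  have := h.trans (orderOf_dvd_of_pow_eq_one h7)
  revert this; decide

theorem main (hK : Fintype.card K = 8) (hred : Function.Surjective red) :
    ∃ lam : SL(2, K) → F, IsBlock lam ∧
      ∀ d : ↥(IrrB red lam) → ↥(IBrB (G := SL(2, K)) 2 red lam) →₀ ℕ,
        IsDecompositionMatrix 2 red lam d → ¬ Unitriangular d := by
  have hac : IsAlgClosed F := isAlgClosed red hred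
  let _ : Algebra (ZMod 2) K := ZMod.algebra K 2
  let _ : Algebra (ZMod 2) F := ZMod.algebra F 2
  have : Algebra.IsAlgebraic (ZMod 2) K := Algebra.IsAlgebraic.of_finite _ _
  let ι : K →+* F := (IsAlgClosed.lift (R := ZMod 2) (S := K) (M := F)).toRingHom
  obtain ⟨lam, hlam⟩ := exists_lam (K := K) ι
  refine ⟨lam, ⟨2, nat ι, nat_irreducible ι, hlam⟩, ?_⟩
  rintro d hd ⟨n, χ, φ, hinj, h1, h2⟩
  -- dimension facts
  have hreg1 := reg_one (K := K)
  have hbr : ∀ ψ : ↥(IBrB (G := SL(2, K)) 2 red lam), ∃ s c : ℕ, s ≤ 4 ∧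
      ψ.1 ⟨1, hreg1⟩ = (s : ℂ) ∧ ∑ a : Kˣ, ψ.1 ⟨t a, reg_t hK a⟩ = 7 * (c : ℂ) := by
    rintro ⟨ψ, k, ρ, hρ, haff, hcl⟩
    obtain ⟨c, hc⟩ := tsum red ι ρ hK
    refine ⟨k, c, block_dim_le ι hK hlam ρ hρ hcl, ?_, ?_⟩
    · change ψ ⟨1, hreg1⟩ = _
      rw [haff ⟨1, hreg1⟩, brauerValue_one Nat.prime_two red ρ, Module.finrank_fin_fun]
    · rw [← hc]
      exact Finset.sum_congr rfl (fun a _ => haff _)
  -- the natural Brauer character
  let φN : ↥(IBrB (G := SL(2, K)) 2 red lam) :=
    ⟨fun g => brauerValue 2 red (nat ι) g.1, 2, nat ι, nat_irreducible ι, fun g => rfl, hlam⟩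
  have hφN : φN.1 ⟨1, hreg1⟩ = 2 := by
    change brauerValue 2 red (nat ι) 1 = 2
    rw [brauerValue_one Nat.prime_two red, Module.finrank_fin_fun]; norm_num
  have hn : 0 < n := by
    have := (φ.symm φN).pos
    exact this
  let i0 : Fin n := ⟨0, hn⟩
  have hrow0 : d (χ i0) = Finsupp.single (φ i0) 1 := by
    classical
    ext ψ
    obtain ⟨j, rfl⟩ := φ.surjective ψ
    by_cases hj : j = i0
    · subst hj; rw [h1, Finsupp.single_eq_same]
    · rw [Finsupp.single_eq_of_ne (fun h => hj (φ.injective h)), h2]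
      rw [Fin.lt_def]
      have : (j : ℕ) ≠ 0 := fun h => hj (Fin.ext h)
      change 0 < (j : ℕ)
      omega
  have hχ0 : ∀ g : Reg 2 SL(2, K), (χ i0).1 g.1 = (φ i0).1 g := by
    intro g
    have := hd (χ i0) g
    rw [hrow0, Finsupp.sum_single_index (by simp)] at this
    simpa using this
  -- the first row is the trivial character
  have htriv : (χ i0).1 = 1 := by
    by_contra hne
    obtain ⟨⟨k, ρ, hρ, hchar⟩, -⟩ := (χ i0).2
    rw [← hchar] at hne
    obtain ⟨a, r, b, -, e2, e3, e4⟩ := SLEO.ord_facts ρ hK hne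
    obtain ⟨s, -, hs, e5, -⟩ := hbr (φ i0)
    have e6 := hχ0 ⟨1, hreg1⟩
    rw [e5, ← hchar, Representation.char_one] at e6
    have e7 : finrank ℂ (Fin k → ℂ) = s := by exact_mod_cast e6
    omega
  have hφ0 : ∀ g : Reg 2 SL(2, K), (φ i0).1 g = 1 := by
    intro g
    rw [← hχ0, htriv]; rfl
  have hNne : φN ≠ φ i0 := by
    intro h
    have := hφ0 ⟨1, hreg1⟩
    rw [← h, hφN] at this
    norm_num at this
  have hn1 : 1 < n := by
    have h3 : φ.symm φN ≠ i0 := by
      intro h; apply hNne; rw [← h, Equiv.apply_symm_apply]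
    have h4 : ((φ.symm φN : Fin n) : ℕ) ≠ 0 := fun h => h3 (Fin.ext h)
    have h5 := (φ.symm φN).2
    omega
  let i1 : Fin n := ⟨1, hn1⟩
  have h01 : i0 ≠ i1 := fun h => by
    have := congrArg Fin.val h
    simp [i0, i1] at this
  set d0 := d (χ i1) (φ i0) with hd0
  have hrow1 : d (χ i1) = Finsupp.single (φ i0) d0 + Finsupp.single (φ i1) 1 := by
    classical
    ext ψ
    obtain ⟨j, rfl⟩ := φ.surjective ψ
    rw [Finsupp.add_apply]
    by_cases hj : j = i0
    · subst hj
      rw [Finsupp.single_eq_same, Finsupp.single_eq_of_ne (fun h => h01 (φ.injective h)), add_zero]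
    · by_cases hj1 : j = i1
      · subst hj1
        rw [h1, Finsupp.single_eq_same, Finsupp.single_eq_of_ne (fun h => hj (φ.injective h)),
          zero_add]
      · have hlt : i1 < j := by
          rw [Fin.lt_def]
          have e1 : (j : ℕ) ≠ 0 := fun h => hj (Fin.ext h)
          have e2 : (j : ℕ) ≠ 1 := fun h => hj1 (Fin.ext h)
          change 1 < (j : ℕ)
          omega
        rw [Finsupp.single_eq_of_ne (fun h => hj (φ.injective h)),
          Finsupp.single_eq_of_ne (fun h => hj1 (φ.injective h)), h2 _ _ hlt, add_zero]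
  have hχ1 : ∀ g : Reg 2 SL(2, K), (χ i1).1 g.1 = d0 + (φ i1).1 g := by
    intro g
    have := hd (χ i1) g
    rw [hrow1, Finsupp.sum_add_index' (by simp) (by intro a b c; push_cast; ring),
      Finsupp.sum_single_index (by simp), Finsupp.sum_single_index (by simp), hφ0] at this
    simpa using this
  have hne : (χ i1).1 ≠ 1 := by
    intro h
    apply h01
    apply hinj
    apply Subtype.ext
    rw [htriv, h]
  obtain ⟨⟨k, ρ, hρ, hchar⟩, -⟩ := (χ i1).2
  rw [← hchar] at hne
  obtain ⟨a, r, b, e1, e2, e3, e4⟩ := SLEO.ord_facts ρ hK hne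
  obtain ⟨s, c, hs, e5, e6⟩ := hbr (φ i1)
  have e7 := hχ1 ⟨1, hreg1⟩
  rw [e5, ← hchar, Representation.char_one] at e7
  have e8 : finrank ℂ (Fin k → ℂ) = d0 + s := by exact_mod_cast e7
  have e9 : ∑ x : Kˣ, ρ.character (t x) = 7 * (d0 : ℂ) + 7 * (c : ℂ) := by
    rw [← e6, hchar]
    rw [Finset.sum_congr rfl (fun x _ => hχ1 ⟨t x, reg_t hK x⟩), Finset.sum_add_distrib,
      Finset.sum_const, Finset.card_univ, Fintype.card_units, hK, nsmul_eq_mul]
    norm_num
  rw [e1] at e9
  have e10 : a = d0 + c := by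
    have : (7 : ℂ) * (a : ℂ) = 7 * ((d0 + c : ℕ) : ℂ) := by rw [e9]; push_cast; ring
    have h7 : (7 : ℂ) ≠ 0 := by norm_num
    exact_mod_cast mul_left_cancel₀ h7 this
  omega

end Pool.Agent.Helper31.SLEF
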